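import Mathlib

set_option autoImplicit false
open Polynomial

namespace Pool.Agent.H278R3.LPoly

variable {V W : Type*} [AddCommGroup V] [Module ℂ V] [AddCommGroup W] [Module ℂ W]

/-- A function whose restriction to every complex line is polynomial. -/
def LP (f : V → ℂ) : Prop := ∀ v w : V, ∃ p : ℂ[X], ∀ z : ℂ, f (v + z • w) = p.eval z

theorem LP.const (c : ℂ) : LP (fun _ : V => c) := fun _ _ => ⟨C c, fun z => by simp⟩

theorem LP.add {f g : V → ℂ} (hf : LP f) (hg : LP g) : LP (fun v => f v + g v) := by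
  intro v w
  obtain ⟨p, hp⟩ := hf v w
  obtain ⟨q, hq⟩ := hg v w
  exact ⟨p + q, fun z => by simp [hp, hq]⟩

theorem LP.mul {f g : V → ℂ} (hf : LP f) (hg : LP g) : LP (fun v => f v * g v) := by
  intro v w
  obtain ⟨p, hp⟩ := hf v w
  obtain ⟨q, hq⟩ := hg v w
  exact ⟨p * q, fun z => by simp [hp, hq]⟩

theorem LP.neg {f : V → ℂ} (hf : LP f) : LP (fun v => - f v) := by
  intro v w
  obtain ⟨p, hp⟩ := hf v w
  exact ⟨-p, fun z => by simp [hp]⟩

theorem LP.sub {f g : V → ℂ} (hf : LP f) (hg : LP g) : LP (fun v => f v - g v) := by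
  intro v w
  obtain ⟨p, hp⟩ := hf v w
  obtain ⟨q, hq⟩ := hg v w
  exact ⟨p - q, fun z => by simp [hp, hq]⟩

theorem LP.sum {ι : Type*} (s : Finset ι) {f : ι → V → ℂ} (hf : ∀ i ∈ s, LP (f i)) :
    LP (fun v => ∑ i ∈ s, f i v) := by
  classical
  induction s using Finset.induction_on with
  | empty => simpa using LP.const (V := V) 0
  | insert a s ha ih =>
    have h1 : (fun v => ∑ i ∈ insert a s, f i v) = fun v => f a v + ∑ i ∈ s, f i v := by
      funext v; rw [Finset.sum_insert ha]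
    rw [h1]
    exact (hf a (Finset.mem_insert_self _ _)).add
      (ih (fun i hi => hf i (Finset.mem_insert_of_mem hi)))

theorem LP.prod {ι : Type*} (s : Finset ι) {f : ι → V → ℂ} (hf : ∀ i ∈ s, LP (f i)) :
    LP (fun v => ∏ i ∈ s, f i v) := by
  classical
  induction s using Finset.induction_on with
  | empty => simpa using LP.const (V := V) 1
  | insert a s ha ih =>
    have h1 : (fun v => ∏ i ∈ insert a s, f i v) = fun v => f a v * ∏ i ∈ s, f i v := by
      funext v; rw [Finset.prod_insert ha]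
    rw [h1]
    exact (hf a (Finset.mem_insert_self _ _)).mul
      (ih (fun i hi => hf i (Finset.mem_insert_of_mem hi)))

theorem LP.linear (f : V →ₗ[ℂ] ℂ) : LP (fun v => f v) := by
  intro v w
  refine ⟨C (f v) + C (f w) * X, fun z => ?_⟩
  show f (v + z • w) = _
  rw [map_add, map_smul, eval_add, eval_mul, eval_C, eval_C, eval_X, smul_eq_mul, mul_comm z]

theorem LP.comp_affine {f : W → ℂ} (hf : LP f) (g : V →ₗ[ℂ] W) (c : W) :
    LP (fun v => f (g v + c)) := by
  intro v w
  obtain ⟨p, hp⟩ := hf (g v + c) (g w)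
  refine ⟨p, fun z => ?_⟩
  have h : g (v + z • w) + c = (g v + c) + z • g w := by
    rw [map_add, map_smul]; abel
  show f (g (v + z • w) + c) = _
  rw [h, hp]

theorem LP.comp_linear {f : W → ℂ} (hf : LP f) (g : V →ₗ[ℂ] W) : LP (fun v => f (g v)) := by
  simpa using hf.comp_affine g 0

/-- no zero divisors among line-polynomial functions -/
theorem LP.zero_or_zero {f g : V → ℂ} (hf : LP f) (hg : LP g) (h : ∀ v, f v * g v = 0) :
    (∀ v, f v = 0) ∨ (∀ v, g v = 0) := by
  by_contra hcon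
  push Not at hcon
  obtain ⟨⟨v₁, h₁⟩, v₂, h₂⟩ := hcon
  obtain ⟨p, hp⟩ := hf v₁ (v₂ - v₁)
  obtain ⟨q, hq⟩ := hg v₁ (v₂ - v₁)
  have hpq : p * q = 0 := by
    apply Polynomial.funext
    intro z
    rw [eval_mul, ← hp, ← hq, h, eval_zero]
  rcases mul_eq_zero.1 hpq with h0 | h0
  · apply h₁
    have := hp 0
    simpa [h0] using this
  · apply h₂
    have := hq 1
    simpa [h0] using this

/-- equality on the complement of the zero set of a nonzero line-polynomial function -/
theorem LP.eq_of_generic {f g F : V → ℂ} (hf : LP f) (hg : LP g) (hF : LP F)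
    (hne : ∃ v, F v ≠ 0) (h : ∀ v, F v ≠ 0 → f v = g v) : ∀ v, f v = g v := by
  have h1 : ∀ v, (f v - g v) * F v = 0 := by
    intro v
    by_cases hv : F v = 0
    · rw [hv, mul_zero]
    · rw [h v hv, sub_self, zero_mul]
  rcases LP.zero_or_zero (hf.sub hg) hF h1 with h2 | h2
  · intro v
    exact sub_eq_zero.1 (h2 v)
  · obtain ⟨v, hv⟩ := hne
    exact absurd (h2 v) hv

theorem LP.exists_ne_mul {f g : V → ℂ} (hf : LP f) (hg : LP g) (h1 : ∃ v, f v ≠ 0)
    (h2 : ∃ v, g v ≠ 0) : ∃ v, f v * g v ≠ 0 := by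
  by_contra hcon
  push Not at hcon
  rcases LP.zero_or_zero hf hg hcon with h | h
  · obtain ⟨v, hv⟩ := h1; exact hv (h v)
  · obtain ⟨v, hv⟩ := h2; exact hv (h v)

theorem LP.exists_ne_prod {ι : Type*} (s : Finset ι) {f : ι → V → ℂ} (hf : ∀ i ∈ s, LP (f i))
    (hne : ∀ i ∈ s, ∃ v, f i v ≠ 0) : ∃ v, ∏ i ∈ s, f i v ≠ 0 := by
  classical
  induction s using Finset.induction_on with
  | empty => exact ⟨0, by simp⟩
  | insert a s ha ih =>
    obtain ⟨v, hv⟩ := LP.exists_ne_mul (hf a (Finset.mem_insert_self _ _))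
      (LP.prod s (fun i hi => hf i (Finset.mem_insert_of_mem hi)))
      (hne a (Finset.mem_insert_self _ _))
      (ih (fun i hi => hf i (Finset.mem_insert_of_mem hi))
        (fun i hi => hne i (Finset.mem_insert_of_mem hi)))
    exact ⟨v, by rwa [Finset.prod_insert ha]⟩

/-- matrix valued line-polynomial functions -/
def LPM {n : ℕ} (f : V → Matrix (Fin n) (Fin n) ℂ) : Prop := ∀ i j, LP (fun v => f v i j)

variable {n : ℕ}

theorem LPM.const (A : Matrix (Fin n) (Fin n) ℂ) : LPM (fun _ : V => A) :=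
  fun i j => LP.const (A i j)

theorem LPM.add {f g : V → Matrix (Fin n) (Fin n) ℂ} (hf : LPM f) (hg : LPM g) :
    LPM (fun v => f v + g v) := fun i j => (hf i j).add (hg i j)

theorem LPM.sub {f g : V → Matrix (Fin n) (Fin n) ℂ} (hf : LPM f) (hg : LPM g) :
    LPM (fun v => f v - g v) := fun i j => (hf i j).sub (hg i j)

theorem LPM.mul {f g : V → Matrix (Fin n) (Fin n) ℂ} (hf : LPM f) (hg : LPM g) :
    LPM (fun v => f v * g v) := by
  intro i j
  simp only [Matrix.mul_apply]
  exact LP.sum _ (fun k _ => (hf i k).mul (hg k j))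

theorem LPM.pow {f : V → Matrix (Fin n) (Fin n) ℂ} (hf : LPM f) (k : ℕ) :
    LPM (fun v => f v ^ k) := by
  induction k with
  | zero => simpa using LPM.const (V := V) (1 : Matrix (Fin n) (Fin n) ℂ)
  | succ k ih =>
    simp only [pow_succ]
    exact ih.mul hf

theorem LPM.linear (f : V →ₗ[ℂ] Matrix (Fin n) (Fin n) ℂ) : LPM (fun v => f v) := by
  intro i j
  have := LP.linear ((Matrix.entryLinearMap ℂ ℂ i j) ∘ₗ f)
  simpa using this

theorem LPM.trace {f : V → Matrix (Fin n) (Fin n) ℂ} (hf : LPM f) :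
    LP (fun v => (f v).trace) := by
  simp only [Matrix.trace, Matrix.diag_apply]
  exact LP.sum _ (fun i _ => hf i i)

theorem LPM.det {f : V → Matrix (Fin n) (Fin n) ℂ} (hf : LPM f) :
    LP (fun v => (f v).det) := by
  simp only [Matrix.det_apply']
  exact LP.sum _ (fun σ _ => (LP.const _).mul (LP.prod _ (fun i _ => hf _ _)))

end Pool.Agent.H278R3.LPoly
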