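import Mathlib
import Pool.Agent.H278R3.LPoly

set_option autoImplicit false
open Polynomial

namespace Pool.Agent.H278R3.SpecDisc

open LPoly

variable {n : ℕ}

/-- abbreviation for complex n by n matrices -/
abbrev Mat (n : ℕ) := Matrix (Fin n) (Fin n) ℂ

/-- Hankel discriminant -/
noncomputable def D (M : Mat n) : ℂ :=
  (Matrix.of (fun i j : Fin n => (M ^ (i.val + j.val)).trace)).det

theorem D_lp {V : Type*} [AddCommGroup V] [Module ℂ V] {f : V → Mat n} (hf : LPM f) :
    LP (fun v => D (f v)) := by
  unfold D
  apply LPM.det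
  intro i j
  exact (hf.pow (i.val + j.val)).trace

/-- D nonzero gives n distinct eigenvalues -/
theorem exists_eigs {M : Mat n} (hD : D M ≠ 0) :
    ∃ d : Fin n → ℂ, Function.Injective d ∧ (∀ i, d i ∈ spectrum ℂ M) := by
  classical
  set s : Finset ℂ := M.charpoly.roots.toFinset with hs
  have hmem : ∀ x, x ∈ s ↔ x ∈ spectrum ℂ M := by
    intro x
    rw [hs, Multiset.mem_toFinset, mem_roots M.charpoly_monic.ne_zero,
      Matrix.mem_spectrum_iff_isRoot_charpoly]
  by_cases hcard : n ≤ s.card
  · obtain ⟨t, hts, htc⟩ := Finset.exists_subset_card_eq hcard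
    let e : Fin n ≃ t := (Finset.equivFinOfCardEq htc).symm
    refine ⟨fun i => (e i : ℂ), ?_, fun i => (hmem _).1 (hts (e i).2)⟩
    intro i j hij
    exact e.injective (Subtype.ext hij)
  · exfalso
    push Not at hcard
    apply hD
    set q : ℂ[X] := ∏ μ ∈ s, (X - C μ) with hq
    have hqdeg : q.natDegree = s.card := by
      rw [hq, natDegree_prod_of_monic _ _ (fun μ _ => monic_X_sub_C μ)]
      simp
    have hqm : q.Monic := monic_prod_of_monic _ _ (fun μ _ => monic_X_sub_C μ)
    -- charpoly divides q ^ n
    have hdvd : M.charpoly ∣ q ^ n := by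
      have h1 : M.charpoly = (M.charpoly.roots.map (fun a => X - C a)).prod :=
        ((IsAlgClosed.splits M.charpoly).eq_prod_roots_of_monic M.charpoly_monic)
      have h2 : ∀ m : Multiset ℂ, (∀ a ∈ m, a ∈ s) → (m.map (fun a => X - C a)).prod ∣ q ^ m.card := by
        intro m
        induction m using Multiset.induction_on with
        | empty => intro _; simp
        | cons a m ih =>
          intro hm
          rw [Multiset.map_cons, Multiset.prod_cons, Multiset.card_cons, pow_succ, mul_comm]
          refine mul_dvd_mul (ih (fun b hb => hm b (Multiset.mem_cons_of_mem hb))) ?_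
          exact Finset.dvd_prod_of_mem _ (hm a (Multiset.mem_cons_self a m))
      have h3 : M.charpoly.roots.card = n := by
        rw [← (IsAlgClosed.splits M.charpoly).natDegree_eq_card_roots, Matrix.charpoly_natDegree_eq_dim]
        simp
      have h4 := h2 M.charpoly.roots (fun a ha => by rw [hs, Multiset.mem_toFinset]; exact ha)
      rw [h3] at h4
      rw [h1]
      exact h4
    have hqn : (aeval M q) ^ n = 0 := by
      rw [← map_pow]
      obtain ⟨r, hr⟩ := hdvd
      rw [hr, map_mul, Matrix.aeval_self_charpoly, zero_mul]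
    have hnil : IsNilpotent (aeval M q) := ⟨n, hqn⟩
    have htr : ∀ i : ℕ, (M ^ i * aeval M q).trace = 0 := by
      intro i
      have hc : Commute (M ^ i) (aeval M q) := by
        have : M ^ i = aeval M (X ^ i : ℂ[X]) := by simp
        rw [this]
        show aeval M (X ^ i : ℂ[X]) * aeval M q = aeval M q * aeval M (X ^ i : ℂ[X])
        rw [← map_mul, ← map_mul, mul_comm]
      have h1 : IsNilpotent (M ^ i * aeval M q) := hc.isNilpotent_mul_left hnil
      exact (Matrix.isNilpotent_trace_of_isNilpotent h1).eq_zero
    unfold D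
    refine Matrix.exists_mulVec_eq_zero_iff.1 ⟨fun j => q.coeff j.val, ?_, ?_⟩
    · intro h0
      have h1 : q.coeff s.card = 0 := congrFun h0 ⟨s.card, hcard⟩
      rw [← hqdeg] at h1
      exact one_ne_zero (hqm.coeff_natDegree.symm.trans h1)
    · funext i
      simp only [Matrix.mulVec, dotProduct, Matrix.of_apply, Pi.zero_apply]
      have h1 := htr i.val
      have h2 : aeval M q = ∑ j ∈ Finset.range n, q.coeff j • M ^ j := by
        rw [aeval_eq_sum_range' (by rw [hqdeg]; exact hcard)]
      rw [h2, Finset.mul_sum, Matrix.trace_sum, ← Fin.sum_univ_eq_sum_range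
        (fun j => (M ^ i.val * (q.coeff j • M ^ j)).trace)] at h1
      rw [← h1]
      refine Finset.sum_congr rfl (fun j _ => ?_)
      rw [mul_smul_comm, Matrix.trace_smul, pow_add, smul_eq_mul, mul_comm]

/-- traces of powers of a matrix with n distinct known eigenvalues -/
theorem trace_pow_of_eigs {M : Mat n} {d : Fin n → ℂ} (hinj : Function.Injective d)
    (hd : ∀ i, d i ∈ spectrum ℂ M) (k : ℕ) : (M ^ k).trace = ∑ i, d i ^ k := by
  classical
  have h1 : ∀ i, ∃ v : Fin n → ℂ, v ≠ 0 ∧ M.mulVec v = d i • v := by
    intro i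
    have h2 := (Matrix.mem_spectrum_iff_isRoot_charpoly (A := M)).1 (hd i)
    have h3 : (Matrix.scalar (Fin n) (d i) - M).det = 0 := by
      rw [← Matrix.eval_charpoly]; exact h2
    obtain ⟨v, hv, hv0⟩ := Matrix.exists_mulVec_eq_zero_iff.2 h3
    refine ⟨v, hv, ?_⟩
    rw [Matrix.sub_mulVec] at hv0
    have h4 : (Matrix.scalar (Fin n) (d i)).mulVec v = d i • v := by
      ext j
      simp [Matrix.scalar_apply, Matrix.mulVec_diagonal]
    rw [h4] at hv0
    exact (sub_eq_zero.1 hv0).symm
  choose v hv hMv using h1
  have hli : LinearIndependent ℂ v := by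
    apply Module.End.eigenvectors_linearIndependent' (Matrix.toLin' M) d hinj v
    intro i
    refine ⟨?_, hv i⟩
    rw [Module.End.mem_eigenspace_iff, Matrix.toLin'_apply]
    exact hMv i
  let P : Mat n := Matrix.of (fun a i => v i a)
  have hPu : IsUnit P := by
    rw [← Matrix.linearIndependent_cols_iff_isUnit]
    exact hli
  have hMP : M * P = P * Matrix.diagonal d := by
    ext a i
    rw [Matrix.mul_apply, Matrix.mul_diagonal]
    have := congrFun (hMv i) a
    simp only [Matrix.mulVec, dotProduct, Pi.smul_apply, smul_eq_mul] at this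
    simp only [P, Matrix.of_apply]
    rw [this, mul_comm]
  have hMkP : ∀ k : ℕ, M ^ k * P = P * Matrix.diagonal (fun i => d i ^ k) := by
    intro k
    induction k with
    | zero => simp
    | succ k ih =>
      rw [pow_succ, mul_assoc, hMP, ← mul_assoc, ih, mul_assoc, Matrix.diagonal_mul_diagonal]
      simp [pow_succ]
  obtain ⟨u, hu⟩ := hPu
  have h5 : M ^ k = P * Matrix.diagonal (fun i => d i ^ k) * (↑u⁻¹ : Mat n) := by
    rw [← hMkP k, ← hu, mul_assoc, Units.mul_inv, mul_one]
  rw [h5, Matrix.trace_mul_comm, ← mul_assoc, ← hu, Units.inv_mul, one_mul, Matrix.trace_diagonal]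

theorem trace_pow_eq {K K' : Mat n} (hD : D K ≠ 0) (h : spectrum ℂ K = spectrum ℂ K') (k : ℕ) :
    (K ^ k).trace = (K' ^ k).trace := by
  obtain ⟨d, hinj, hd⟩ := exists_eigs hD
  rw [trace_pow_of_eigs hinj hd, trace_pow_of_eigs hinj (fun i => h ▸ hd i)]

/-- commutator -/
def br (T S : Mat n) : Mat n := T * S - S * T

/-- the shift matrix and a commutator equal to a prescribed traceless diagonal matrix -/
theorem exists_br_eq_diagonal (d : Fin n → ℂ) (hd : ∑ i, d i = 0) :
    ∃ T S : Mat n, br T S = Matrix.diagonal d := by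
  classical
  let T : Mat n := Matrix.of (fun i j => if i.val + 1 = j.val then 1 else 0)
  let s : ℕ → ℂ := fun k => ∑ i : Fin n, if i.val < k then d i else 0
  let S : Mat n := Matrix.of (fun i j => if j.val + 1 = i.val then s i.val else 0)
  refine ⟨T, S, ?_⟩
  have hs0 : s 0 = 0 := by simp [s]
  have hsn : s n = 0 := by
    simp only [s]
    rw [← hd]
    exact Finset.sum_congr rfl (fun i _ => by simp [i.isLt])
  have hsucc : ∀ i : Fin n, s (i.val + 1) - s i.val = d i := by
    intro i
    simp only [s]
    rw [← Finset.sum_sub_distrib]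
    rw [Finset.sum_eq_single i]
    · simp
    · intro j _ hji
      have : j.val ≠ i.val := fun h => hji (Fin.ext h)
      by_cases h1 : j.val < i.val
      · simp [h1, Nat.lt_succ_of_lt h1]
      · have h2 : ¬ j.val < i.val + 1 := by omega
        simp [h1, h2]
    · simp
  ext i j
  simp only [br, Matrix.sub_apply, Matrix.mul_apply, T, S, Matrix.of_apply, Matrix.diagonal_apply]
  have h1 : ∑ k : Fin n, (if i.val + 1 = k.val then (1:ℂ) else 0) *
      (if j.val + 1 = k.val then s k.val else 0) = if i = j then s (i.val + 1) else 0 := by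
    by_cases hin : i.val + 1 < n
    · rw [Finset.sum_eq_single (⟨i.val + 1, hin⟩ : Fin n)]
      · by_cases hij : i = j
        · subst hij; simp
        · have : ¬ (j.val + 1 = i.val + 1) := fun h => hij (Fin.ext (by omega))
          rw [if_neg this, mul_zero, if_neg hij]
      · intro k _ hk
        have : ¬ (i.val + 1 = k.val) := fun h => hk (Fin.ext h.symm)
        simp [this]
      · simp
    · have hin' : i.val + 1 = n := by have := i.isLt; omega
      rw [Finset.sum_eq_zero]
      · rw [hin', hsn]; simp
      · intro k _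
        have : ¬ (i.val + 1 = k.val) := by have := k.isLt; omega
        simp [this]
  have h2 : ∑ k : Fin n, (if k.val + 1 = i.val then s i.val else 0) *
      (if k.val + 1 = j.val then (1:ℂ) else 0) = if i = j then s i.val else 0 := by
    by_cases hi0 : i.val = 0
    · rw [Finset.sum_eq_zero]
      · rw [hi0, hs0]; simp
      · intro k _
        have : ¬ (k.val + 1 = i.val) := by omega
        simp [this]
    · have hlt : i.val - 1 < n := by have := i.isLt; omega
      rw [Finset.sum_eq_single (⟨i.val - 1, hlt⟩ : Fin n)]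
      · by_cases hij : i = j
        · subst hij
          have : i.val - 1 + 1 = i.val := by omega
          simp [this]
        · have h3 : ¬ (i.val - 1 + 1 = j.val) := fun h => hij (Fin.ext (by omega))
          simp [hij, h3]
      · intro k _ hk
        have : ¬ (k.val + 1 = i.val) := fun h => hk (Fin.ext (by simp; omega))
        simp [this]
      · simp
  rw [h1, h2]
  by_cases hij : i = j
  · subst hij; simp [hsucc]
  · simp [hij]

theorem D_diagonal_ne_zero {d : Fin n → ℂ} (hinj : Function.Injective d) :
    D (Matrix.diagonal d) ≠ 0 := by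
  have h1 : Matrix.of (fun i j : Fin n => ((Matrix.diagonal d : Mat n) ^ (i.val + j.val)).trace)
      = (Matrix.vandermonde d).transpose * Matrix.vandermonde d := by
    ext i j
    rw [Matrix.of_apply, Matrix.diagonal_pow, Matrix.trace_diagonal, Matrix.mul_apply]
    refine Finset.sum_congr rfl (fun k _ => ?_)
    simp [Matrix.vandermonde_apply, pow_add]
  unfold D
  rw [h1, Matrix.det_mul, Matrix.det_transpose]
  have := Matrix.det_vandermonde_ne_zero_iff.2 hinj
  exact mul_ne_zero this this

theorem exists_good : ∃ T S : Mat n, D (br T S) ≠ 0 := by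
  let d : Fin n → ℂ := fun i => (i.val : ℂ) - (∑ j : Fin n, (j.val : ℂ)) / n
  have hinj : Function.Injective d := by
    intro i j hij
    simp only [d, sub_left_inj, Nat.cast_inj] at hij
    exact Fin.ext hij
  have hsum : ∑ i, d i = 0 := by
    simp only [d, Finset.sum_sub_distrib, Finset.sum_const, Finset.card_univ, Fintype.card_fin,
      nsmul_eq_mul]
    rcases Nat.eq_zero_or_pos n with h | h
    · subst h; simp
    · have hn : (n : ℂ) ≠ 0 := by exact_mod_cast h.ne'
      rw [mul_div_cancel₀ _ hn, sub_self]
  obtain ⟨T, S, h⟩ := exists_br_eq_diagonal d hsum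
  exact ⟨T, S, by rw [h]; exact D_diagonal_ne_zero hinj⟩

end Pool.Agent.H278R3.SpecDisc
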