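import Mathlib
import Pool.Agent.H278R3.LPoly
import Pool.Agent.H278R3.SpecDisc

set_option autoImplicit false

namespace Pool.Agent.H278R3.Lin1
open LPoly SpecDisc

variable {n : ℕ}

theorem D_eq_of_trace_pow {K K' : Mat n} (h : ∀ k : ℕ, (K ^ k).trace = (K' ^ k).trace) :
    D K = D K' := by
  unfold D
  congr 1
  ext i j
  exact h _

theorem D_zero (hn : 2 ≤ n) : D (0 : Mat n) = 0 := by
  unfold D
  apply Matrix.det_eq_zero_of_row_eq_zero (⟨1, hn⟩ : Fin n)
  intro j
  simp [Matrix.of_apply]

/-- traceless part -/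
noncomputable def t0 : Mat n →ₗ[ℂ] Mat n where
  toFun T := T - (T.trace / n) • (1 : Mat n)
  map_add' T S := by
    rw [Matrix.trace_add, add_div, add_smul]; abel
  map_smul' z T := by
    rw [Matrix.trace_smul, RingHom.id_apply, smul_sub, smul_smul, smul_eq_mul, mul_div_assoc]

theorem t0_apply (T : Mat n) : t0 T = T - (T.trace / n) • (1 : Mat n) := rfl

theorem trace_t0 (hn : n ≠ 0) (T : Mat n) : (t0 T).trace = 0 := by
  rw [t0_apply, Matrix.trace_sub, Matrix.trace_smul, Matrix.trace_one, Fintype.card_fin, smul_eq_mul,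
    div_mul_cancel₀ _ (by exact_mod_cast hn : (n : ℂ) ≠ 0), sub_self]

theorem t0_one (hn : n ≠ 0) : t0 (1 : Mat n) = 0 := by
  rw [t0_apply, Matrix.trace_one, Fintype.card_fin, div_self (by exact_mod_cast hn : (n : ℂ) ≠ 0),
    one_smul, sub_self]

theorem t0_of_trace {T : Mat n} (h : T.trace = 0) : t0 T = T := by
  rw [t0_apply, h, zero_div, zero_smul, sub_zero]

theorem br_smul_left (z : ℂ) (T S : Mat n) : br (z • T) S = z • br T S := by
  simp [br, smul_sub]

theorem br_smul_right (z : ℂ) (T S : Mat n) : br T (z • S) = z • br T S := by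
  simp [br, smul_sub]

theorem br_add_left (T T' S : Mat n) : br (T + T') S = br T S + br T' S := by
  simp only [br]; noncomm_ring

theorem br_add_right (T S S' : Mat n) : br T (S + S') = br T S + br T S' := by
  simp only [br]; noncomm_ring

theorem br_sub_left (T T' S : Mat n) : br (T - T') S = br T S - br T' S := by
  simp only [br]; noncomm_ring

theorem br_sub_right (T S S' : Mat n) : br T (S - S') = br T S - br T S' := by
  simp only [br]; noncomm_ring

theorem br_one_left (S : Mat n) : br 1 S = 0 := by simp [br]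
theorem br_one_right (S : Mat n) : br S 1 = 0 := by simp [br]
theorem br_neg_left (T S : Mat n) : br (-T) S = - br T S := by simp only [br]; noncomm_ring
theorem br_neg_right (T S : Mat n) : br T (-S) = - br T S := by simp only [br]; noncomm_ring
theorem br_self (T : Mat n) : br T T = 0 := by simp [br]
theorem br_swap (T S : Mat n) : br T S = - br S T := by simp only [br]; noncomm_ring

theorem br_t0_left (T S : Mat n) : br (t0 T) S = br T S := by
  rw [t0_apply, br_sub_left, br_smul_left, br_one_left, smul_zero, sub_zero]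

theorem br_t0_right (T S : Mat n) : br T (t0 S) = br T S := by
  rw [t0_apply, br_sub_right, br_smul_right, br_one_right, smul_zero, sub_zero]

theorem br_t0 (T S : Mat n) : br (t0 T) (t0 S) = br T S := by
  rw [br_t0_left, br_t0_right]

/-- bilinear commutator -/
noncomputable def brL (T : Mat n) : Mat n →ₗ[ℂ] Mat n where
  toFun S := br T S
  map_add' S S' := br_add_right T S S'
  map_smul' z S := br_smul_right z T S

/-- quadratic and cubic trace forms of the commutator -/
noncomputable def q (T S : Mat n) : ℂ := (br T S ^ 2).trace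
noncomputable def c (T S : Mat n) : ℂ := (br T S ^ 3).trace

/-- line polynomiality of brackets -/
theorem LPM_br {V : Type*} [AddCommGroup V] [Module ℂ V] {f g : V → Mat n} (hf : LPM f)
    (hg : LPM g) : LPM (fun v => br (f v) (g v)) := (hf.mul hg).sub (hg.mul hf)

theorem LP_q {V : Type*} [AddCommGroup V] [Module ℂ V] {f g : V → Mat n} (hf : LPM f)
    (hg : LPM g) : LP (fun v => q (f v) (g v)) := ((LPM_br hf hg).pow 2).trace

theorem LP_c {V : Type*} [AddCommGroup V] [Module ℂ V] {f g : V → Mat n} (hf : LPM f)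
    (hg : LPM g) : LP (fun v => c (f v) (g v)) := ((LPM_br hf hg).pow 3).trace

theorem LP_D {V : Type*} [AddCommGroup V] [Module ℂ V] {f g : V → Mat n} (hf : LPM f)
    (hg : LPM g) : LP (fun v => D (br (f v) (g v))) := D_lp (LPM_br hf hg)

theorem LPM_id : LPM (fun T : Mat n => T) := LPM.linear LinearMap.id

/-- index set of entries -/
abbrev I (n : ℕ) := Fin n × Fin n
/-- tensors -/
abbrev Sy (n : ℕ) := I n → I n → ℂ

/-- symmetric square -/
noncomputable def tau2 (S' : Mat n) : Mat n →ₗ[ℂ] Sy n where
  toFun S := fun a b => (t0 S a.1 a.2 * t0 S' b.1 b.2 + t0 S' a.1 a.2 * t0 S b.1 b.2) / 2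
  map_add' S R := by
    funext a b
    simp only [map_add, Matrix.add_apply, Pi.add_apply]; ring
  map_smul' z S := by
    funext a b
    simp only [map_smul, Matrix.smul_apply, Pi.smul_apply, smul_eq_mul, RingHom.id_apply]; ring

noncomputable def tau (S : Mat n) : Sy n := fun a b => t0 S a.1 a.2 * t0 S b.1 b.2

theorem tau2_apply (S S' : Mat n) (a b : I n) : tau2 S' S a b =
    (t0 S a.1 a.2 * t0 S' b.1 b.2 + t0 S' a.1 a.2 * t0 S b.1 b.2) / 2 := rfl

theorem tau_apply (S : Mat n) (a b : I n) : tau S a b = t0 S a.1 a.2 * t0 S b.1 b.2 := rfl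

theorem tau_line (S S' : Mat n) (z : ℂ) :
    tau (S + z • S') = tau S + (2 * z) • tau2 S' S + (z ^ 2) • tau S' := by
  funext a b
  simp only [tau_apply, tau2_apply, map_add, map_smul, Matrix.add_apply, Matrix.smul_apply,
    Pi.add_apply, Pi.smul_apply, smul_eq_mul]
  ring

/-- the functional computing q -/
noncomputable def Phi (T : Mat n) : Sy n →ₗ[ℂ] ℂ where
  toFun Z := ∑ a : I n, ∑ b : I n, Z a b *
    (br T (Matrix.single a.1 a.2 1) * br T (Matrix.single b.1 b.2 1)).trace
  map_add' Z Z' := by
    simp only [Pi.add_apply, add_mul, Finset.sum_add_distrib]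
  map_smul' z Z := by
    simp only [Pi.smul_apply, smul_eq_mul, RingHom.id_apply, Finset.mul_sum, mul_assoc]

theorem brL_eq_sum (T S : Mat n) : br T S = ∑ a : I n, S a.1 a.2 • br T (Matrix.single a.1 a.2 1) := by
  have h1 : S = ∑ a : I n, S a.1 a.2 • (Matrix.single a.1 a.2 (1:ℂ) : Mat n) := by
    rw [Fintype.sum_prod_type]
    conv_lhs => rw [Matrix.matrix_eq_sum_single S]
    refine Finset.sum_congr rfl (fun i _ => Finset.sum_congr rfl (fun j _ => ?_))
    simp
  conv_lhs => rw [h1]
  show brL T _ = _
  rw [map_sum]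
  refine Finset.sum_congr rfl (fun a _ => ?_)
  rw [map_smul]; rfl

theorem Phi_tau (T S : Mat n) : Phi T (tau S) = q T S := by
  unfold q
  rw [← br_t0_right T S, pow_two]
  conv_rhs => rw [brL_eq_sum T (t0 S)]
  rw [Finset.sum_mul_sum, Matrix.trace_sum]
  show ∑ a : I n, ∑ b : I n, _ = _
  refine Finset.sum_congr rfl (fun a _ => ?_)
  rw [Matrix.trace_sum]
  refine Finset.sum_congr rfl (fun b _ => ?_)
  rw [smul_mul_smul_comm, Matrix.trace_smul, smul_eq_mul]
  rfl

theorem eq_zero_of_trace_mul {X : Mat n} (h : ∀ Y : Mat n, (X * Y).trace = 0) : X = 0 := by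
  ext i j
  have := h (Matrix.single j i 1)
  rw [Matrix.trace_mul_comm] at this
  simpa [Matrix.trace_single_mul] using this

theorem q_polar (T T' S : Mat n) :
    q (T + T') S - q T S - q T' S = 2 * (br S (br T S) * T').trace := by
  have h1 : q (T + T') S - q T S - q T' S = (br T S * br T' S).trace + (br T' S * br T S).trace := by
    unfold q
    rw [← Matrix.trace_sub, ← Matrix.trace_sub, ← Matrix.trace_add, br_add_left]
    congr 1
    noncomm_ring
  rw [h1, Matrix.trace_mul_comm (br T' S) (br T S), ← two_mul]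
  congr 1
  have h2 : br T S * br T' S = br T S * T' * S - br T S * S * T' := by
    simp only [br]; noncomm_ring
  rw [h2, Matrix.trace_sub, Matrix.trace_mul_comm (br T S * T') S, ← Matrix.trace_sub]
  congr 1
  simp only [br]; noncomm_ring

/-- nondegeneracy of the family of forms q(T, .) -/
theorem nondeg {ι : Type*} (s : Finset ι) (z : ι → ℂ) (S : ι → Mat n) (hn : n ≠ 0)
    (h : ∀ T : Mat n, ∑ a ∈ s, z a * q T (S a) = 0) : ∑ a ∈ s, z a • tau (S a) = 0 := by
  classical
  have hn' : (n : ℂ) ≠ 0 := by exact_mod_cast hn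
  have h1 : ∀ T T' : Mat n, ((∑ a ∈ s, z a • br (t0 (S a)) (br T (t0 (S a)))) * T').trace = 0 := by
    intro T T'
    have h2 : ∑ a ∈ s, z a * (q (T + T') (S a) - q T (S a) - q T' (S a)) = 0 := by
      simp only [mul_sub, Finset.sum_sub_distrib, h, sub_self]
    rw [Finset.sum_mul, Matrix.trace_sum]
    have h3 : (2 : ℂ) * ∑ a ∈ s, (z a • br (t0 (S a)) (br T (t0 (S a))) * T').trace = 0 := by
      rw [← h2, Finset.mul_sum]
      refine Finset.sum_congr rfl (fun a _ => ?_)
      rw [q_polar, smul_mul_assoc, Matrix.trace_smul, smul_eq_mul, br_t0_left, br_t0_right]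
      ring
    rcases mul_eq_zero.1 h3 with h4 | h4
    · exact absurd h4 two_ne_zero
    · exact h4
  have h2 : ∀ T : Mat n, ∑ a ∈ s, z a • br (t0 (S a)) (br T (t0 (S a))) = 0 := fun T =>
    eq_zero_of_trace_mul (h1 T)
  set W : Mat n := ∑ a ∈ s, z a • (t0 (S a) * t0 (S a)) with hW
  have h3 : ∀ i j k l : Fin n, 2 * ∑ a ∈ s, z a * (t0 (S a) i j * t0 (S a) k l) =
      W i j * (if k = l then 1 else 0) + (if i = j then 1 else 0) * W k l := by
    intro i j k l
    have h4 := congrFun (congrFun (h2 (Matrix.single j k 1)) i) l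
    have h5 : ∀ X : Mat n, br X (br (Matrix.single j k 1) X) i l =
        2 * (X i j * X k l) - (X * X) i j * (if k = l then 1 else 0)
          - (if i = j then 1 else 0) * (X * X) k l := by
      intro X
      have h6 : br X (br (Matrix.single j k 1) X) =
          X * Matrix.single j k 1 * X + X * Matrix.single j k 1 * X - (X * X) * Matrix.single j k 1 -
            Matrix.single j k 1 * (X * X) := by
        simp only [br]; noncomm_ring
      have h7 : (X * Matrix.single j k (1:ℂ) * X) i l = X i j * X k l := by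
        rw [mul_assoc, Matrix.mul_apply, Finset.sum_eq_single j]
        · simp
        · intro b _ hb; rw [Matrix.single_mul_apply_of_ne _ _ _ _ _ hb, mul_zero]
        · simp
      have h8 : (X * X * Matrix.single j k (1:ℂ)) i l = (X * X) i j * (if k = l then 1 else 0) := by
        by_cases hkl : k = l
        · subst hkl; simp
        · rw [Matrix.mul_single_apply_of_ne _ _ _ _ _ (Ne.symm hkl)]; simp [hkl]
      have h9 : (Matrix.single j k (1:ℂ) * (X * X)) i l = (if i = j then 1 else 0) * (X * X) k l := by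
        by_cases hij : i = j
        · subst hij; simp
        · rw [Matrix.single_mul_apply_of_ne _ _ _ _ _ hij]; simp [hij]
      rw [h6, Matrix.sub_apply, Matrix.sub_apply, Matrix.add_apply, h7, h8, h9]
      ring
    rw [Matrix.sum_apply] at h4
    simp only [Matrix.smul_apply, h5, smul_eq_mul, Matrix.zero_apply] at h4
    rw [hW, Matrix.sum_apply, Matrix.sum_apply]
    simp only [Matrix.smul_apply, smul_eq_mul]
    rw [← sub_eq_zero]
    refine Eq.trans ?_ h4
    rw [Finset.mul_sum, Finset.sum_mul, Finset.mul_sum,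
      ← Finset.sum_add_distrib, ← Finset.sum_sub_distrib]
    refine Finset.sum_congr rfl (fun a _ => ?_)
    ring
  have h4 : ∀ i j, (n : ℂ) * W i j + (if i = j then 1 else 0) * W.trace = 0 := by
    intro i j
    have h5 : ∑ k : Fin n, (2 * ∑ a ∈ s, z a * (t0 (S a) i j * t0 (S a) k k)) = 0 := by
      rw [← Finset.mul_sum, Finset.sum_comm]
      rw [Finset.sum_eq_zero, mul_zero]
      intro a _
      rw [← Finset.mul_sum, ← Finset.mul_sum]
      have : ∑ k : Fin n, t0 (S a) k k = (t0 (S a)).trace := rfl
      rw [this, trace_t0 hn, mul_zero, mul_zero]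
    simp only [h3] at h5
    rw [Finset.sum_add_distrib, ← Finset.mul_sum] at h5
    simp only [if_true, Finset.sum_const, Finset.card_univ, Fintype.card_fin, mul_one,
      nsmul_eq_mul, ← Finset.mul_sum] at h5
    simp only [Matrix.trace, Matrix.diag_apply]
    linear_combination h5
  have h5 : W.trace = 0 := by
    have h6 : ∑ i : Fin n, ((n : ℂ) * W i i + (if i = i then 1 else 0) * W.trace) = 0 :=
      Finset.sum_eq_zero (fun i _ => h4 i i)
    simp only [if_true, one_mul, Finset.sum_add_distrib, ← Finset.mul_sum, Finset.sum_const,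
      Finset.card_univ, Fintype.card_fin, nsmul_eq_mul] at h6
    have h7 : ∑ i : Fin n, W i i = W.trace := rfl
    rw [h7, ← two_mul] at h6
    rcases mul_eq_zero.1 h6 with h | h
    · exact absurd h two_ne_zero
    · rcases mul_eq_zero.1 h with h | h
      · exact absurd h hn'
      · exact h
  have h6 : ∀ i j, W i j = 0 := by
    intro i j
    have h7 := h4 i j
    rw [h5, mul_zero, add_zero] at h7
    rcases mul_eq_zero.1 h7 with h | h
    · exact absurd h hn'
    · exact h
  funext a b
  have h7 := h3 a.1 a.2 b.1 b.2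
  rw [h6, h6, zero_mul, mul_zero, add_zero] at h7
  rcases mul_eq_zero.1 h7 with h | h
  · exact absurd h two_ne_zero
  · rw [Finset.sum_apply, Finset.sum_apply]
    simpa [tau_apply] using h

end Pool.Agent.H278R3.Lin1
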