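import Mathlib
import Pool.Agent.H278R3.Lin1

set_option autoImplicit false

namespace Pool.Agent.H278R3.Cls1
open LPoly SpecDisc Lin1

variable {n : ℕ}

/-- adjoint for the trace form -/
noncomputable def adj (F : Mat n →ₗ[ℂ] Mat n) : Mat n →ₗ[ℂ] Mat n where
  toFun X := Matrix.of (fun j i => (X * F (Matrix.single i j 1)).trace)
  map_add' X Y := by
    ext i j
    simp [add_mul, Matrix.trace_add]
  map_smul' z X := by
    ext i j
    simp [Matrix.trace_smul]

theorem adj_apply (F : Mat n →ₗ[ℂ] Mat n) (X S : Mat n) :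
    (adj F X * S).trace = (X * F S).trace := by
  have h1 : S = ∑ i, ∑ j, S i j • (Matrix.single i j (1:ℂ) : Mat n) := by
    conv_lhs => rw [Matrix.matrix_eq_sum_single S]
    refine Finset.sum_congr rfl (fun i _ => Finset.sum_congr rfl (fun j _ => ?_))
    simp
  have h2 : (X * F S).trace = ∑ i, ∑ j, S i j * (X * F (Matrix.single i j 1)).trace := by
    conv_lhs => rw [h1]
    simp only [map_sum, map_smul, Finset.mul_sum, Matrix.trace_sum, mul_smul_comm,
      Matrix.trace_smul, smul_eq_mul]
  rw [h2]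
  simp only [Matrix.trace, Matrix.diag_apply, Matrix.mul_apply]
  rw [Finset.sum_comm]
  refine Finset.sum_congr rfl (fun i _ => Finset.sum_congr rfl (fun j _ => ?_))
  rw [mul_comm]
  rfl

/-- the parametrisation of rank one nilpotents -/
noncomputable def Nil (v : Mat n × (Fin n → ℂ)) : Mat n :=
  Matrix.vecMulVec ((v.1 - v.1.transpose).mulVec v.2) v.2

theorem LP_coord {V : Type*} [AddCommGroup V] [Module ℂ V] (f : V →ₗ[ℂ] (Fin n → ℂ)) (i : Fin n) :
    LP (fun v => f v i) := by
  have := LP.linear ((LinearMap.proj i : (Fin n → ℂ) →ₗ[ℂ] ℂ) ∘ₗ f)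
  exact this

theorem LPM_Nil : LPM (fun v : Mat n × (Fin n → ℂ) => Nil v) := by
  intro i j
  have h1 : LPM (fun v : Mat n × (Fin n → ℂ) => v.1) :=
    LPM.linear (LinearMap.fst ℂ (Mat n) (Fin n → ℂ))
  have h2 : ∀ i, LP (fun v : Mat n × (Fin n → ℂ) => v.2 i) := fun i =>
    LP_coord (LinearMap.snd ℂ (Mat n) (Fin n → ℂ)) i
  have h3 : (fun v : Mat n × (Fin n → ℂ) => Nil v i j) =
      fun v => (∑ k, (v.1 i k - v.1 k i) * v.2 k) * v.2 j := by
    funext v
    simp [Nil, Matrix.vecMulVec_apply, Matrix.mulVec, dotProduct]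
  rw [h3]
  exact (LP.sum _ (fun k _ => ((h1 i k).sub (h1 k i)).mul (h2 k))).mul (h2 j)

theorem LPM_comp {V : Type*} [AddCommGroup V] [Module ℂ V] {f : V → Mat n} (hf : LPM f)
    (F : Mat n →ₗ[ℂ] Mat n) : LPM (fun v => F (f v)) := by
  intro i j
  have h1 : ∀ S : Mat n, F S i j = ∑ a, ∑ b, S a b * F (Matrix.single a b 1) i j := by
    intro S
    have h2 : S = ∑ a, ∑ b, S a b • (Matrix.single a b (1:ℂ) : Mat n) := by
      conv_lhs => rw [Matrix.matrix_eq_sum_single S]
      refine Finset.sum_congr rfl (fun i _ => Finset.sum_congr rfl (fun j _ => ?_))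
      simp
    conv_lhs => rw [h2]
    simp only [map_sum, map_smul, Matrix.sum_apply, Matrix.smul_apply, smul_eq_mul]
  have h3 : (fun v => F (f v) i j) = fun v => ∑ a, ∑ b, f v a b * F (Matrix.single a b 1) i j :=
    funext (fun v => h1 (f v))
  rw [h3]
  exact LP.sum _ (fun a _ => LP.sum _ (fun b _ => (hf a b).mul (LP.const _)))

theorem Nil_dot (K : Mat n) (f : Fin n → ℂ) : f ⬝ᵥ ((K - K.transpose).mulVec f) = 0 := by
  rw [Matrix.sub_mulVec, dotProduct_sub, Matrix.mulVec_transpose, sub_eq_zero,
    Matrix.dotProduct_mulVec, dotProduct_comm]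

/-- every rank one nilpotent is in the parametrised family -/
theorem exists_Nil {x f : Fin n → ℂ} (h : f ⬝ᵥ x = 0) :
    ∃ v : Mat n × (Fin n → ℂ), Matrix.vecMulVec x f = Nil v := by
  by_cases hf : f = 0
  · refine ⟨(0, 0), ?_⟩
    subst hf
    ext i j
    simp [Nil, Matrix.vecMulVec_apply]
  · obtain ⟨j, hj⟩ : ∃ j, f j ≠ 0 := by
      by_contra hcon
      push Not at hcon
      exact hf (funext hcon)
    let g : Fin n → ℂ := Pi.single j (f j)⁻¹
    have hg : g ⬝ᵥ f = 1 := by
      simp [g, single_dotProduct, hj]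
    refine ⟨(Matrix.vecMulVec x g, f), ?_⟩
    have h1 : (Matrix.vecMulVec x g - (Matrix.vecMulVec x g).transpose).mulVec f = x := by
      rw [Matrix.sub_mulVec, Matrix.transpose_vecMulVec]
      ext i
      simp only [Pi.sub_apply, Matrix.mulVec, dotProduct, Matrix.vecMulVec_apply]
      have e1 : ∑ k, x i * g k * f k = x i * (g ⬝ᵥ f) := by
        rw [dotProduct, Finset.mul_sum]
        exact Finset.sum_congr rfl (fun k _ => by ring)
      have e2 : ∑ k, g i * x k * f k = g i * (f ⬝ᵥ x) := by
        rw [dotProduct, Finset.mul_sum]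
        exact Finset.sum_congr rfl (fun k _ => by ring)
      rw [e1, e2, hg, h]; ring
    show _ = Matrix.vecMulVec _ _
    rw [h1]

/-- rank one nilpotents span the traceless matrices -/
theorem span_nil {W : Type*} [AddCommGroup W] [Module ℂ W] (F : Mat n →ₗ[ℂ] W)
    (h : ∀ x f : Fin n → ℂ, f ⬝ᵥ x = 0 → F (Matrix.vecMulVec x f) = 0) :
    ∀ T : Mat n, T.trace = 0 → F T = 0 := by
  classical
  have hoff : ∀ i j : Fin n, i ≠ j → F (Matrix.single i j 1) = 0 := by
    intro i j hij
    have h1 : (Matrix.single i j (1:ℂ) : Mat n) = Matrix.vecMulVec (Pi.single i 1) (Pi.single j 1) := by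
      rw [Matrix.single_eq_single_vecMulVec_single]
    rw [h1]
    apply h
    rw [single_dotProduct]
    simp [hij.symm]
  have hdiag : ∀ i j : Fin n, F (Matrix.single i i 1) = F (Matrix.single j j 1) := by
    intro i j
    by_cases hij : i = j
    · rw [hij]
    have h1 : Matrix.vecMulVec (Pi.single i 1 + Pi.single j 1) (Pi.single i 1 - Pi.single j 1) =
        (Matrix.single i i (1:ℂ) : Mat n) - Matrix.single i j 1 + Matrix.single j i 1
          - Matrix.single j j 1 := by
      rw [Matrix.single_eq_single_vecMulVec_single, Matrix.single_eq_single_vecMulVec_single,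
        Matrix.single_eq_single_vecMulVec_single, Matrix.single_eq_single_vecMulVec_single]
      ext a b
      simp only [Matrix.vecMulVec_apply, Matrix.sub_apply, Matrix.add_apply, Pi.add_apply,
        Pi.sub_apply]
      ring
    have h2 := h (Pi.single i 1 + Pi.single j 1) (Pi.single i 1 - Pi.single j 1) (by
      simp [hij, Ne.symm hij])
    rw [h1, map_sub, map_add, map_sub, hoff i j hij, hoff j i (Ne.symm hij), sub_zero, add_zero,
      sub_eq_zero] at h2
    exact h2
  intro T hT
  have h2 : T = ∑ a, ∑ b, T a b • (Matrix.single a b (1:ℂ) : Mat n) := by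
    conv_lhs => rw [Matrix.matrix_eq_sum_single T]
    refine Finset.sum_congr rfl (fun i _ => Finset.sum_congr rfl (fun j _ => ?_))
    simp
  rw [h2]
  simp only [map_sum, map_smul]
  have h3 : ∀ a, ∑ b, T a b • F (Matrix.single a b 1) = T a a • F (Matrix.single a a 1) := by
    intro a
    rw [Finset.sum_eq_single a]
    · intro b _ hb
      rw [hoff a b (Ne.symm hb), smul_zero]
    · simp
  rw [Finset.sum_congr rfl (fun a _ => h3 a)]
  rcases Nat.eq_zero_or_pos n with hn | hn
  · subst hn; simp
  · let z : Fin n := ⟨0, hn⟩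
    rw [Finset.sum_congr rfl (fun a _ => by rw [hdiag a z]), ← Finset.sum_smul]
    have : ∑ a, T a a = 0 := hT
    rw [this, zero_smul]

theorem nil_cases {F G : Mat n →ₗ[ℂ] Mat n}
    (h : ∀ x f : Fin n → ℂ, f ⬝ᵥ x = 0 →
      F (Matrix.vecMulVec x f) = G (Matrix.vecMulVec x f) ∨
      F (Matrix.vecMulVec x f) = - G (Matrix.vecMulVec x f)) :
    (∀ T : Mat n, T.trace = 0 → F T = G T) ∨ (∀ T : Mat n, T.trace = 0 → F T = - G T) := by
  have h1 : ∀ v : Mat n × (Fin n → ℂ), F (Nil v) = G (Nil v) ∨ F (Nil v) = - G (Nil v) := by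
    intro v
    exact h _ _ (Nil_dot v.1 v.2)
  have hF := LPM_comp (LPM_Nil (n := n)) F
  have hG := LPM_comp (LPM_Nil (n := n)) G
  by_cases hc : ∃ (v : Mat n × (Fin n → ℂ)) (i j : Fin n), F (Nil v) i j - G (Nil v) i j ≠ 0
  · right
    obtain ⟨v, i, j, hv⟩ := hc
    have h2 : ∀ k l, ∀ w : Mat n × (Fin n → ℂ), F (Nil w) k l + G (Nil w) k l = 0 := by
      intro k l
      rcases LP.zero_or_zero ((hF i j).sub (hG i j)) ((hF k l).add (hG k l)) (by
        intro w
        rcases h1 w with h3 | h3
        · simp [h3]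
        · simp [h3]) with h4 | h4
      · exact absurd (h4 v) hv
      · exact h4
    intro T hT
    have h3 := span_nil (F + G) (by
      intro x f hxf
      obtain ⟨w, hw⟩ := exists_Nil hxf
      rw [hw]
      ext k l
      exact h2 k l w) T hT
    rw [LinearMap.add_apply] at h3
    exact eq_neg_of_add_eq_zero_left h3
  · left
    push Not at hc
    intro T hT
    have h3 := span_nil (F - G) (by
      intro x f hxf
      obtain ⟨w, hw⟩ := exists_Nil hxf
      rw [hw]
      ext k l
      exact hc w k l) T hT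
    rw [LinearMap.sub_apply] at h3
    exact sub_eq_zero.1 h3

theorem exists_eigvec (hn : n ≠ 0) (X : Mat n) : ∃ (z : ℂ) (u : Fin n → ℂ), u ≠ 0 ∧
    X.mulVec u = z • u := by
  have h0 : 0 < X.charpoly.degree := by
    rw [Matrix.charpoly_degree_eq_dim, Fintype.card_fin]
    exact_mod_cast Nat.pos_of_ne_zero hn
  obtain ⟨z, hz⟩ := IsAlgClosed.exists_root X.charpoly h0.ne'
  have h3 : (Matrix.scalar (Fin n) z - X).det = 0 := by
    rw [← Matrix.eval_charpoly]; exact hz
  obtain ⟨v, hv, hv0⟩ := Matrix.exists_mulVec_eq_zero_iff.2 h3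
  refine ⟨z, v, hv, ?_⟩
  rw [Matrix.sub_mulVec] at hv0
  have h4 : (Matrix.scalar (Fin n) z).mulVec v = z • v := by
    ext j
    simp [Matrix.scalar_apply, Matrix.mulVec_diagonal]
  rw [h4] at hv0
  exact (sub_eq_zero.1 hv0).symm

/-- Lemma A -/
theorem lemmaA (hn : n ≠ 0) {X Y : Mat n} (hX : X.trace = 0) (hY : Y.trace = 0)
    (h : ∀ R : Mat n, br X (br X R) = (-2 * (Y * R).trace) • Y) :
    X = Y ∨ X = -Y := by
  have hn' : (n : ℂ) ≠ 0 := by exact_mod_cast hn
  obtain ⟨z, u, hu, hXu⟩ := exists_eigvec hn X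
  have h1 : ∀ g : Fin n → ℂ, br X (br X (Matrix.vecMulVec u g)) =
      Matrix.vecMulVec u (((X.transpose - z • (1 : Mat n)) * (X.transpose - z • (1 : Mat n))).mulVec g) := by
    have h2 : ∀ g : Fin n → ℂ, br X (Matrix.vecMulVec u g) =
        Matrix.vecMulVec u (- (X.transpose - z • (1 : Mat n)).mulVec g) := by
      intro g
      have e1 : X * Matrix.vecMulVec u g = Matrix.vecMulVec (X.mulVec u) g := by
        rw [Matrix.mul_vecMulVec]
      have e2 : Matrix.vecMulVec u g * X = Matrix.vecMulVec u (X.transpose.mulVec g) := by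
        rw [Matrix.vecMulVec_mul, Matrix.mulVec_transpose]
      rw [br, e1, e2, hXu, Matrix.sub_mulVec, Matrix.smul_mulVec, Matrix.one_mulVec]
      ext i j
      simp only [Matrix.vecMulVec_apply, Matrix.sub_apply, Pi.smul_apply, Pi.neg_apply,
        Pi.sub_apply, smul_eq_mul]
      ring
    intro g
    rw [h2, h2, ← Matrix.mulVec_mulVec, Matrix.mulVec_neg, neg_neg]
  -- Y u = 0
  have hYu : Y.mulVec u = 0 := by
    by_contra hne
    obtain ⟨i, hi⟩ : ∃ i, (Y.mulVec u) i ≠ 0 := by
      by_contra hcon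
      push Not at hcon
      exact hne (funext hcon)
    have h2 := h (Matrix.vecMulVec u (Pi.single i 1))
    rw [h1] at h2
    have h3 : (Y * Matrix.vecMulVec u (Pi.single i 1)).trace = (Y.mulVec u) i := by
      rw [Matrix.mul_vecMulVec, Matrix.trace_vecMulVec, dotProduct_single, mul_one]
    rw [h3] at h2
    set g := ((X.transpose - z • (1 : Mat n)) * (X.transpose - z • (1 : Mat n))).mulVec (Pi.single i 1) with hg
    have hcoef : (-2 * (Y.mulVec u) i) ≠ 0 := mul_ne_zero (by norm_num) hi
    have h4 : Y = Matrix.vecMulVec u ((-2 * (Y.mulVec u) i)⁻¹ • g) := by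
      rw [Matrix.vecMulVec_smul, h2, smul_smul, inv_mul_cancel₀ hcoef, one_smul]
    have h5 : Y.trace = u ⬝ᵥ ((-2 * (Y.mulVec u) i)⁻¹ • g) := by
      conv_lhs => rw [h4]
      rw [Matrix.trace_vecMulVec]
    rw [hY] at h5
    apply hne
    rw [h4]
    rw [Matrix.vecMulVec_mulVec, dotProduct_comm, ← h5]
    simp
  have h2 : (X.transpose - z • (1 : Mat n)) * (X.transpose - z • (1 : Mat n)) = 0 := by
    have h3 : ∀ g : Fin n → ℂ, ((X.transpose - z • (1 : Mat n)) * (X.transpose - z • (1 : Mat n))).mulVec g = 0 := by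
      intro g
      have h4 := h (Matrix.vecMulVec u g)
      have h5 : (Y * Matrix.vecMulVec u g).trace = 0 := by
        rw [Matrix.mul_vecMulVec, hYu, Matrix.trace_vecMulVec, zero_dotProduct]
      rw [h5, mul_zero, zero_smul, h1] at h4
      obtain ⟨i, hi⟩ : ∃ i, u i ≠ 0 := by
        by_contra hcon
        push Not at hcon
        exact hu (funext hcon)
      ext j
      have h6 := congrFun (congrFun h4 i) j
      rw [Matrix.vecMulVec_apply, Matrix.zero_apply] at h6
      rcases mul_eq_zero.1 h6 with h7 | h7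
      · exact absurd h7 hi
      · exact h7
    ext i j
    have := congrFun (h3 (Pi.single j 1)) i
    simpa using this
  have hz : z = 0 := by
    have h3 : IsNilpotent (X.transpose - z • (1 : Mat n)) := ⟨2, by rw [pow_two]; exact h2⟩
    have h4 := (Matrix.isNilpotent_trace_of_isNilpotent h3).eq_zero
    rw [Matrix.trace_sub, Matrix.trace_transpose, hX, Matrix.trace_smul, Matrix.trace_one,
      Fintype.card_fin, smul_eq_mul, zero_sub, neg_eq_zero] at h4
    rcases mul_eq_zero.1 h4 with h5 | h5
    · exact h5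
    · exact absurd h5 hn'
  rw [hz, zero_smul, sub_zero] at h2
  have hX2 : X * X = 0 := by
    have := congrArg Matrix.transpose h2
    simpa using this
  have hent : ∀ i j k l, X i j * X k l = Y i l * Y k j := by
    intro i j k l
    have h3 := h (Matrix.single j k 1)
    have h4 : br X (br X (Matrix.single j k 1)) = (-2 : ℂ) • (X * Matrix.single j k 1 * X) := by
      have : br X (br X (Matrix.single j k 1)) = X * X * Matrix.single j k 1 +
          Matrix.single j k 1 * (X * X) - (X * Matrix.single j k 1 * X + X * Matrix.single j k 1 * X) := by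
        simp only [br]; noncomm_ring
      rw [this, hX2, zero_mul, mul_zero, add_zero, zero_sub, neg_smul, two_smul]
    have h5 : (Y * Matrix.single j k (1:ℂ)).trace = Y k j := by
      rw [Matrix.trace_mul_comm, Matrix.trace_single_mul]; simp
    rw [h4, h5] at h3
    have h6 := congrFun (congrFun h3 i) l
    have h7 : (X * Matrix.single j k (1:ℂ) * X) i l = X i j * X k l := by
      rw [mul_assoc, Matrix.mul_apply, Finset.sum_eq_single j]
      · simp
      · intro b _ hb; rw [Matrix.single_mul_apply_of_ne _ _ _ _ _ hb, mul_zero]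
      · simp
    rw [Matrix.smul_apply, Matrix.smul_apply, h7, smul_eq_mul, smul_eq_mul] at h6
    linear_combination (-1/2) * h6
  by_cases hX0 : ∃ i j, X i j ≠ 0
  · obtain ⟨i, j, hij⟩ := hX0
    have h3 := hent i j i j
    have key : ∀ s : ℂ, s ^ 2 = 1 → X i j = s * Y i j → ∀ k l, X k l = s * Y k l := by
      intro s hs h0 k l
      have hYij : Y i j ≠ 0 := by
        intro h; rw [h, mul_zero] at h0; exact hij h0
      have hil : X i l = s * Y i l := by
        have h4 := hent i j i l
        have h5 : X i j * (X i l - s * Y i l) = 0 := by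
          linear_combination h4 - s * Y i l * h0 - Y i l * Y i j * hs
        rcases mul_eq_zero.1 h5 with h6 | h6
        · exact absurd h6 hij
        · exact sub_eq_zero.1 h6
      have hkj : X k j = s * Y k j := by
        have h4 := hent i j k j
        have h5 : X i j * (X k j - s * Y k j) = 0 := by
          linear_combination h4 - s * Y k j * h0 - Y i j * Y k j * hs
        rcases mul_eq_zero.1 h5 with h6 | h6
        · exact absurd h6 hij
        · exact sub_eq_zero.1 h6
      have h4 := hent i j k l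
      have h5 := hent i l k j
      rw [hil, hkj] at h5
      have h6 : Y i j * (X k l - s * Y k l) = 0 := by
        linear_combination s * h4 + s * h5 - s * X k l * h0 +
          (- Y i j * X k l - s * Y i l * Y k j) * hs
      rcases mul_eq_zero.1 h6 with h7 | h7
      · exact absurd h7 hYij
      · exact sub_eq_zero.1 h7
    rcases mul_self_eq_mul_self_iff.1 h3 with h4 | h4
    · left
      ext k l
      rw [key 1 (by ring) (by rw [one_mul]; exact h4) k l, one_mul]
    · right
      ext k l
      rw [key (-1) (by ring) (by rw [h4]; ring) k l, Matrix.neg_apply]; ring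
  · push Not at hX0
    left
    ext i j
    have h3 := hent i j i j
    rw [hX0, mul_zero] at h3
    rw [hX0]
    exact (mul_self_eq_zero.1 h3.symm).symm

end Pool.Agent.H278R3.Cls1
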