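import Mathlib
import Pool.Agent.H278R3.Lin1

set_option autoImplicit false

namespace Pool.Agent.H278R3.Lin2
open LPoly SpecDisc Lin1

variable {n : ℕ}

theorem exists_factor {X Y Z : Type*} [AddCommGroup X] [Module ℂ X] [AddCommGroup Y] [Module ℂ Y]
    [AddCommGroup Z] [Module ℂ Z] (f : X →ₗ[ℂ] Y) (g : X →ₗ[ℂ] Z)
    (h : ∀ x, f x = 0 → g x = 0) : ∃ u : Y →ₗ[ℂ] Z, ∀ x, u (f x) = g x := by
  obtain ⟨s, hs⟩ := LinearMap.exists_rightInverse_of_surjective f.rangeRestrict
    (LinearMap.range_eq_top.2 f.surjective_rangeRestrict)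
  obtain ⟨u, hu⟩ := LinearMap.exists_extend (g ∘ₗ s)
  refine ⟨u, fun x => ?_⟩
  have h1 : u (f x) = (u ∘ₗ (LinearMap.range f).subtype) (f.rangeRestrict x) := rfl
  rw [h1, hu]
  have h2 : f.rangeRestrict (s (f.rangeRestrict x)) = f.rangeRestrict x :=
    LinearMap.congr_fun hs (f.rangeRestrict x)
  have h3 : f (s (f.rangeRestrict x) - x) = 0 := by
    rw [map_sub]
    have := congrArg Subtype.val h2
    simpa [sub_eq_zero] using this
  have h4 := h _ h3
  rw [map_sub, sub_eq_zero] at h4
  exact h4

/-- two linear maps with range g in range f and ker g in ker f, finite dimensional target: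
then ker f in ker g -/
theorem ker_le_of_dim {X Y : Type*} [AddCommGroup X] [Module ℂ X] [AddCommGroup Y] [Module ℂ Y]
    [FiniteDimensional ℂ Y] (f g : X →ₗ[ℂ] Y) (hr : LinearMap.range g ≤ LinearMap.range f)
    (hk : ∀ x, g x = 0 → f x = 0) : ∀ x, f x = 0 → g x = 0 := by
  obtain ⟨v, hv⟩ := exists_factor g f hk
  have h1 : LinearMap.range f ≤ (LinearMap.range g).map v := by
    rintro _ ⟨x, rfl⟩
    exact ⟨g x, ⟨x, rfl⟩, hv x⟩
  have h2 : Module.finrank ℂ (LinearMap.range f) ≤ Module.finrank ℂ ((LinearMap.range g).map v) :=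
    Submodule.finrank_mono h1
  have h3 : Module.finrank ℂ ((LinearMap.range g).map v) ≤ Module.finrank ℂ (LinearMap.range g) :=
    Submodule.finrank_map_le v _
  have h4 : Module.finrank ℂ (LinearMap.range g) ≤ Module.finrank ℂ (LinearMap.range f) :=
    Submodule.finrank_mono hr
  have h5 : Module.finrank ℂ ((LinearMap.range g).map v) = Module.finrank ℂ (LinearMap.range g) :=
    le_antisymm h3 (h4.trans h2)
  -- v restricted to range g is injective
  set w : LinearMap.range g →ₗ[ℂ] Y := v ∘ₗ (LinearMap.range g).subtype with hw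
  have h6 : LinearMap.range w = (LinearMap.range g).map v := by
    rw [hw, LinearMap.range_comp, Submodule.range_subtype]
  have h7 := LinearMap.finrank_range_add_finrank_ker w
  rw [h6, h5] at h7
  have h8 : Module.finrank ℂ (LinearMap.ker w) = 0 := by omega
  have h9 : LinearMap.ker w = ⊥ := Submodule.finrank_eq_zero.1 h8
  intro x hx
  have h10 : w ⟨g x, ⟨x, rfl⟩⟩ = 0 := by
    show v (g x) = 0
    rw [hv, hx]
  have h11 : (⟨g x, ⟨x, rfl⟩⟩ : LinearMap.range g) = 0 := by
    rw [← LinearMap.mem_ker, h9] at h10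
    exact (Submodule.mem_bot ℂ).1 h10
  exact congrArg Subtype.val h11

/-- regular matrices -/
def Reg (S : Mat n) : Prop := ∃ T : Mat n, D (br T S) ≠ 0

theorem Reg.left {T S : Mat n} (h : D (br T S) ≠ 0) : Reg T := by
  refine ⟨-S, ?_⟩
  rwa [br_neg_left, ← br_swap]

theorem Reg.right {T S : Mat n} (h : D (br T S) ≠ 0) : Reg S := ⟨T, h⟩

/-- LP genericity of regularity -/
theorem eq_of_reg {f g : Mat n → ℂ} (hf : LP f) (hg : LP g) (h : ∀ S, Reg S → f S = g S) :
    ∀ S, f S = g S := by
  obtain ⟨T, S, hTS⟩ := exists_good (n := n)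
  refine LP.eq_of_generic hf hg (F := fun S => D (br T S)) (LP_D (LPM.const T) LPM_id) ⟨S, hTS⟩ ?_
  intro S hS
  exact h S ⟨T, hS⟩

theorem LP_tau (a b : I n) : LP (fun S : Mat n => tau S a b) := by
  have h := LPM.linear (V := Mat n) t0
  exact (h a.1 a.2).mul (h b.1 b.2)

theorem LP_lin_tau (f : Sy n →ₗ[ℂ] ℂ) : LP (fun S : Mat n => f (tau S)) := by
  classical
  have h1 : ∀ Z : Sy n, f Z = ∑ a : I n, ∑ b : I n, Z a b * f (Pi.single a (Pi.single b 1)) := by
    intro Z
    have h2 : Z = ∑ a : I n, ∑ b : I n, Z a b • (Pi.single a (Pi.single b 1) : Sy n) := by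
      funext a b
      simp only [Finset.sum_apply, Pi.smul_apply, smul_eq_mul]
      rw [Finset.sum_eq_single a, Finset.sum_eq_single b]
      · simp
      · intro b' _ hb; simp [Ne.symm hb]
      · simp
      · intro a' _ ha
        refine Finset.sum_eq_zero (fun b' _ => ?_)
        simp [Ne.symm ha]
      · simp
    conv_lhs => rw [h2]
    simp only [map_sum, map_smul, smul_eq_mul]
  have h3 : (fun S : Mat n => f (tau S)) = fun S : Mat n => ∑ a : I n, ∑ b : I n,
      tau S a b * f (Pi.single a (Pi.single b 1)) := funext (fun S => h1 (tau S))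
  rw [h3]
  exact LP.sum _ (fun a _ => LP.sum _ (fun b _ => (LP_tau a b).mul (LP.const _)))

section main

variable {φ : Mat n → Mat n}

theorem trace_pow_phi (hφ : ∀ T S, spectrum ℂ (br (φ T) (φ S)) = spectrum ℂ (br T S))
    {T S : Mat n} (h : D (br T S) ≠ 0) (k : ℕ) :
    ((br (φ T) (φ S)) ^ k).trace = ((br T S) ^ k).trace :=
  (trace_pow_eq h (hφ T S).symm k).symm

theorem D_phi (hφ : ∀ T S, spectrum ℂ (br (φ T) (φ S)) = spectrum ℂ (br T S))
    {T S : Mat n} (h : D (br T S) ≠ 0) : D (br (φ T) (φ S)) ≠ 0 := by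
  rwa [D_eq_of_trace_pow (trace_pow_phi hφ h)]

/-- existence of the linear map on tensors -/
theorem exists_U (hn : n ≠ 0)
    (hφ : ∀ T S, spectrum ℂ (br (φ T) (φ S)) = spectrum ℂ (br T S)) :
    ∃ U : Sy n →ₗ[ℂ] Sy n, ∀ S, Reg S → U (tau S) = tau (φ S) := by
  classical
  let A : ({S : Mat n // Reg S} →₀ ℂ) →ₗ[ℂ] Sy n :=
    Finsupp.linearCombination ℂ (fun S : {S : Mat n // Reg S} => tau S.1)
  let B : ({S : Mat n // Reg S} →₀ ℂ) →ₗ[ℂ] Sy n :=
    Finsupp.linearCombination ℂ (fun S : {S : Mat n // Reg S} => tau (φ S.1))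
  have hA : ∀ x, A x = ∑ S ∈ x.support, x S • tau S.1 := fun x => rfl
  have hB : ∀ x, B x = ∑ S ∈ x.support, x S • tau (φ S.1) := fun x => rfl
  have hk : ∀ x, B x = 0 → A x = 0 := by
    intro x hx
    rw [hA]
    refine nondeg x.support (fun S => x S) (fun S => S.1) hn ?_
    have h1 : ∀ T : Mat n, (∏ S ∈ x.support, D (br T S.1)) ≠ 0 →
        ∑ S ∈ x.support, x S * q T S.1 = 0 := by
      intro T hT
      rw [Finset.prod_ne_zero_iff] at hT
      have h2 : Phi (φ T) (B x) = 0 := by rw [hx, map_zero]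
      rw [hB, map_sum] at h2
      rw [← h2]
      refine Finset.sum_congr rfl (fun S hS => ?_)
      rw [map_smul, Phi_tau, smul_eq_mul]
      congr 1
      exact (trace_pow_phi hφ (hT S hS) 2).symm
    have h3 : ∃ T : Mat n, (∏ S ∈ x.support, D (br T S.1)) ≠ 0 :=
      LP.exists_ne_prod _ (fun S _ => LP_D LPM_id (LPM.const S.1)) (fun S _ => S.2)
    exact LP.eq_of_generic
      (LP.sum _ (fun S _ => (LP.const _).mul (LP_q LPM_id (LPM.const S.1))))
      (LP.const 0) (LP.prod _ (fun S _ => LP_D LPM_id (LPM.const S.1))) h3 h1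
  have hmem : ∀ R : Mat n, tau R ∈ LinearMap.range A := by
    intro R
    by_contra hR
    obtain ⟨f, hf1, hf2⟩ := Submodule.exists_le_ker_of_notMem hR
    apply hf1
    refine eq_of_reg (LP_lin_tau f) (LP.const 0) ?_ R
    intro S hS
    have h2 : tau S ∈ LinearMap.range A := by
      refine ⟨Finsupp.single ⟨S, hS⟩ 1, ?_⟩
      show Finsupp.linearCombination ℂ _ _ = _
      rw [Finsupp.linearCombination_single, one_smul]
    exact hf2 h2
  have hr : LinearMap.range B ≤ LinearMap.range A := by
    rintro _ ⟨x, rfl⟩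
    rw [hB]
    exact Submodule.sum_mem _ (fun S _ => Submodule.smul_mem _ _ (hmem _))
  have hk2 := ker_le_of_dim A B hr hk
  obtain ⟨U, hU⟩ := exists_factor A B hk2
  refine ⟨U, fun S hS => ?_⟩
  have h1 := hU (Finsupp.single ⟨S, hS⟩ 1)
  have h2 : A (Finsupp.single ⟨S, hS⟩ 1) = tau S := by
    show Finsupp.linearCombination ℂ _ _ = _
    rw [Finsupp.linearCombination_single, one_smul]
  have h3 : B (Finsupp.single ⟨S, hS⟩ 1) = tau (φ S) := by
    show Finsupp.linearCombination ℂ _ _ = _
    rw [Finsupp.linearCombination_single, one_smul]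
  rwa [h2, h3] at h1

end main

/-- the rank one lemma in coordinates -/
theorem rank_one {J : Type*} (a b : J → ℂ) (M : J → J → ℂ) (w : J) (hw : a w ≠ 0)
    (hsym : ∀ x y, M x y = M y x) {c d : J} (hcd : b c * a d - b d * a c ≠ 0)
    (hmin : ∀ (z : ℂ) (x y u v : J),
      (b x * b y + z * M x y + z ^ 2 * (a x * a y)) * (b u * b v + z * M u v + z ^ 2 * (a u * a v)) =
      (b x * b v + z * M x v + z ^ 2 * (a x * a v)) * (b u * b y + z * M u y + z ^ 2 * (a u * a y))) :
    (∀ x, (M w x - M w w * a x / (2 * a w)) / a w = b x) ∨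
    (∀ x, (M w x - M w w * a x / (2 * a w)) / a w = - b x) := by
  have E : ∀ x y u v : J,
      (a x * a y * M u v + M x y * (a u * a v) = a x * a v * M u y + M x v * (a u * a y)) ∧
      (b x * b y * (a u * a v) + M x y * M u v + a x * a y * (b u * b v) =
        b x * b v * (a u * a y) + M x v * M u y + a x * a v * (b u * b y)) ∧
      (b x * b y * M u v + M x y * (b u * b v) = b x * b v * M u y + M x v * (b u * b y)) := by
    intro x y u v
    have h1 := hmin 1 x y u v
    have h2 := hmin (-1) x y u v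
    have h3 := hmin 2 x y u v
    refine ⟨?_, ?_, ?_⟩
    · linear_combination (1/6) * h3 - (1/2) * h1 - (1/6) * h2
    · linear_combination (1/2) * h1 + (1/2) * h2
    · linear_combination h1 - (1/3) * h2 - (1/6) * h3
  set L : J → ℂ := fun x => (M w x - M w w * a x / (2 * a w)) / a w with hL
  have hLx : ∀ x, M w x = a w * L x + a x * L w := by
    intro x
    simp only [hL]
    field_simp
    ring
  have hM : ∀ x y, M x y = a x * L y + a y * L x := by
    intro x y
    have h := (E x y w w).1
    rw [hLx w, hsym x w, hLx x, hLx y] at h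
    have h2 : (M x y - (a x * L y + a y * L x)) * a w ^ 2 = 0 := by linear_combination h
    rcases mul_eq_zero.1 h2 with h3 | h3
    · exact sub_eq_zero.1 h3
    · exact absurd h3 (pow_ne_zero 2 hw)
  have huv : ∀ x y, (a w * b x - a x * b w) * (a w * b y - a y * b w) =
      (a w * L x - a x * L w) * (a w * L y - a y * L w) := by
    intro x y
    have h := (E x y w w).2.1
    rw [hM x y, hM w w, hM x w, hM w y] at h
    linear_combination h
  -- a coordinate where u is nonzero
  have hx0 : ∃ x0, a w * b x0 - a x0 * b w ≠ 0 := by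
    by_contra hcon
    push Not at hcon
    apply hcd
    have h1 := hcon c
    have h2 := hcon d
    have h3 : (b c * a d - b d * a c) * a w = 0 := by linear_combination a d * h1 - a c * h2
    rcases mul_eq_zero.1 h3 with h | h
    · exact h
    · exact absurd h hw
  obtain ⟨x0, hx0⟩ := hx0
  have key : ∀ s : ℂ, s ^ 2 = 1 → (a w * L x0 - a x0 * L w = s * (a w * b x0 - a x0 * b w)) →
      ∀ x, L x = s * b x := by
    intro s hs h0
    have h1 : ∀ y, a w * L y - a y * L w = s * (a w * b y - a y * b w) := by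
      intro y
      have h2 := huv x0 y
      rw [h0] at h2
      have h3 : (a w * b x0 - a x0 * b w) * ((a w * b y - a y * b w) - s * (a w * L y - a y * L w)) = 0 := by
        linear_combination h2
      rcases mul_eq_zero.1 h3 with h | h
      · exact absurd h hx0
      · linear_combination (-s) * h - (a w * L y - a y * L w) * hs
    set lam : ℂ := (L w - s * b w) / a w with hlam
    have h2 : ∀ y, L y = s * b y + lam * a y := by
      intro y
      have h3 := h1 y
      rw [hlam]
      field_simp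
      linear_combination h3
    have h3 := (E c d c d).2.2
    have h4 := (E c c d d).2.2
    have h5 : lam * (b c * a d - b d * a c) ^ 2 = 0 := by
      rw [hM c c, hM d d, hM c d, hM d c, h2 c, h2 d] at h4
      linear_combination (1/2) * h4
    rcases mul_eq_zero.1 h5 with h | h
    · intro x
      rw [h2 x, h, zero_mul, add_zero]
    · exact absurd h (pow_ne_zero 2 hcd)
  have h0 := huv x0 x0
  have h1 : ((a w * L x0 - a x0 * L w) - (a w * b x0 - a x0 * b w)) *
      ((a w * L x0 - a x0 * L w) + (a w * b x0 - a x0 * b w)) = 0 := by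
    linear_combination -h0
  rcases mul_eq_zero.1 h1 with h | h
  · left
    intro x
    have h5 := key 1 (by ring) (by linear_combination h) x
    exact h5.trans (one_mul _)
  · right
    intro x
    have h5 := key (-1) (by ring) (by linear_combination h) x
    exact h5.trans (neg_one_mul _)

end Pool.Agent.H278R3.Lin2
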