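import Mathlib
import Pool.Agent.H278R3.Lin2
import Pool.Agent.H278R3.Cls1

set_option autoImplicit false

namespace Pool.Agent.H278R3.Cls2
open LPoly SpecDisc Lin1 Lin2 Cls1

variable {n : ℕ}

theorem trace_br (T S : Mat n) : (br T S).trace = 0 := by
  rw [br, Matrix.trace_sub, Matrix.trace_mul_comm, sub_self]

theorem nil_br {x f : Fin n → ℂ} (h : f ⬝ᵥ x = 0) (T : Mat n) :
    br (Matrix.vecMulVec x f) (br (Matrix.vecMulVec x f) T) =
      (-2 * (Matrix.vecMulVec x f * T).trace) • Matrix.vecMulVec x f := by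
  set N := Matrix.vecMulVec x f with hN
  have h1 : N * N = 0 := by
    rw [hN, Matrix.vecMulVec_mul_vecMulVec, h]; simp
  have h2 : N * T * N = (N * T).trace • N := by
    rw [hN]
    rw [Matrix.vecMulVec_mul, Matrix.vecMulVec_mul_vecMulVec, Matrix.trace_vecMulVec]
    ext i j
    simp only [Matrix.vecMulVec_apply, Matrix.smul_apply, Pi.smul_apply, smul_eq_mul]
    rw [dotProduct_comm]
    ring
  have h3 : br N (br N T) = N * N * T + T * (N * N) - (N * T * N + N * T * N) := by
    simp only [br]; noncomm_ring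
  rw [h3, h1, h2]
  simp only [zero_mul, mul_zero, add_zero, zero_sub, neg_mul, neg_smul, two_mul, add_smul]

/-- a commutation criterion -/
theorem eq_zero_of_comm (hn : n ≠ 0) {Y : Mat n} (hY : Y.trace = 0) (h : ∀ R : Mat n, br R Y = 0) :
    Y = 0 := by
  have h1 := nondeg (ι := Unit) Finset.univ (fun _ => 1) (fun _ => Y) hn (by
    intro T
    simp [q, h T])
  simp only [Finset.univ_unique, Finset.sum_const, Finset.card_singleton, one_smul] at h1
  ext i j
  have h2 := congrFun (congrFun h1 (i, j)) (i, j)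
  rw [tau_apply, t0_of_trace hY] at h2
  exact mul_self_eq_zero.1 h2

theorem nil_is_br {x f : Fin n → ℂ} (h : f ⬝ᵥ x = 0) :
    ∃ P : Mat n, Matrix.vecMulVec x f = br P (Matrix.vecMulVec x f) := by
  by_cases hx : x = 0
  · refine ⟨0, ?_⟩
    subst hx
    simp [br]
  · obtain ⟨j, hj⟩ : ∃ j, x j ≠ 0 := by
      by_contra hcon
      push Not at hcon
      exact hx (funext hcon)
    let g : Fin n → ℂ := Pi.single j (x j)⁻¹
    have hg : g ⬝ᵥ x = 1 := by
      simp [g, single_dotProduct, hj]
    refine ⟨Matrix.vecMulVec x g, ?_⟩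
    rw [br, Matrix.vecMulVec_mul_vecMulVec, Matrix.vecMulVec_mul_vecMulVec, hg, h]
    simp

section

variable (Lam : Mat n →ₗ[ℂ] Mat n) (hsurj : Function.Surjective Lam)
  (htr : ∀ T, (Lam T).trace = T.trace) (ep : ℂ) (hep : ep * ep = 1)
  (hB : ∀ T : Mat n, T.trace = 0 → ∀ S, (Lam T * Lam S).trace = ep * (T * S).trace)
  (hQ : ∀ T S R, (br (Lam T) (br (Lam T) (Lam S)) * Lam R).trace = (br T (br T S) * R).trace)

include hsurj hep hB hQ in
theorem dbl : ∀ T R, br (Lam T) (br (Lam T) (Lam R)) = ep • Lam (br T (br T R)) := by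
  intro T R
  rw [← sub_eq_zero]
  apply eq_zero_of_trace_mul
  intro Y
  obtain ⟨R', rfl⟩ := hsurj Y
  rw [sub_mul, Matrix.trace_sub, hQ, smul_mul_assoc, Matrix.trace_smul, hB _ (trace_br _ _),
    smul_eq_mul, ← mul_assoc, hep, one_mul, sub_self]

include hsurj hep hB hQ in
theorem triple : ∀ R T T', br (Lam R) (br (Lam T) (Lam T')) = ep • Lam (br R (br T T')) := by
  have h := dbl Lam hsurj ep hep hB hQ
  have hp : ∀ T T' R, br (Lam T) (br (Lam T') (Lam R)) + br (Lam T') (br (Lam T) (Lam R)) =
      ep • Lam (br T (br T' R) + br T' (br T R)) := by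
    intro T T' R
    have h1 := h (T + T') R
    have h2 := h T R
    have h3 := h T' R
    have e1 : br (Lam (T + T')) (br (Lam (T + T')) (Lam R)) =
        br (Lam T) (br (Lam T) (Lam R)) + br (Lam T') (br (Lam T') (Lam R)) +
        (br (Lam T) (br (Lam T') (Lam R)) + br (Lam T') (br (Lam T) (Lam R))) := by
      rw [map_add]; simp only [br]; noncomm_ring
    have e2 : br (T + T') (br (T + T') R) = br T (br T R) + br T' (br T' R) +
        (br T (br T' R) + br T' (br T R)) := by
      simp only [br]; noncomm_ring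
    rw [e1, e2, map_add, map_add, smul_add, smul_add, h2, h3] at h1
    exact add_left_cancel h1
  intro R T T'
  have h1 := hp T R T'
  have h2 := hp T' R T
  have e1 : ∀ A B C : Mat n, (br A (br B C) + br B (br A C)) - (br C (br B A) + br B (br C A)) =
      (3 : ℂ) • br B (br A C) := by
    intro A B C
    have : (3 : ℂ) • br B (br A C) = br B (br A C) + br B (br A C) + br B (br A C) := by
      module
    rw [this]
    simp only [br]; noncomm_ring
  have h3 : (3 : ℂ) • br (Lam R) (br (Lam T) (Lam T')) = (3 : ℂ) • (ep • Lam (br R (br T T'))) := by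
    rw [← e1, h1, h2, ← smul_sub, ← map_sub, e1, map_smul, smul_comm]
  exact smul_right_injective _ (by norm_num : (3 : ℂ) ≠ 0) h3

include hsurj hep hB hQ htr in
theorem exists_mu (hn : n ≠ 0) (hep1 : ep = 1 ∨ ep = -1) :
    ∃ mu : ℂ, mu ^ 2 = ep ∧ ∀ T S, br (Lam T) (Lam S) = mu • Lam (br T S) := by
  classical
  have ht := triple Lam hsurj ep hep hB hQ
  -- the map Gam
  let f : ((Mat n × Mat n) →₀ ℂ) →ₗ[ℂ] Mat n :=
    Finsupp.linearCombination ℂ (fun p : Mat n × Mat n => br p.1 p.2)
  let g : ((Mat n × Mat n) →₀ ℂ) →ₗ[ℂ] Mat n :=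
    Finsupp.linearCombination ℂ (fun p : Mat n × Mat n => br (Lam p.1) (Lam p.2))
  have hf : ∀ x, f x = ∑ p ∈ x.support, x p • br p.1 p.2 := fun x => rfl
  have hg : ∀ x, g x = ∑ p ∈ x.support, x p • br (Lam p.1) (Lam p.2) := fun x => rfl
  have hker : ∀ x, f x = 0 → g x = 0 := by
    intro x hx
    apply eq_zero_of_comm hn
    · rw [hg, Matrix.trace_sum]
      refine Finset.sum_eq_zero (fun p _ => ?_)
      rw [Matrix.trace_smul, trace_br, smul_zero]
    · intro R
      obtain ⟨R', rfl⟩ := hsurj R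
      have h1 : br (Lam R') (g x) = ep • Lam (br R' (f x)) := by
        show brL (Lam R') (g x) = ep • Lam (brL R' (f x))
        rw [hg, hf]
        simp only [map_sum, map_smul, Finset.smul_sum]
        refine Finset.sum_congr rfl (fun p _ => ?_)
        show x p • br (Lam R') (br (Lam p.1) (Lam p.2)) = ep • x p • Lam (br R' (br p.1 p.2))
        rw [ht, smul_comm]
      rw [h1, hx]
      simp [br]
  obtain ⟨Gam, hGam0⟩ := exists_factor f g hker
  have hGam : ∀ T S, Gam (br T S) = br (Lam T) (Lam S) := by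
    intro T S
    have h1 := hGam0 (Finsupp.single (T, S) 1)
    have h2 : f (Finsupp.single (T, S) 1) = br T S := by
      show Finsupp.linearCombination ℂ _ _ = _
      rw [Finsupp.linearCombination_single, one_smul]
    have h3 : g (Finsupp.single (T, S) 1) = br (Lam T) (Lam S) := by
      show Finsupp.linearCombination ℂ _ _ = _
      rw [Finsupp.linearCombination_single, one_smul]
    rwa [h2, h3] at h1
  have hG1 : ∀ R Y : Mat n, Y.trace = 0 → br (Lam R) (Gam Y) = ep • Lam (br R Y) := by
    intro R Y hY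
    have h1 := span_nil ((brL (Lam R)) ∘ₗ Gam - ep • (Lam ∘ₗ brL R)) (by
      intro x f hxf
      obtain ⟨P, hP⟩ := nil_is_br hxf
      show br (Lam R) (Gam (Matrix.vecMulVec x f)) - ep • Lam (br R (Matrix.vecMulVec x f)) = 0
      rw [hP, hGam, ht, sub_self]) Y hY
    exact sub_eq_zero.1 h1
  obtain ⟨de, hde⟩ : ∃ de : ℂ, de ^ 2 = ep := by
    rcases hep1 with h | h
    · exact ⟨1, by rw [h]; ring⟩
    · exact ⟨Complex.I, by rw [h, Complex.I_sq]⟩
  have hcases : (∀ T : Mat n, T.trace = 0 → (ep • Gam) T = (de • Lam) T) ∨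
      (∀ T : Mat n, T.trace = 0 → (ep • Gam) T = - (de • Lam) T) := by
    apply nil_cases
    intro x f hxf
    set N := Matrix.vecMulVec x f with hN
    have htN : N.trace = 0 := by
      rw [hN, Matrix.trace_vecMulVec, dotProduct_comm]; exact hxf
    obtain ⟨P, hP⟩ := nil_is_br hxf
    rw [← hN] at hP
    have hXt : ((ep • Gam) N).trace = 0 := by
      rw [LinearMap.smul_apply, Matrix.trace_smul]
      conv_lhs => rw [hP, hGam]
      rw [trace_br, smul_zero]
    have hZt : ((de • Lam) N).trace = 0 := by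
      rw [LinearMap.smul_apply, Matrix.trace_smul, htr, htN, smul_zero]
    apply lemmaA hn hXt hZt
    intro R
    obtain ⟨R', rfl⟩ := hsurj R
    have h1 : ∀ R, br ((ep • Gam) N) (Lam R) = Lam (br N R) := by
      intro R
      rw [LinearMap.smul_apply, br_smul_left, br_swap, hG1 R N htN, smul_neg, smul_smul, hep,
        one_smul, br_swap R N, map_neg, neg_neg]
    rw [h1, h1, nil_br hxf, map_smul, LinearMap.smul_apply, smul_mul_assoc, Matrix.trace_smul,
      hB N htN, smul_smul]
    congr 1
    rw [smul_eq_mul]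
    have : (-2 * (de * (ep * (N * R').trace)) * de) = -2 * (N * R').trace * (de ^ 2 * ep) := by ring
    rw [this, hde, hep, mul_one]
  rcases hcases with h | h
  · refine ⟨ep * de, by rw [mul_pow, hde, pow_two, hep, one_mul], ?_⟩
    intro T S
    have h1 := h (br T S) (trace_br T S)
    rw [LinearMap.smul_apply, LinearMap.smul_apply, hGam] at h1
    have h2 := congrArg (fun M => ep • M) h1
    simp only [smul_smul, hep, one_smul] at h2
    exact h2
  · refine ⟨-(ep * de), by rw [neg_sq, mul_pow, hde, pow_two, hep, one_mul], ?_⟩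
    intro T S
    have h1 := h (br T S) (trace_br T S)
    rw [LinearMap.smul_apply, LinearMap.smul_apply, hGam] at h1
    have h2 := congrArg (fun M => ep • M) h1
    simp only [smul_neg, smul_smul, hep, one_smul] at h2
    rw [h2, neg_smul]

end

end Pool.Agent.H278R3.Cls2
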