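import Mathlib
import Pool.Agent.H278R3.Cls2

set_option autoImplicit false
open Polynomial

namespace Pool.Agent.H278R3.Ext
open LPoly SpecDisc Lin1 Lin2 Cls1 Cls2

variable {n : ℕ}

/-- charpoly root sets and divisibility -/
theorem dvd_of_subset {M M' : Mat n} (h : spectrum ℂ M ⊆ spectrum ℂ M') :
    M.charpoly ∣ M'.charpoly ^ n := by
  have h1 : M.charpoly = (M.charpoly.roots.map (fun a => X - C a)).prod :=
    ((IsAlgClosed.splits M.charpoly).eq_prod_roots_of_monic M.charpoly_monic)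
  have h2 : ∀ m : Multiset ℂ, (∀ a ∈ m, a ∈ spectrum ℂ M') →
      (m.map (fun a => X - C a)).prod ∣ M'.charpoly ^ m.card := by
    intro m
    induction m using Multiset.induction_on with
    | empty => intro _; simp
    | cons a m ih =>
      intro hm
      rw [Multiset.map_cons, Multiset.prod_cons, Multiset.card_cons, pow_succ, mul_comm]
      refine mul_dvd_mul (ih (fun b hb => hm b (Multiset.mem_cons_of_mem hb))) ?_
      rw [dvd_iff_isRoot]
      exact (Matrix.mem_spectrum_iff_isRoot_charpoly).1 (hm a (Multiset.mem_cons_self a m))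
  have h3 : M.charpoly.roots.card = n := by
    rw [← (IsAlgClosed.splits M.charpoly).natDegree_eq_card_roots, Matrix.charpoly_natDegree_eq_dim]
    simp
  have h4 := h2 M.charpoly.roots (fun a ha => by
    apply h
    rw [Matrix.mem_spectrum_iff_isRoot_charpoly]
    exact (mem_roots M.charpoly_monic.ne_zero).1 ha)
  rw [h3] at h4
  rw [h1]
  exact h4

theorem subset_of_dvd {M M' : Mat n} (h : M.charpoly ∣ M'.charpoly ^ n) :
    spectrum ℂ M ⊆ spectrum ℂ M' := by
  intro a ha
  rw [Matrix.mem_spectrum_iff_isRoot_charpoly] at ha ⊢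
  have h1 := ha.dvd h
  rw [IsRoot.def, eval_pow] at h1
  by_contra hne
  exact pow_ne_zero n hne h1

/-- extension along lines -/
theorem ext_line (K0 K1 L0 L1 : Mat n)
    (hinf : {z : ℂ | spectrum ℂ (K0 + z • K1) ⊆ spectrum ℂ (L0 + z • L1)}.Infinite) :
    ∀ z : ℂ, spectrum ℂ (K0 + z • K1) ⊆ spectrum ℂ (L0 + z • L1) := by
  classical
  let A : Matrix (Fin n) (Fin n) ℂ[X] := Matrix.of (fun i j => C (K0 i j) + X * C (K1 i j))
  let B : Matrix (Fin n) (Fin n) ℂ[X] := Matrix.of (fun i j => C (L0 i j) + X * C (L1 i j))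
  have hA : ∀ z : ℂ, A.charpoly.map (evalRingHom z) = (K0 + z • K1).charpoly := by
    intro z
    rw [← Matrix.charpoly_map]
    congr 1
    ext i j
    simp [A]
    ring
  have hB : ∀ z : ℂ, B.charpoly.map (evalRingHom z) = (L0 + z • L1).charpoly := by
    intro z
    rw [← Matrix.charpoly_map]
    congr 1
    ext i j
    simp [B]
    ring
  set r := (B.charpoly ^ n) %ₘ A.charpoly with hr
  have hAm : A.charpoly.Monic := A.charpoly_monic
  have h1 : ∀ z : ℂ, spectrum ℂ (K0 + z • K1) ⊆ spectrum ℂ (L0 + z • L1) →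
      r.map (evalRingHom z) = 0 := by
    intro z hz
    rw [hr, Polynomial.map_modByMonic _ hAm, Polynomial.map_pow, hA, hB,
      (modByMonic_eq_zero_iff_dvd (Matrix.charpoly_monic _))]
    exact dvd_of_subset hz
  have h2 : r = 0 := by
    ext1 k
    rw [coeff_zero]
    apply eq_zero_of_infinite_isRoot
    refine hinf.mono ?_
    intro z hz
    have h3 := congrArg (fun p => p.coeff k) (h1 z hz)
    simpa using h3
  have h3 : A.charpoly ∣ B.charpoly ^ n := (modByMonic_eq_zero_iff_dvd hAm).1 h2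
  intro z
  apply subset_of_dvd
  rw [← hA, ← hB, ← Polynomial.map_pow]
  exact Polynomial.map_dvd _ h3

theorem ext_line_eq (K0 K1 L0 L1 : Mat n)
    (hinf : {z : ℂ | spectrum ℂ (K0 + z • K1) = spectrum ℂ (L0 + z • L1)}.Infinite) :
    ∀ z : ℂ, spectrum ℂ (K0 + z • K1) = spectrum ℂ (L0 + z • L1) := by
  intro z
  apply subset_antisymm
  · exact ext_line K0 K1 L0 L1 (hinf.mono (fun w hw => Eq.subset hw)) z
  · exact ext_line L0 L1 K0 K1 (hinf.mono (fun w hw => Eq.subset (Eq.symm hw))) z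

theorem mem_spec_iff (M : Mat n) (z : ℂ) :
    z ∈ spectrum ℂ M ↔ ∃ v : Fin n → ℂ, v ≠ 0 ∧ M.mulVec v = z • v := by
  rw [Matrix.mem_spectrum_iff_isRoot_charpoly, IsRoot.def, Matrix.eval_charpoly,
    ← Matrix.exists_mulVec_eq_zero_iff]
  have h4 : ∀ v : Fin n → ℂ, (Matrix.scalar (Fin n) z).mulVec v = z • v := by
    intro v
    ext j
    simp [Matrix.scalar_apply, Matrix.mulVec_diagonal]
  constructor
  · rintro ⟨v, hv, h⟩
    refine ⟨v, hv, ?_⟩
    rw [Matrix.sub_mulVec, h4] at h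
    exact (sub_eq_zero.1 h).symm
  · rintro ⟨v, hv, h⟩
    refine ⟨v, hv, ?_⟩
    rw [Matrix.sub_mulVec, h4, h, sub_self]

theorem mem_spec_neg (M : Mat n) (z : ℂ) : z ∈ spectrum ℂ (-M) ↔ -z ∈ spectrum ℂ M := by
  rw [mem_spec_iff, mem_spec_iff]
  constructor
  · rintro ⟨v, hv, h⟩
    refine ⟨v, hv, ?_⟩
    rw [Matrix.neg_mulVec] at h
    rw [neg_smul, ← h, neg_neg]
  · rintro ⟨v, hv, h⟩
    refine ⟨v, hv, ?_⟩
    rw [Matrix.neg_mulVec, h, neg_smul, neg_neg]

/-- the line through a regular point consists of good points, up to finitely many -/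
theorem good_line {T1 S1 : Mat n} (h : D (br T1 S1) ≠ 0) (S : Mat n) :
    {z : ℂ | D (br T1 (S + z • (S1 - S))) = 0}.Finite := by
  obtain ⟨p, hp⟩ := (LP_D (LPM.const T1) LPM_id) S (S1 - S)
  have hp0 : p ≠ 0 := by
    rintro rfl
    have h1 := hp 1
    simp only [one_smul, add_sub_cancel, eval_zero] at h1
    exact h h1
  have : {z : ℂ | D (br T1 (S + z • (S1 - S))) = 0} = {z | p.IsRoot z} := by
    ext z
    simp only [Set.mem_ofPred_eq, hp, IsRoot.def]
  rw [this]
  exact finite_setOfPred_isRoot hp0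

theorem br_line (T S S1 : Mat n) (z : ℂ) :
    br T (S + z • (S1 - S)) = br T S + z • br T (S1 - S) := by
  rw [br_add_right, br_smul_right]

/-- for every T the image has the same test spectra up to sign -/
theorem spec_pm {T R : Mat n}
    (h : ∀ S, Reg S → spectrum ℂ (br T S) = spectrum ℂ (br R S) ∨
      spectrum ℂ (br T S) = spectrum ℂ (- br R S)) (S : Mat n) :
    spectrum ℂ (br T S) = spectrum ℂ (br R S) ∨ spectrum ℂ (br T S) = spectrum ℂ (- br R S) := by
  obtain ⟨T1, S1, hTS⟩ := exists_good (n := n)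
  have hfin := good_line hTS S
  have hinf : ({z : ℂ | D (br T1 (S + z • (S1 - S))) = 0}ᶜ).Infinite := hfin.infinite_compl
  have hsub : {z : ℂ | D (br T1 (S + z • (S1 - S))) = 0}ᶜ ⊆
      {z : ℂ | spectrum ℂ (br T S + z • br T (S1 - S)) = spectrum ℂ (br R S + z • br R (S1 - S))} ∪
      {z : ℂ | spectrum ℂ (br T S + z • br T (S1 - S)) =
        spectrum ℂ (-br R S + z • (-br R (S1 - S)))} := by
    intro z hz
    have h1 := h (S + z • (S1 - S)) ⟨T1, hz⟩
    rw [br_line, br_line] at h1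
    rcases h1 with h2 | h2
    · left; exact h2
    · right
      show _ = _
      rw [h2, smul_neg, neg_add]
  have hinf2 := hinf.mono hsub
  rcases Set.infinite_union.1 hinf2 with h3 | h3
  · left
    have := ext_line_eq _ _ _ _ h3 0
    simpa using this
  · right
    have := ext_line_eq _ _ _ _ h3 0
    simpa using this

theorem br_nil_mulVec (T : Mat n) (x f v : Fin n → ℂ) :
    (br T (Matrix.vecMulVec x f)).mulVec v =
      (f ⬝ᵥ v) • T.mulVec x - (f ⬝ᵥ T.mulVec v) • x := by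
  rw [br, Matrix.sub_mulVec, ← Matrix.mulVec_mulVec, ← Matrix.mulVec_mulVec]
  have h1 : ∀ w : Fin n → ℂ, (Matrix.vecMulVec x f).mulVec w = (f ⬝ᵥ w) • x := by
    intro w
    ext i
    simp only [Matrix.mulVec, dotProduct, Matrix.vecMulVec_apply, Pi.smul_apply, smul_eq_mul]
    rw [Finset.sum_mul]
    exact Finset.sum_congr rfl (fun j _ => by ring)
  rw [h1, h1, Matrix.mulVec_smul]

theorem test_mem {T : Mat n} {x f : Fin n → ℂ} (h : f ⬝ᵥ x = 0) (hx : x ≠ 0) :
    -(f ⬝ᵥ T.mulVec x) ∈ spectrum ℂ (br T (Matrix.vecMulVec x f)) := by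
  rw [mem_spec_iff]
  refine ⟨x, hx, ?_⟩
  rw [br_nil_mulVec, h, zero_smul, zero_sub, neg_smul]

theorem test_sq {T : Mat n} {x f : Fin n → ℂ} (h : f ⬝ᵥ x = 0) {z : ℂ} (hz : z ≠ 0)
    (hm : z ∈ spectrum ℂ (br T (Matrix.vecMulVec x f))) : z ^ 2 = (f ⬝ᵥ T.mulVec x) ^ 2 := by
  rw [mem_spec_iff] at hm
  obtain ⟨v, hv, h1⟩ := hm
  rw [br_nil_mulVec] at h1
  have h2 : (f ⬝ᵥ v) * (f ⬝ᵥ T.mulVec x) = z * (f ⬝ᵥ v) := by
    have := congrArg (fun w => f ⬝ᵥ w) h1
    simp only [dotProduct_sub, dotProduct_smul, h, smul_eq_mul, mul_zero, sub_zero] at this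
    exact this
  by_cases hfv : f ⬝ᵥ v = 0
  · rw [hfv, zero_smul, zero_sub] at h1
    have h3 : v = (-(f ⬝ᵥ T.mulVec v) / z) • x := by
      have : z • v = (-(f ⬝ᵥ T.mulVec v)) • x := by rw [← h1, neg_smul]
      rw [div_eq_inv_mul, ← smul_smul, ← this, smul_smul, inv_mul_cancel₀ hz, one_smul]
    have h4 : f ⬝ᵥ T.mulVec v = (-(f ⬝ᵥ T.mulVec v) / z) * (f ⬝ᵥ T.mulVec x) := by
      conv_lhs => rw [h3]
      rw [Matrix.mulVec_smul, dotProduct_smul, smul_eq_mul]
    have h5 : f ⬝ᵥ T.mulVec v ≠ 0 := by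
      intro h0
      rw [h0] at h3
      apply hv
      rw [h3]; simp
    have h6 : z = - (f ⬝ᵥ T.mulVec x) := by
      field_simp at h4
      have h7 : (f ⬝ᵥ T.mulVec v) * (z + f ⬝ᵥ T.mulVec x) = 0 := by linear_combination (f ⬝ᵥ T.mulVec v) * h4
      rcases mul_eq_zero.1 h7 with h8 | h8
      · exact absurd h8 h5
      · linear_combination h8
    rw [h6]; ring
  · have h3 : z = f ⬝ᵥ T.mulVec x := by
      have : (f ⬝ᵥ v) * (z - f ⬝ᵥ T.mulVec x) = 0 := by linear_combination -h2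
      rcases mul_eq_zero.1 this with h8 | h8
      · exact absurd h8 hfv
      · exact sub_eq_zero.1 h8
    rw [h3]

theorem test_eq {T R : Mat n} {x f : Fin n → ℂ} (h : f ⬝ᵥ x = 0)
    (hs : spectrum ℂ (br T (Matrix.vecMulVec x f)) = spectrum ℂ (br R (Matrix.vecMulVec x f)) ∨
      spectrum ℂ (br T (Matrix.vecMulVec x f)) = spectrum ℂ (- br R (Matrix.vecMulVec x f))) :
    (f ⬝ᵥ T.mulVec x) ^ 2 = (f ⬝ᵥ R.mulVec x) ^ 2 := by
  by_cases hx : x = 0
  · subst hx; simp
  by_cases h1 : f ⬝ᵥ T.mulVec x = 0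
  · by_cases h2 : f ⬝ᵥ R.mulVec x = 0
    · rw [h1, h2]
    · -- use the spectrum of R
      have h3 := test_mem (T := R) h hx
      rcases hs with h4 | h4
      · rw [← h4] at h3
        have := test_sq h (neg_ne_zero.2 h2) h3
        rw [← this]; ring
      · have h5 : (f ⬝ᵥ R.mulVec x) ∈ spectrum ℂ (br T (Matrix.vecMulVec x f)) := by
          rw [h4, mem_spec_neg]; exact h3
        exact (test_sq h h2 h5).symm
  · have h3 := test_mem (T := T) h hx
    rcases hs with h4 | h4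
    · rw [h4] at h3
      have := test_sq h (neg_ne_zero.2 h1) h3
      rw [← this]; ring
    · rw [h4, mem_spec_neg, neg_neg] at h3
      exact test_sq h h1 h3

/-- identification of the image up to sign and scalars -/
theorem ident (hn : n ≠ 0) {T R : Mat n}
    (h : ∀ S, Reg S → spectrum ℂ (br T S) = spectrum ℂ (br R S) ∨
      spectrum ℂ (br T S) = spectrum ℂ (- br R S)) :
    ∃ s eta : ℂ, (s = 1 ∨ s = -1) ∧ R = s • T + eta • (1 : Mat n) := by
  have h0 := spec_pm h
  let F : Mat n → (Mat n →ₗ[ℂ] Mat n) := fun R =>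
    ((Matrix.traceLinearMap (Fin n) ℂ ℂ) ∘ₗ (LinearMap.mulLeft ℂ R)).smulRight (1 : Mat n)
  have hF : ∀ R M : Mat n, F R M = ((R * M).trace) • (1 : Mat n) := fun R M => rfl
  have hcases : (∀ M : Mat n, M.trace = 0 → F R M = F T M) ∨
      (∀ M : Mat n, M.trace = 0 → F R M = - F T M) := by
    apply nil_cases
    intro x f hxf
    have h1 := test_eq hxf (h0 (Matrix.vecMulVec x f))
    have h2 : ∀ A : Mat n, (A * Matrix.vecMulVec x f).trace = f ⬝ᵥ A.mulVec x := by
      intro A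
      rw [Matrix.mul_vecMulVec, Matrix.trace_vecMulVec, dotProduct_comm]
    rw [hF, hF, h2, h2, ← neg_smul]
    rcases sq_eq_sq_iff_eq_or_eq_neg.1 h1.symm with h3 | h3
    · left; rw [h3]
    · right; rw [h3]
  have hone : (1 : Mat n) ≠ 0 := by
    intro h
    have := congrFun (congrFun h ⟨0, Nat.pos_of_ne_zero hn⟩) ⟨0, Nat.pos_of_ne_zero hn⟩
    simp at this
  have hsc : ∀ A : Mat n, (∀ M : Mat n, M.trace = 0 → (A * M).trace = 0) →
      A = (A.trace / n) • (1 : Mat n) := by
    intro A hA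
    have h1 : t0 A = 0 := by
      apply eq_zero_of_trace_mul
      intro Y
      have e1 : (t0 A * Y).trace = (A * t0 Y).trace := by
        rw [t0_apply, t0_apply, sub_mul, mul_sub, Matrix.trace_sub, Matrix.trace_sub,
          smul_mul_assoc, mul_smul_comm, one_mul, mul_one, Matrix.trace_smul, Matrix.trace_smul,
          smul_eq_mul, smul_eq_mul]
        ring
      rw [e1, hA _ (trace_t0 hn Y)]
    rw [t0_apply] at h1
    exact sub_eq_zero.1 h1
  rcases hcases with h1 | h1
  · have h2 := hsc (R - T) (by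
      intro M hM
      have h3 := h1 M hM
      rw [hF, hF] at h3
      have h4 := smul_left_injective ℂ hone h3
      rw [sub_mul, Matrix.trace_sub]
      exact sub_eq_zero.2 h4)
    refine ⟨1, (R - T).trace / n, Or.inl rfl, ?_⟩
    rw [← h2, one_smul]; abel
  · have h2 := hsc (R + T) (by
      intro M hM
      have h3 := h1 M hM
      rw [hF, hF, ← neg_smul] at h3
      have h4 := smul_left_injective ℂ hone h3
      rw [add_mul, Matrix.trace_add, h4]; ring)
    refine ⟨-1, (R + T).trace / n, Or.inr rfl, ?_⟩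
    rw [← h2, neg_one_smul]; abel

end Pool.Agent.H278R3.Ext
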