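import Mathlib
import Pool.Agent.H278R3.Ext

set_option autoImplicit false
open Polynomial

namespace Pool.Agent.H278R3.Asym
open LPoly SpecDisc Lin1 Lin2 Cls1 Cls2 Ext

variable {n : ℕ}

/-- quadratic matrices -/
def Quad (T : Mat n) : Prop := ∃ a b : ℂ, T * T = a • T + b • (1 : Mat n)

theorem exists_cyclic (T : Mat n) (hT : ¬ Quad T) :
    ∃ x : Fin n → ℂ, ∀ a b c : ℂ, a • x + b • T.mulVec x + c • T.mulVec (T.mulVec x) = 0 →
      a = 0 ∧ b = 0 ∧ c = 0 := by
  have hn : n ≠ 0 := by
    rintro rfl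
    exact hT ⟨0, 0, Subsingleton.elim _ _⟩
  obtain ⟨y, hy⟩ := Module.exists_ker_toSpanSingleton_eq_annihilator ℂ[X]
    (Module.AEval' (Matrix.toLin' T))
  obtain ⟨x, rfl⟩ := (Module.AEval'.of (Matrix.toLin' T)).surjective y
  refine ⟨x, fun a b c h => ?_⟩
  set p : ℂ[X] := C a + C b * X + C c * X ^ 2 with hp
  have haev : ∀ w : Fin n → ℂ, (aeval (Matrix.toLin' T) p) w =
      a • w + b • T.mulVec w + c • T.mulVec (T.mulVec w) := by
    intro w
    simp [hp, pow_two, Module.algebraMap_end_apply]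
  have h1 : p • (Module.AEval'.of (Matrix.toLin' T) x) = 0 := by
    have h2 : p • (Module.AEval'.of (Matrix.toLin' T) x) =
        Module.AEval'.of (Matrix.toLin' T) ((aeval (Matrix.toLin' T) p) x) := by
      rfl
    rw [h2, haev, h, map_zero]
  have h2 : p ∈ LinearMap.ker (LinearMap.toSpanSingleton ℂ[X] _
      (Module.AEval'.of (Matrix.toLin' T) x)) := by
    rw [LinearMap.mem_ker, LinearMap.toSpanSingleton_apply, h1]
  rw [hy, Module.mem_annihilator] at h2
  have h3 : ∀ w : Fin n → ℂ, a • w + b • T.mulVec w + c • T.mulVec (T.mulVec w) = 0 := by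
    intro w
    have h4 := h2 (Module.AEval'.of (Matrix.toLin' T) w)
    have h5 : p • (Module.AEval'.of (Matrix.toLin' T) w) =
        Module.AEval'.of (Matrix.toLin' T) ((aeval (Matrix.toLin' T) p) w) := by
      rfl
    rw [h5, haev] at h4
    exact (Module.AEval'.of (Matrix.toLin' T)).map_eq_zero_iff.1 h4
  have h4 : a • (1 : Mat n) + b • T + c • (T * T) = 0 := by
    apply Matrix.toLin'.injective
    apply LinearMap.ext
    intro w
    rw [Matrix.toLin'_apply, Matrix.toLin'_apply, Matrix.add_mulVec, Matrix.add_mulVec,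
      Matrix.smul_mulVec, Matrix.smul_mulVec, Matrix.smul_mulVec, Matrix.one_mulVec,
      ← Matrix.mulVec_mulVec, Matrix.zero_mulVec]
    exact h3 w
  have hc : c = 0 := by
    by_contra hc
    apply hT
    refine ⟨-b / c, -a / c, ?_⟩
    have h5 : c • (T * T) = c • ((-b / c) • T + (-a / c) • (1 : Mat n)) := by
      rw [smul_add, smul_smul, smul_smul, mul_div_cancel₀ _ hc, mul_div_cancel₀ _ hc]
      have h6 : c • (T * T) = -(a • (1 : Mat n) + b • T) := by
        rw [eq_neg_iff_add_eq_zero, add_comm]; exact h4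
      rw [h6]; module
    exact smul_right_injective _ hc h5
  rw [hc, zero_smul, add_zero] at h4
  have hb : b = 0 := by
    by_contra hb
    apply hT
    refine ⟨-a / b, 0, ?_⟩
    have h5 : T = (-a / b) • (1 : Mat n) := by
      have h6 : b • T = b • ((-a / b) • (1 : Mat n)) := by
        rw [smul_smul, mul_div_cancel₀ _ hb]
        have h7 : b • T = -(a • (1 : Mat n)) := by
          rw [eq_neg_iff_add_eq_zero, add_comm]; exact h4
        rw [h7]; module
      exact smul_right_injective _ hb h6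
    have h6 : T * T = (-a / b) • T := by
      conv_lhs => rw [h5]
      rw [smul_mul_assoc, one_mul, ← h5]
    rw [h6, zero_smul, add_zero]
  rw [hb, zero_smul, add_zero] at h4
  have ha : a = 0 := by
    have := congrFun (congrFun h4 ⟨0, Nat.pos_of_ne_zero hn⟩) ⟨0, Nat.pos_of_ne_zero hn⟩
    simpa using this
  exact ⟨ha, hb, hc⟩

theorem exists_dual {x0 x1 x2 : Fin n → ℂ}
    (h : ∀ a b c : ℂ, a • x0 + b • x1 + c • x2 = 0 → a = 0 ∧ b = 0 ∧ c = 0) :
    ∃ p0 p2 : (Fin n → ℂ) →ₗ[ℂ] ℂ, p0 x0 = 1 ∧ p0 x1 = 0 ∧ p0 x2 = 0 ∧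
      p2 x0 = 0 ∧ p2 x1 = 0 ∧ p2 x2 = 1 := by
  let G : (ℂ × ℂ × ℂ) →ₗ[ℂ] (Fin n → ℂ) :=
    { toFun := fun c => c.1 • x0 + c.2.1 • x1 + c.2.2 • x2
      map_add' := by intro c d; simp only [Prod.fst_add, Prod.snd_add]; module
      map_smul' := by
        intro z c
        simp only [Prod.smul_fst, Prod.smul_snd, smul_eq_mul, RingHom.id_apply]; module }
  have hG : ∀ c, G c = c.1 • x0 + c.2.1 • x1 + c.2.2 • x2 := fun c => rfl
  have hinj : LinearMap.ker G = ⊥ := by
    rw [LinearMap.ker_eq_bot']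
    intro c hc
    rw [hG] at hc
    obtain ⟨h1, h2, h3⟩ := h _ _ _ hc
    ext <;> assumption
  obtain ⟨H, hH⟩ := LinearMap.exists_leftInverse_of_injective G hinj
  have hH' : ∀ c, H (G c) = c := fun c => LinearMap.congr_fun hH c
  have e0 : H x0 = (1, 0, 0) := by
    have := hH' (1, 0, 0)
    rwa [hG, one_smul, zero_smul, zero_smul, add_zero, add_zero] at this
  have e1 : H x1 = (0, 1, 0) := by
    have := hH' (0, 1, 0)
    rwa [hG, one_smul, zero_smul, zero_smul, add_zero, zero_add] at this
  have e2 : H x2 = (0, 0, 1) := by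
    have := hH' (0, 0, 1)
    rwa [hG, one_smul, zero_smul, zero_smul, add_zero, zero_add] at this
  refine ⟨LinearMap.fst ℂ ℂ (ℂ × ℂ) ∘ₗ H,
    (LinearMap.snd ℂ ℂ ℂ ∘ₗ LinearMap.snd ℂ ℂ (ℂ × ℂ)) ∘ₗ H, ?_, ?_, ?_, ?_, ?_, ?_⟩ <;>
    simp [e0, e1, e2]

/-- non quadratic matrices have asymmetric commutators -/
theorem exists_asym (T : Mat n) (hT : ¬ Quad T) :
    ∃ S : Mat n, spectrum ℂ (br T S) ≠ spectrum ℂ (- br T S) := by
  classical
  obtain ⟨x, hx⟩ := exists_cyclic T hT
  set x1 := T.mulVec x with hx1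
  set x2 := T.mulVec x1 with hx2
  obtain ⟨p0, p2, h00, h01, h02, h20, h21, h22⟩ := exists_dual hx
  obtain ⟨k, hk⟩ : ∃ k : ℂ, k ∉ ({0, p0 (T.mulVec x2)} : Finset ℂ) :=
    Infinite.exists_notMem_finset _
  simp only [Finset.mem_insert, Finset.mem_singleton, not_or] at hk
  obtain ⟨hk0, hkg⟩ := hk
  set g3 := p0 (T.mulVec x2) with hg3
  set f3 := k * p2 (T.mulVec x2) with hf3
  let S : Mat n := LinearMap.toMatrix' ((k • p2).smulRight x + p0.smulRight x1)
  have hS : ∀ u, S.mulVec u = (k * p2 u) • x + (p0 u) • x1 := by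
    intro u
    show (LinearMap.toMatrix' _).mulVec u = _
    rw [LinearMap.toMatrix'_mulVec]
    simp [smul_smul]
  have hK : ∀ u, (br T S).mulVec u = (k * p2 u) • x1 + (p0 u) • x2 -
      ((k * p2 (T.mulVec u)) • x + (p0 (T.mulVec u)) • x1) := by
    intro u
    rw [br, Matrix.sub_mulVec, ← Matrix.mulVec_mulVec, ← Matrix.mulVec_mulVec, hS, hS,
      Matrix.mulVec_add, Matrix.mulVec_smul, Matrix.mulVec_smul]
  -- action on the basis
  have hKc : ∀ a b c : ℂ, (br T S).mulVec (a • x + b • x1 + c • x2) =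
      (- b * k - c * f3) • x + (c * (k - g3)) • x1 + a • x2 := by
    intro a b c
    rw [hK]
    simp only [Matrix.mulVec_add, Matrix.mulVec_smul, map_add, map_smul, ← hx1, ← hx2, h00, h01, h02,
      h20, h21, h22, smul_eq_mul, mul_one, mul_zero, add_zero, zero_add, ← hg3]
    have : k * (b + c * p2 (T.mulVec x2)) = b * k + c * f3 := by rw [hf3]; ring
    rw [this]
    module
  -- root of the cubic
  have hcub : ∀ (m : ℂ), m ≠ 0 → (∃ v : Fin n → ℂ, v ≠ 0 ∧ (br T S).mulVec v = m • v) →
      m ^ 3 + f3 * m + k * (k - g3) = 0 := by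
    rintro m hm ⟨v, hv, hv1⟩
    -- v is in the span
    obtain ⟨a, b, c, hvabc⟩ : ∃ a b c : ℂ, v = a • x + b • x1 + c • x2 := by
      have h1 : v = m⁻¹ • (br T S).mulVec v := by
        rw [hv1, smul_smul, inv_mul_cancel₀ hm, one_smul]
      rw [hK] at h1
      refine ⟨m⁻¹ * (-(k * p2 (T.mulVec v))), m⁻¹ * (k * p2 v - p0 (T.mulVec v)), m⁻¹ * p0 v, ?_⟩
      conv_lhs => rw [h1]
      module
    rw [hvabc, hKc] at hv1
    have h1 : (- b * k - c * f3 - m * a) • x + (c * (k - g3) - m * b) • x1 + (a - m * c) • x2 = 0 := by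
      have h2 : (- b * k - c * f3 - m * a) • x + (c * (k - g3) - m * b) • x1 + (a - m * c) • x2 =
          ((- b * k - c * f3) • x + (c * (k - g3)) • x1 + a • x2) - m • (a • x + b • x1 + c • x2) := by
        module
      rw [h2, hv1, sub_self]
    obtain ⟨e1, e2, e3⟩ := hx _ _ _ h1
    have hc : c ≠ 0 := by
      intro hc
      rw [hc] at e2 e3
      have ha : a = 0 := by linear_combination e3
      have hb : b = 0 := by
        have : m * b = 0 := by linear_combination -e2
        rcases mul_eq_zero.1 this with h | h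
        · exact absurd h hm
        · exact h
      apply hv
      rw [hvabc, ha, hb, hc]; simp
    have h2 : c * (m ^ 3 + f3 * m + k * (k - g3)) = 0 := by
      linear_combination (-m) * e1 + (k) * e2 - m ^ 2 * e3
    rcases mul_eq_zero.1 h2 with h | h
    · exact absurd h hc
    · exact h
  obtain ⟨m, hm⟩ : ∃ m : ℂ, m ^ 3 + f3 * m + k * (k - g3) = 0 := by
    have hdeg : (X ^ 3 + C f3 * X + C (k * (k - g3)) : ℂ[X]).degree ≠ 0 := by
      have : (X ^ 3 + C f3 * X + C (k * (k - g3)) : ℂ[X]).degree = 3 := by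
        compute_degree!
      rw [this]; norm_num
    obtain ⟨m, hm⟩ := IsAlgClosed.exists_root _ hdeg
    refine ⟨m, ?_⟩
    simpa [IsRoot.def] using hm
  have hkk : k * (k - g3) ≠ 0 := mul_ne_zero hk0 (sub_ne_zero.2 hkg)
  have hm0 : m ≠ 0 := by
    rintro rfl
    apply hkk
    linear_combination hm
  have hmem : m ∈ spectrum ℂ (br T S) := by
    rw [mem_spec_iff]
    refine ⟨m • x + ((k - g3) / m) • x1 + (1 : ℂ) • x2, ?_, ?_⟩
    · intro h0
      have := (hx _ _ _ h0).2.2
      exact one_ne_zero this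
    · rw [hKc]
      have e1 : - ((k - g3) / m) * k - 1 * f3 = m * m := by
        field_simp
        linear_combination -hm
      have e2 : 1 * (k - g3) = m * ((k - g3) / m) := by
        field_simp
      rw [e1, e2, smul_add, smul_add, smul_smul, smul_smul, smul_smul, mul_one]
  refine ⟨S, fun heq => ?_⟩
  rw [heq, mem_spec_neg, mem_spec_iff] at hmem
  have h2 := hcub (-m) (neg_ne_zero.2 hm0) hmem
  apply hkk
  have h3 : (2 : ℂ) * (k * (k - g3)) = 0 := by linear_combination hm + h2
  rcases mul_eq_zero.1 h3 with h | h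
  · exact absurd h two_ne_zero
  · exact h

/-- conjugation invariance -/
theorem spec_conj (A : (Mat n)ˣ) (M : Mat n) :
    spectrum ℂ ((A : Mat n) * M * (↑A⁻¹ : Mat n)) = spectrum ℂ M := by
  exact spectrum.units_conjugate

/-- an anticommuting invertible matrix -/
theorem spec_neg_of_anticomm {U K : Mat n} {w : ℂ} (hw : w ≠ 0) (hU : U * U = w • (1 : Mat n))
    (h : U * K = - (K * U)) : spectrum ℂ K = spectrum ℂ (-K) := by
  have h1 : U * (w⁻¹ • U) = 1 := by
    rw [mul_smul_comm, hU, smul_smul, inv_mul_cancel₀ hw, one_smul]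
  have h2 : (w⁻¹ • U) * U = 1 := by
    rw [smul_mul_assoc, hU, smul_smul, inv_mul_cancel₀ hw, one_smul]
  let V : (Mat n)ˣ := ⟨U, w⁻¹ • U, h1, h2⟩
  have h3 : (V : Mat n) * K * (↑V⁻¹ : Mat n) = -K := by
    show U * K * (w⁻¹ • U) = -K
    rw [h, neg_mul, mul_assoc, h1, mul_one]
  rw [← spec_conj V K, h3]

theorem quad_symm {T : Mat n} (hT : Quad T) (S : Mat n) :
    spectrum ℂ (br T S) = spectrum ℂ (- br T S) := by
  classical
  obtain ⟨a, b, hab⟩ := hT
  set U : Mat n := T - (a / 2) • (1 : Mat n) with hU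
  have hbr : ∀ S, br U S = br T S := by
    intro S
    rw [hU, br_sub_left, br_smul_left, br_one_left, smul_zero, sub_zero]
  set w : ℂ := b + a ^ 2 / 4 with hw
  have hUU : U * U = w • (1 : Mat n) := by
    have : U * U = T * T - a • T + (a ^ 2 / 4) • (1 : Mat n) := by
      rw [hU, sub_mul, mul_sub, mul_sub, smul_mul_smul_comm]
      simp only [mul_smul_comm, mul_one, smul_mul_assoc, one_mul]
      module
    rw [this, hab, hw]; module
  have hanti : ∀ (U : Mat n) (w : ℂ), U * U = w • (1 : Mat n) → ∀ S, U * br U S = - (br U S * U) := by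
    intro U w hUU S
    have e1 : U * br U S = (U * U) * S - U * S * U := by simp only [br]; noncomm_ring
    have e2 : br U S * U = U * S * U - S * (U * U) := by simp only [br]; noncomm_ring
    rw [e1, e2, hUU, smul_mul_assoc, one_mul, mul_smul_comm, mul_one]; abel
  by_cases hw0 : w = 0
  · -- nilpotent case
    rw [hw0, zero_smul] at hUU
    -- projection onto the kernel of U
    let K : Submodule ℂ (Fin n → ℂ) := LinearMap.ker (Matrix.toLin' U)
    obtain ⟨g, hg⟩ := LinearMap.exists_leftInverse_of_injective K.subtype (Submodule.ker_subtype K)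
    let P : Mat n := LinearMap.toMatrix' (K.subtype ∘ₗ g)
    have hP1 : ∀ v : Fin n → ℂ, U.mulVec v = 0 → P.mulVec v = v := by
      intro v hv
      show (LinearMap.toMatrix' _).mulVec v = v
      rw [LinearMap.toMatrix'_mulVec]
      have hvK : v ∈ K := by
        show v ∈ LinearMap.ker _
        rw [LinearMap.mem_ker, Matrix.toLin'_apply]; exact hv
      have h2 := LinearMap.congr_fun hg ⟨v, hvK⟩
      have h3 := congrArg Subtype.val h2
      exact h3
    have hP2 : ∀ v : Fin n → ℂ, U.mulVec (P.mulVec v) = 0 := by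
      intro v
      show U.mulVec ((LinearMap.toMatrix' _).mulVec v) = 0
      rw [LinearMap.toMatrix'_mulVec]
      have h2 : (g v : Fin n → ℂ) ∈ K := (g v).2
      exact h2
    have hmatext : ∀ A B : Mat n, (∀ v, A.mulVec v = B.mulVec v) → A = B := by
      intro A B h
      apply Matrix.toLin'.injective
      apply LinearMap.ext
      intro v
      rw [Matrix.toLin'_apply, Matrix.toLin'_apply, h]
    have hUP : U * P = 0 := by
      apply hmatext
      intro v
      rw [← Matrix.mulVec_mulVec, hP2, Matrix.zero_mulVec]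
    have hPU : P * U = U := by
      apply hmatext
      intro v
      rw [← Matrix.mulVec_mulVec]
      apply hP1
      rw [Matrix.mulVec_mulVec, hUU, Matrix.zero_mulVec]
    have hPP : P * P = P := by
      apply hmatext
      intro v
      rw [← Matrix.mulVec_mulVec]
      exact hP1 _ (hP2 v)
    set E : Mat n := P + P - 1 with hE
    have hEE : E * E = 1 := by
      have : E * E = (P * P + P * P + (P * P + P * P)) - (P + P) - (P + P) + 1 := by
        rw [hE]; noncomm_ring
      rw [this, hPP]; abel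
    have hUE : U * E + E * U = 0 := by
      have : U * E + E * U = (U * P + U * P) - U + ((P * U + P * U) - U) := by
        rw [hE]; noncomm_ring
      rw [this, hUP, hPU]; abel
    have hsq : ∀ z : ℂ, (U + z • E) * (U + z • E) = (z ^ 2) • (1 : Mat n) := by
      intro z
      have : (U + z • E) * (U + z • E) = U * U + z • (U * E + E * U) + (z ^ 2) • (E * E) := by
        rw [add_mul, mul_add, mul_add, smul_mul_smul_comm, mul_smul_comm, smul_mul_assoc]
        module
      rw [this, hUU, hUE, hEE, smul_zero, zero_add, zero_add]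
    have hall := ext_line_eq (br U S) (br E S) (- br U S) (- br E S) (by
      have h1 : ({0}ᶜ : Set ℂ).Infinite := (Set.finite_singleton 0).infinite_compl
      refine h1.mono ?_
      intro z hz
      have hz0 : z ≠ 0 := hz
      show spectrum ℂ (br U S + z • br E S) = spectrum ℂ (-br U S + z • -br E S)
      have e1 : br U S + z • br E S = br (U + z • E) S := by
        rw [br_add_left, br_smul_left]
      have e2 : -br U S + z • -br E S = - br (U + z • E) S := by
        rw [br_add_left, br_smul_left]; module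
      rw [e1, e2]
      exact spec_neg_of_anticomm (pow_ne_zero 2 hz0) (hsq z) (hanti _ _ (hsq z) S)) 0
    rw [← hbr]
    simpa using hall
  · rw [← hbr]
    exact spec_neg_of_anticomm hw0 hUU (hanti U w hUU S)

end Pool.Agent.H278R3.Asym
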