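import Mathlib

set_option autoImplicit false

namespace Pool.Agent.H278R3

open Set

/-- integer with the first `k` base-`b` digits of `a`. -/
def idx {b : ℕ} (a : ℕ → Fin b) : ℕ → ℤ
  | 0 => 0
  | k + 1 => b * idx a k + ((a k : ℕ) : ℤ)

lemma ofDigits_step {b : ℕ} (a : ℕ → Fin b) :
    Real.ofDigits a = (((a 0 : ℕ) : ℝ) + Real.ofDigits (fun i => a (i + 1))) / b := by
  rw [Real.ofDigits_eq_sum_add_ofDigits a 1]
  simp only [Finset.sum_range_one, Real.ofDigitsTerm, zero_add, pow_one]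
  rw [div_eq_inv_mul, mul_add]
  ring

lemma pow_mul_ofDigits {b : ℕ} (hb : 0 < b) (a : ℕ → Fin b) (k : ℕ) :
    (b : ℝ) ^ k * Real.ofDigits a = idx a k + Real.ofDigits (fun i => a (i + k)) := by
  have hb' : (b : ℝ) ≠ 0 := by positivity
  induction k with
  | zero => simp [idx]
  | succ k ih =>
    have h1 : (b : ℝ) ^ (k + 1) * Real.ofDigits a = b * ((b : ℝ) ^ k * Real.ofDigits a) := by ring
    rw [h1, ih, mul_add, ofDigits_step (fun i => a (i + k)), mul_div_cancel₀ _ hb']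
    simp only [idx, zero_add]
    push_cast
    have h2 : (fun i => a (i + 1 + k)) = fun i => a (i + (k + 1)) := by
      ext i; congr 2; ring
    rw [h2]; ring

lemma ofDigits_bounds {b : ℕ} (hb : 1 < b) (a : ℕ → Fin b) (o h : ℕ)
    (ho : ∀ i, o ≤ (a i : ℕ)) (hh : ∀ i, (a i : ℕ) ≤ h) :
    (o : ℝ) / (b - 1) ≤ Real.ofDigits a ∧ Real.ofDigits a ≤ (h : ℝ) / (b - 1) := by
  have hb1 : (1 : ℝ) < b := by exact_mod_cast hb
  have hgeo : ∀ c : ℝ, HasSum (fun n : ℕ => c * ((b : ℝ) ^ (n + 1))⁻¹) (c / (b - 1)) := by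
    intro c
    have h1 := hasSum_geometric_of_lt_one (r := (b : ℝ)⁻¹) (by positivity) (inv_lt_one_of_one_lt₀ hb1)
    have h2 := h1.mul_left (c * (b : ℝ)⁻¹)
    convert! h2 using 1
    · ext n; rw [pow_succ', mul_inv, inv_pow]; ring
    · have : (b : ℝ) - 1 ≠ 0 := by linarith
      have : (b : ℝ) ≠ 0 := by linarith
      field_simp
  have hs := (Real.summable_ofDigitsTerm (digits := a)).hasSum
  constructor
  · apply hasSum_le _ (hgeo o) hs
    intro n
    unfold Real.ofDigitsTerm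
    gcongr
    exact ho n
  · apply hasSum_le _ hs (hgeo h)
    intro n
    unfold Real.ofDigitsTerm
    gcongr
    exact hh n

lemma idx_inj {b : ℕ} (a a' : ℕ → Fin b) (k : ℕ) (h : idx a k = idx a' k) :
    ∀ i < k, a i = a' i := by
  induction k with
  | zero => intro i hi; omega
  | succ k ih =>
    simp only [idx] at h
    have h1 := (a k).isLt
    have h2 := (a' k).isLt
    have h3 : idx a k = idx a' k := by
      by_contra hne
      rcases lt_or_gt_of_ne hne with h4 | h4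
      · have : (b : ℤ) * idx a k + b ≤ b * idx a' k := by nlinarith
        omega
      · have : (b : ℤ) * idx a' k + b ≤ b * idx a k := by nlinarith
        omega
    intro i hi
    rcases Nat.lt_succ_iff_lt_or_eq.mp hi with h4 | h4
    · exact ih h3 i h4
    · subst h4
      rw [h3] at h
      apply Fin.ext
      omega

lemma idx_congr {b : ℕ} (a a' : ℕ → Fin b) (k : ℕ) (h : ∀ i < k, a i = a' i) :
    idx a k = idx a' k := by
  induction k with
  | zero => rfl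
  | succ k ih =>
    simp only [idx]
    rw [ih (fun i hi => h i (by omega)), h k (by omega)]

/-- Separation: different indices force distance at least `b^-k / 2`. -/
lemma ofDigits_sep {b : ℕ} (hb : 1 < b) (a a' : ℕ → Fin b) (o h : ℕ)
    (ho : ∀ i, o ≤ (a i : ℕ)) (hh : ∀ i, (a i : ℕ) ≤ h)
    (ho' : ∀ i, o ≤ (a' i : ℕ)) (hh' : ∀ i, (a' i : ℕ) ≤ h)
    (hw : 2 * ((h : ℝ) - o) ≤ b - 1) (k : ℕ) (hne : idx a k ≠ idx a' k) :
    1 ≤ 2 * ((b : ℝ) ^ k * |Real.ofDigits a - Real.ofDigits a'|) := by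
  have e1 := pow_mul_ofDigits (by omega) a k
  have e2 := pow_mul_ofDigits (by omega) a' k
  have b1 := ofDigits_bounds hb (fun i => a (i + k)) o h (fun i => ho _) (fun i => hh _)
  have b2 := ofDigits_bounds hb (fun i => a' (i + k)) o h (fun i => ho' _) (fun i => hh' _)
  have hb1 : (0 : ℝ) < (b : ℝ) - 1 := by
    have : (1 : ℝ) < b := by exact_mod_cast hb
    linarith
  have hdiff : (h : ℝ) / (b - 1) - (o : ℝ) / (b - 1) ≤ 1 / 2 := by
    rw [← sub_div, div_le_iff₀ hb1]; linarith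
  have hpos : (0 : ℝ) ≤ (b : ℝ) ^ k := by positivity
  rw [← abs_of_nonneg hpos, ← abs_mul, mul_sub, e1, e2]
  have hint : (1 : ℝ) ≤ |((idx a k : ℤ) : ℝ) - (idx a' k : ℤ)| := by
    have : (1 : ℤ) ≤ |idx a k - idx a' k| := Int.one_le_abs (sub_ne_zero.mpr hne)
    exact_mod_cast this
  have h3 : |((idx a k : ℤ) : ℝ) - (idx a' k : ℤ)| ≤
      |((idx a k : ℤ) : ℝ) + Real.ofDigits (fun i => a (i + k)) -
        ((idx a' k : ℤ) + Real.ofDigits (fun i => a' (i + k)))| +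
      |Real.ofDigits (fun i => a (i + k)) - Real.ofDigits (fun i => a' (i + k))| := by
    have := abs_sub_abs_le_abs_sub
      (((idx a k : ℤ) : ℝ) - (idx a' k : ℤ))
      (-(Real.ofDigits (fun i => a (i + k)) - Real.ofDigits (fun i => a' (i + k))))
    rw [abs_neg] at this
    have e : ((idx a k : ℤ) : ℝ) - (idx a' k : ℤ) -
      -(Real.ofDigits (fun i => a (i + k)) - Real.ofDigits (fun i => a' (i + k))) =
      ((idx a k : ℤ) : ℝ) + Real.ofDigits (fun i => a (i + k)) -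
        ((idx a' k : ℤ) + Real.ofDigits (fun i => a' (i + k))) := by ring
    rw [e] at this
    linarith
  have h4 : |Real.ofDigits (fun i => a (i + k)) - Real.ofDigits (fun i => a' (i + k))| ≤ 1 / 2 := by
    rw [abs_le]; constructor <;> linarith [b1.1, b1.2, b2.1, b2.2]
  linarith

/-- Expansion of digits: the map replacing base `β` digits by base `b` digits. -/
lemma digit_map_expand {b β : ℕ} [NeZero β] (hb : 1 < b) (hβ : 1 < β) (e : Fin β → Fin b) (o : ℕ)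
    (he : ∀ i, (e i : ℕ) = i + o) (hpow : β ^ 3 = b ^ 2) (hw : 2 * (β - 1) ≤ b - 1)
    (x y : ℝ) (hx : x ∈ Ico (0 : ℝ) 1) (hy : y ∈ Ico (0 : ℝ) 1) :
    |x - y| ^ 3 ≤ 4 * (β : ℝ) ^ 3 *
      |Real.ofDigits (fun i => e (Real.digits x β i)) -
        Real.ofDigits (fun i => e (Real.digits y β i))| ^ 2 := by
  by_cases hxy : x = y
  · subst hxy; simp
  have hd0 : 0 < |x - y| := abs_pos.mpr (sub_ne_zero.mpr hxy)
  have hd1 : |x - y| ≤ 1 := by
    rw [abs_le]; constructor <;> linarith [hx.1, hx.2, hy.1, hy.2]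
  have hβ1 : (1 : ℝ) < β := by exact_mod_cast hβ
  obtain ⟨n, hn1, hn2⟩ := exists_nat_pow_near (x := 1 / |x - y|) (y := (β : ℝ))
    (by rw [le_div_iff₀ hd0]; linarith) hβ1
  rw [le_div_iff₀ hd0] at hn1
  rw [div_lt_iff₀ hd0] at hn2
  have hne : idx (fun i => e (Real.digits x β i)) (n + 1) ≠
      idx (fun i => e (Real.digits y β i)) (n + 1) := by
    intro heq
    have h1 := idx_inj _ _ _ heq
    have h2 : ∀ i < n + 1, Real.digits x β i = Real.digits y β i := by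
      intro i hi
      have h3 := h1 i hi
      have h4 : (e (Real.digits x β i) : ℕ) = e (Real.digits y β i) := by
        rw [h3]
      rw [he, he] at h4
      apply Fin.ext
      omega
    have h5 := Real.abs_ofDigits_sub_ofDigits_le h2
    rw [Real.ofDigits_digits hβ hx, Real.ofDigits_digits hβ hy] at h5
    rw [le_inv_comm₀ hd0 (by positivity)] at h5
    have h6 : |x - y|⁻¹ < (β : ℝ) ^ (n + 1) := by
      rw [inv_lt_iff_one_lt_mul₀ hd0, mul_comm]; rw [mul_comm] at hn2; linarith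
    linarith
  have hβ' : 1 ≤ β := by omega
  have hb' : 1 ≤ b := by omega
  have hsep := ofDigits_sep hb (fun i => e (Real.digits x β i)) (fun i => e (Real.digits y β i))
    o (β - 1 + o) (fun i => by rw [he]; omega)
    (fun i => by rw [he]; have := (Real.digits x β i).isLt; omega)
    (fun i => by rw [he]; omega)
    (fun i => by rw [he]; have := (Real.digits y β i).isLt; omega)
    (by
      have h7 : 2 * ((β : ℝ) - 1) ≤ (b : ℝ) - 1 := by
        have h8 : ((2 * (β - 1) : ℕ) : ℝ) ≤ ((b - 1 : ℕ) : ℝ) := by exact_mod_cast hw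
        push_cast [Nat.cast_sub hβ', Nat.cast_sub hb'] at h8
        linarith
      push_cast [Nat.cast_sub hβ']
      linarith) (n + 1) hne
  set Δ := |Real.ofDigits (fun i => e (Real.digits x β i)) -
        Real.ofDigits (fun i => e (Real.digits y β i))| with hΔ
  have hΔ0 : 0 ≤ Δ := abs_nonneg _
  have hpowR : (β : ℝ) ^ 3 = (b : ℝ) ^ 2 := by exact_mod_cast hpow
  -- |x-y| ≤ β^{-n}
  have hA : (β : ℝ) ^ n * |x - y| ≤ 1 := hn1
  have hB : ((β : ℝ) ^ n * |x - y|) ^ 3 ≤ 1 := by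
    apply pow_le_one₀ (by positivity) hA
  have hC : 1 ≤ 4 * ((b : ℝ) ^ (n + 1) * Δ) ^ 2 := by
    nlinarith
  have hD : ((b : ℝ) ^ (n + 1) * Δ) ^ 2 = ((β : ℝ) ^ n) ^ 3 * ((β : ℝ) ^ 3 * Δ ^ 2) := by
    rw [mul_pow, ← pow_mul, mul_comm (n + 1) 2, pow_mul, ← hpowR]
    ring
  rw [hD] at hC
  rw [mul_pow] at hB
  have hE : 0 < ((β : ℝ) ^ n) ^ 3 := by positivity
  have : ((β : ℝ) ^ n) ^ 3 * |x - y| ^ 3 ≤ ((β : ℝ) ^ n) ^ 3 * (4 * (β : ℝ) ^ 3 * Δ ^ 2) := by
    calc ((β : ℝ) ^ n) ^ 3 * |x - y| ^ 3 ≤ 1 := hB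
      _ ≤ 4 * (((β : ℝ) ^ n) ^ 3 * ((β : ℝ) ^ 3 * Δ ^ 2)) := hC
      _ = _ := by ring
  exact le_of_mul_le_mul_left this hE

/-- ultrametric on the line from base-64 cells -/
noncomputable def U (y y' : ℝ) : ℝ :=
  ⨆ k : ℕ, if ⌊(64 : ℝ) ^ k * y⌋ = ⌊(64 : ℝ) ^ k * y'⌋ then 0 else ((64 : ℝ) ^ k)⁻¹

lemma U_term_le (y y' : ℝ) (k : ℕ) :
    (if ⌊(64 : ℝ) ^ k * y⌋ = ⌊(64 : ℝ) ^ k * y'⌋ then 0 else ((64 : ℝ) ^ k)⁻¹) ≤ 1 := by
  split_ifs
  · norm_num
  · exact inv_le_one_of_one_le₀ (one_le_pow₀ (by norm_num))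

lemma U_bdd (y y' : ℝ) : BddAbove (range fun k : ℕ =>
    if ⌊(64 : ℝ) ^ k * y⌋ = ⌊(64 : ℝ) ^ k * y'⌋ then 0 else ((64 : ℝ) ^ k)⁻¹) := by
  refine ⟨1, ?_⟩
  rintro _ ⟨k, rfl⟩
  exact U_term_le y y' k

lemma U_nonneg (y y' : ℝ) : 0 ≤ U y y' := by
  refine le_trans ?_ (le_ciSup (U_bdd y y') 0)
  split_ifs <;> norm_num

lemma U_self (y : ℝ) : U y y = 0 := by simp [U]

lemma U_comm (y y' : ℝ) : U y y' = U y' y := by
  unfold U
  congr 1
  ext k
  by_cases h : ⌊(64 : ℝ) ^ k * y⌋ = ⌊(64 : ℝ) ^ k * y'⌋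
  · rw [if_pos h, if_pos h.symm]
  · rw [if_neg h, if_neg (fun h' => h h'.symm)]

lemma U_ge (y y' : ℝ) (k : ℕ) (h : ⌊(64 : ℝ) ^ k * y⌋ ≠ ⌊(64 : ℝ) ^ k * y'⌋) :
    ((64 : ℝ) ^ k)⁻¹ ≤ U y y' := by
  have := le_ciSup (U_bdd y y') k
  rw [if_neg h] at this
  exact this

lemma U_ultra (a b c : ℝ) : U a c ≤ max (U a b) (U b c) := by
  apply ciSup_le
  intro k
  split_ifs with h
  · exact le_max_of_le_left (U_nonneg _ _)
  · by_cases h1 : ⌊(64 : ℝ) ^ k * a⌋ = ⌊(64 : ℝ) ^ k * b⌋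
    · apply le_max_of_le_right
      apply U_ge
      rw [← h1]; exact h
    · apply le_max_of_le_left
      exact U_ge _ _ _ h1

lemma U_le_of_agree (y y' : ℝ) (l : ℕ) (h : ∀ k ≤ l, ⌊(64 : ℝ) ^ k * y⌋ = ⌊(64 : ℝ) ^ k * y'⌋) :
    U y y' ≤ ((64 : ℝ) ^ l)⁻¹ := by
  apply ciSup_le
  intro k
  split_ifs with h1
  · positivity
  · have hk : l ≤ k := by
      by_contra hlt
      exact h1 (h k (by omega))
    gcongr
    norm_num

lemma U_lower (y y' : ℝ) (h1 : |y - y'| ≤ 1) : |y - y'| ≤ 64 * U y y' := by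
  by_cases hy : y = y'
  · subst hy; simp [U_self]
  have hd0 : 0 < |y - y'| := abs_pos.mpr (sub_ne_zero.mpr hy)
  obtain ⟨n, hn1, hn2⟩ := exists_nat_pow_near (x := 1 / |y - y'|) (y := (64 : ℝ))
    (by rw [le_div_iff₀ hd0]; linarith) (by norm_num)
  rw [le_div_iff₀ hd0] at hn1
  rw [div_lt_iff₀ hd0] at hn2
  have hne : ⌊(64 : ℝ) ^ (n + 1) * y⌋ ≠ ⌊(64 : ℝ) ^ (n + 1) * y'⌋ := by
    intro heq
    have := Int.abs_sub_lt_one_of_floor_eq_floor heq
    rw [← mul_sub, abs_mul, abs_of_nonneg (by positivity : (0 : ℝ) ≤ 64 ^ (n + 1))] at this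
    linarith
  have h2 := U_ge _ _ _ hne
  have h3 : |y - y'| ≤ ((64 : ℝ) ^ n)⁻¹ := by
    rw [le_inv_comm₀ hd0 (by positivity), ← one_div, le_div_iff₀ hd0]; exact hn1
  have h4 : ((64 : ℝ) ^ n)⁻¹ = 64 * ((64 : ℝ) ^ (n + 1))⁻¹ := by
    rw [pow_succ]; field_simp
  rw [h4] at h3
  linarith

end Pool.Agent.H278R3
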