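import Mathlib

set_option autoImplicit false

namespace Pool.Agent.H278R3

/-- Weights of the eight columns. -/
noncomputable def qw (i : ℤ) : ℝ := if 1 ≤ i ∧ i ≤ 4 then 1 / 256 else 63 / 256

/-- Partial sums of the weights. -/
noncomputable def cw (i : ℤ) : ℝ := ∑ t ∈ Finset.range i.toNat, qw t

/-- Mass of the base-8 interval of level `k` and index `j`. -/
noncomputable def ww : ℕ → ℤ → ℝ
  | 0, _ => 1
  | k + 1, j => ww k (j / 8) * qw (j % 8)

/-- Distribution function on base-8 rationals of level `k`. -/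
noncomputable def FF : ℕ → ℤ → ℝ
  | 0, j => j
  | k + 1, j => FF k (j / 8) + ww k (j / 8) * cw (j % 8)

lemma qw_lb (i : ℤ) : 1 / 256 ≤ qw i := by
  unfold qw; split_ifs <;> norm_num

lemma qw_ub (i : ℤ) : qw i ≤ 63 / 256 := by
  unfold qw; split_ifs <;> norm_num

lemma qw_pos (i : ℤ) : 0 < qw i := lt_of_lt_of_le (by norm_num) (qw_lb i)

lemma ww_pos (k : ℕ) (j : ℤ) : 0 < ww k j := by
  induction k generalizing j with
  | zero => simp [ww]
  | succ k ih => simp only [ww]; exact mul_pos (ih _) (qw_pos _)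

lemma cw_zero : cw 0 = 0 := by simp [cw]

lemma cw_succ (i : ℤ) (hi : 0 ≤ i) : cw (i + 1) = cw i + qw i := by
  obtain ⟨n, rfl⟩ := Int.eq_ofNat_of_zero_le hi
  unfold cw
  have : ((n : ℤ) + 1).toNat = n + 1 := by omega
  rw [this]
  simp [Finset.sum_range_succ]

lemma cw_eight : cw 8 = 1 := by
  unfold cw
  have : (8 : ℤ).toNat = 8 := by rfl
  rw [this]
  simp only [Finset.sum_range_succ, Finset.sum_range_zero, qw]
  norm_num

lemma FF_succ (k : ℕ) (j : ℤ) : FF k (j + 1) = FF k j + ww k j := by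
  induction k generalizing j with
  | zero => simp [FF, ww]
  | succ k ih =>
    simp only [FF, ww]
    by_cases h : j % 8 = 7
    · have h1 : (j + 1) / 8 = j / 8 + 1 := by omega
      have h2 : (j + 1) % 8 = 0 := by omega
      rw [h1, h2, ih, cw_zero, h]
      have h3 : cw 7 + qw 7 = 1 := by
        have := cw_succ 7 (by norm_num)
        rw [← this]; exact cw_eight
      have : ww k (j / 8) * cw 7 + ww k (j / 8) * qw 7 = ww k (j / 8) := by
        rw [← mul_add, h3, mul_one]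
      linarith
    · have h1 : (j + 1) / 8 = j / 8 := by omega
      have h2 : (j + 1) % 8 = j % 8 + 1 := by omega
      rw [h1, h2, cw_succ _ (by omega)]
      ring

lemma FF_strictMono (k : ℕ) : StrictMono (FF k) := by
  apply strictMono_int_of_lt_succ
  intro j
  rw [FF_succ]
  linarith [ww_pos k j]

lemma FF_eight (k : ℕ) (j : ℤ) : FF (k + 1) (8 * j) = FF k j := by
  simp only [FF]
  have h1 : 8 * j / 8 = j := by omega
  have h2 : 8 * j % 8 = 0 := by omega
  rw [h1, h2, cw_zero]; ring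

lemma FF_pow (k n : ℕ) (j : ℤ) : FF (k + n) (8 ^ n * j) = FF k j := by
  induction n with
  | zero => simp
  | succ n ih =>
    have : (8 : ℤ) ^ (n + 1) * j = 8 * (8 ^ n * j) := by ring
    rw [this, ← add_assoc, FF_eight, ih]

lemma ww_adj (k : ℕ) (j : ℤ) : ww k (j + 1) ≤ 63 * ww k j ∧ ww k j ≤ 63 * ww k (j + 1) := by
  induction k generalizing j with
  | zero => simp [ww]
  | succ k ih =>
    simp only [ww]
    by_cases h : j % 8 = 7
    · have h1 : (j + 1) / 8 = j / 8 + 1 := by omega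
      have h2 : (j + 1) % 8 = 0 := by omega
      rw [h1, h2, h]
      have e7 : qw 7 = 63 / 256 := by simp [qw]
      have e0 : qw 0 = 63 / 256 := by simp [qw]
      rw [e7, e0]
      obtain ⟨a, b⟩ := ih (j / 8)
      constructor <;> linarith
    · have h1 : (j + 1) / 8 = j / 8 := by omega
      rw [h1]
      have hp := ww_pos k (j / 8)
      have a1 := qw_lb (j % 8)
      have a2 := qw_ub (j % 8)
      have b1 := qw_lb ((j + 1) % 8)
      have b2 := qw_ub ((j + 1) % 8)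
      constructor <;> nlinarith

lemma ww_child_lb (k : ℕ) (j : ℤ) : ww k (j / 8) ≤ 256 * ww (k + 1) j := by
  simp only [ww]
  have hp := ww_pos k (j / 8)
  have a1 := qw_lb (j % 8)
  nlinarith

lemma ww_child_lb2 (k : ℕ) (j : ℤ) : ww k (j / 64) ≤ 65536 * ww (k + 2) j := by
  have h1 := ww_child_lb (k + 1) j
  have h2 := ww_child_lb k (j / 8)
  have h3 : j / 8 / 8 = j / 64 := by omega
  rw [h3] at h2
  linarith

lemma FF_floor_mono (x : ℝ) : Monotone (fun k : ℕ => FF k ⌊(8 : ℝ) ^ k * x⌋) := by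
  apply monotone_nat_of_le_succ
  intro k
  rw [← FF_eight]
  apply (FF_strictMono (k + 1)).monotone
  rw [Int.le_floor]
  have := Int.floor_le ((8 : ℝ) ^ k * x)
  push_cast
  rw [pow_succ]
  linarith

lemma FF_floor_le (x : ℝ) (k : ℕ) (j : ℤ) (h : (8 : ℝ) ^ k * x ≤ j) (n : ℕ) :
    FF n ⌊(8 : ℝ) ^ n * x⌋ ≤ FF k j := by
  have key : ∀ m : ℕ, FF (k + m) ⌊(8 : ℝ) ^ (k + m) * x⌋ ≤ FF k j := by
    intro m
    rw [← FF_pow k m j]
    apply (FF_strictMono (k + m)).monotone
    rw [Int.floor_le_iff]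
    push_cast
    rw [pow_add]
    have h8 : (0 : ℝ) < 8 ^ m := by positivity
    nlinarith
  calc FF n ⌊(8 : ℝ) ^ n * x⌋ ≤ FF (k + n) ⌊(8 : ℝ) ^ (k + n) * x⌋ :=
        FF_floor_mono x (by omega)
    _ ≤ FF k j := key n

/-- The quasisymmetric homeomorphism of the line (distribution function of the Bernoulli measure). -/
noncomputable def ff (x : ℝ) : ℝ := ⨆ k : ℕ, FF k ⌊(8 : ℝ) ^ k * x⌋

lemma ff_bdd (x : ℝ) : BddAbove (Set.range fun k : ℕ => FF k ⌊(8 : ℝ) ^ k * x⌋) := by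
  refine ⟨FF 0 ⌈x⌉, ?_⟩
  rintro _ ⟨n, rfl⟩
  exact FF_floor_le x 0 ⌈x⌉ (by simpa using Int.le_ceil x) n

lemma le_ff (x : ℝ) (k : ℕ) (j : ℤ) (h : (j : ℝ) ≤ (8 : ℝ) ^ k * x) : FF k j ≤ ff x := by
  calc FF k j ≤ FF k ⌊(8 : ℝ) ^ k * x⌋ := (FF_strictMono k).monotone (Int.le_floor.mpr h)
    _ ≤ ff x := le_ciSup (ff_bdd x) k

lemma ff_le (x : ℝ) (k : ℕ) (j : ℤ) (h : (8 : ℝ) ^ k * x ≤ j) : ff x ≤ FF k j :=
  ciSup_le (fun n => FF_floor_le x k j h n)

lemma ff_mono : Monotone ff := by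
  intro x y hxy
  apply ciSup_le
  intro k
  apply le_ff
  have := Int.floor_le ((8 : ℝ) ^ k * x)
  have h8 : (0 : ℝ) < 8 ^ k := by positivity
  nlinarith

/-- lower bound for the increment over an interval containing two consecutive grid points. -/
lemma ff_sub_ge (x y : ℝ) (k : ℕ) (j : ℤ) (h1 : (8 : ℝ) ^ k * x ≤ j)
    (h2 : ((j + 1 : ℤ) : ℝ) ≤ (8 : ℝ) ^ k * y) : ww k j ≤ ff y - ff x := by
  have a := ff_le x k j h1
  have b := le_ff y k (j + 1) h2
  rw [FF_succ] at b
  linarith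

/-- local estimates at scale `8^-k`. -/
lemma ff_local_ub_right (x t : ℝ) (k : ℕ) (ht : (8 : ℝ) ^ k * t ≤ 1) :
    ff (x + t) - ff x ≤ 64 * ww k ⌊(8 : ℝ) ^ k * x⌋ := by
  set j := ⌊(8 : ℝ) ^ k * x⌋ with hj
  have a := le_ff x k j (Int.floor_le _)
  have b : ff (x + t) ≤ FF k (j + 2) := by
    apply ff_le
    have := Int.lt_floor_add_one ((8 : ℝ) ^ k * x)
    push_cast
    rw [← hj] at this
    rw [mul_add]
    linarith
  have c : FF k (j + 2) = FF k j + ww k j + ww k (j + 1) := by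
    have : j + 2 = (j + 1) + 1 := by ring
    rw [this, FF_succ, FF_succ]
  have d := (ww_adj k j).1
  linarith

lemma ff_local_ub_left (x t : ℝ) (k : ℕ) (ht : (8 : ℝ) ^ k * t ≤ 1) :
    ff x - ff (x - t) ≤ 64 * ww k ⌊(8 : ℝ) ^ k * x⌋ := by
  set j := ⌊(8 : ℝ) ^ k * x⌋ with hj
  have a : ff x ≤ FF k (j + 1) := by
    apply ff_le
    have := Int.lt_floor_add_one ((8 : ℝ) ^ k * x)
    push_cast
    rw [← hj] at this
    linarith
  have b : FF k (j - 1) ≤ ff (x - t) := by
    apply le_ff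
    have := Int.floor_le ((8 : ℝ) ^ k * x)
    push_cast
    rw [← hj] at this
    rw [mul_sub]
    linarith
  have c : FF k (j + 1) = FF k (j - 1) + ww k (j - 1) + ww k j := by
    have e := FF_succ k (j - 1)
    rw [sub_add_cancel] at e
    rw [FF_succ k j, e]
  have d := (ww_adj k (j - 1)).2
  rw [sub_add_cancel] at d
  linarith

lemma floor_nest (x : ℝ) (k : ℕ) : ⌊(8 : ℝ) ^ (k + 2) * x⌋ / 64 = ⌊(8 : ℝ) ^ k * x⌋ := by
  have h : (8 : ℝ) ^ k * x = ((8 : ℝ) ^ (k + 2) * x) / ((64 : ℕ) : ℝ) := by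
    rw [pow_add]; norm_num; ring
  rw [h, Int.floor_div_natCast]
  norm_num

lemma ff_local_lb_right (x t : ℝ) (k : ℕ) (ht : 2 ≤ (8 : ℝ) ^ (k + 2) * t) :
    ww k ⌊(8 : ℝ) ^ k * x⌋ ≤ (65536 * 63) * (ff (x + t) - ff x) := by
  set i := ⌊(8 : ℝ) ^ (k + 2) * x⌋ with hi
  have h1 : ww (k + 2) (i + 1) ≤ ff (x + t) - ff x := by
    apply ff_sub_ge
    · have := Int.lt_floor_add_one ((8 : ℝ) ^ (k + 2) * x)
      push_cast
      rw [← hi] at this
      linarith
    · have := Int.floor_le ((8 : ℝ) ^ (k + 2) * x)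
      push_cast
      rw [← hi] at this
      rw [mul_add]
      linarith
  have h2 := (ww_adj (k + 2) i).2
  have h3 := ww_child_lb2 k i
  rw [floor_nest] at h3
  linarith

lemma ff_local_lb_left (x t : ℝ) (k : ℕ) (ht : 2 ≤ (8 : ℝ) ^ (k + 2) * t) :
    ww k ⌊(8 : ℝ) ^ k * x⌋ ≤ (65536 * 63) * (ff x - ff (x - t)) := by
  set i := ⌊(8 : ℝ) ^ (k + 2) * x⌋ with hi
  have h1 : ww (k + 2) (i - 1) ≤ ff x - ff (x - t) := by
    apply ff_sub_ge
    · have := Int.lt_floor_add_one ((8 : ℝ) ^ (k + 2) * x)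
      push_cast
      rw [← hi] at this
      rw [mul_sub]
      linarith
    · have := Int.floor_le ((8 : ℝ) ^ (k + 2) * x)
      push_cast
      rw [← hi] at this
      linarith
  have h2 := (ww_adj (k + 2) (i - 1)).1
  rw [sub_add_cancel] at h2
  have h3 := ww_child_lb2 k i
  rw [floor_nest] at h3
  linarith

lemma exists_scale (t : ℝ) (h0 : 0 < t) (h1 : t ≤ 1) :
    ∃ k : ℕ, (8 : ℝ) ^ k * t ≤ 1 ∧ 2 ≤ (8 : ℝ) ^ (k + 2) * t := by
  obtain ⟨n, hn1, hn2⟩ := exists_nat_pow_near (x := 1 / t) (y := 8)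
    (by rw [le_div_iff₀ h0]; linarith) (by norm_num)
  refine ⟨n, ?_, ?_⟩
  · rw [le_div_iff₀ h0] at hn1
    exact hn1
  · rw [div_lt_iff₀ h0] at hn2
    have : (8 : ℝ) ^ (n + 2) * t = 8 * (8 ^ (n + 1) * t) := by ring
    rw [this]; linarith

lemma ff_close (x : ℝ) : x - 1 ≤ ff x ∧ ff x ≤ x + 1 := by
  constructor
  · have := le_ff x 0 ⌊x⌋ (by simpa using Int.floor_le x)
    have h2 := Int.lt_floor_add_one x
    simp only [FF] at this
    linarith
  · have := ff_le x 0 ⌈x⌉ (by simpa using Int.le_ceil x)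
    have h2 := Int.ceil_lt_add_one x
    simp only [FF] at this
    linarith

/-- Large constant in the quasisymmetry condition. -/
noncomputable def MM : ℝ := 64 * (65536 * 63)

theorem ff_qs (x t : ℝ) (ht : 0 < t) :
    ff (x + t) - ff x ≤ MM * (ff x - ff (x - t)) ∧
    ff x - ff (x - t) ≤ MM * (ff (x + t) - ff x) := by
  unfold MM
  by_cases h1 : t ≤ 1
  · obtain ⟨k, hk1, hk2⟩ := exists_scale t ht h1
    have a1 := ff_local_ub_right x t k hk1
    have a2 := ff_local_ub_left x t k hk1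
    have b1 := ff_local_lb_right x t k hk2
    have b2 := ff_local_lb_left x t k hk2
    constructor <;> linarith
  · push Not at h1
    have c0 := ff_close x
    have c1 := ff_close (x + t)
    have c2 := ff_close (x - t)
    by_cases h4 : t ≤ 4
    · have b1 := ff_local_lb_right x t 0 (by norm_num; linarith)
      have b2 := ff_local_lb_left x t 0 (by norm_num; linarith)
      simp only [ww] at b1 b2
      constructor <;> linarith
    · push Not at h4
      constructor <;> nlinarith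

theorem ff_strictMono : StrictMono ff := by
  intro x y hxy
  have hpos : 0 < y - x := by linarith
  by_cases h1 : y - x ≤ 1
  · obtain ⟨k, hk1, hk2⟩ := exists_scale (y - x) hpos h1
    have b1 := ff_local_lb_right x (y - x) k hk2
    have := ww_pos k ⌊(8 : ℝ) ^ k * x⌋
    rw [add_sub_cancel] at b1
    linarith
  · push Not at h1
    have b1 := ff_local_lb_right x (y - x) 0 (by norm_num; linarith)
    have := ww_pos 0 ⌊(8 : ℝ) ^ 0 * x⌋
    rw [add_sub_cancel] at b1
    linarith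

end Pool.Agent.H278R3
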