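import Mathlib

set_option autoImplicit false

namespace Pool.Agent.H278R3

open Set

section Line

variable {f : ℝ → ℝ} {M : ℝ}

/-- The `f`-length of the interval of radius `r` around `z`. -/
def gg (f : ℝ → ℝ) (r z : ℝ) : ℝ := f (z + r) - f (z - r)

lemma gg_zero (f : ℝ → ℝ) (z : ℝ) : gg f 0 z = 0 := by simp [gg]

lemma gg_mono (hf : StrictMono f) (z : ℝ) {r r' : ℝ} (h : r ≤ r') : gg f r z ≤ gg f r' z := by
  unfold gg
  have h1 := hf.monotone (show z + r ≤ z + r' by linarith)
  have h2 := hf.monotone (show z - r' ≤ z - r by linarith)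
  linarith

lemma gg_nonneg (hf : StrictMono f) (z : ℝ) {r : ℝ} (h : 0 ≤ r) : 0 ≤ gg f r z := by
  have := gg_mono hf z h
  rwa [gg_zero] at this

lemma gg_pos (hf : StrictMono f) (z : ℝ) {r : ℝ} (h : 0 < r) : 0 < gg f r z := by
  unfold gg
  have := hf (show z - r < z + r by linarith)
  linarith

variable (hq : ∀ x t : ℝ, 0 < t → f (x + t) - f x ≤ M * (f x - f (x - t)) ∧
    f x - f (x - t) ≤ M * (f (x + t) - f x))

include hq

lemma gg_le_right (x : ℝ) {t : ℝ} (ht : 0 ≤ t) : gg f t x ≤ (1 + M) * (f (x + t) - f x) := by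
  rcases ht.eq_or_lt with h | h
  · subst h; simp [gg]
  · unfold gg; have := (hq x t h).2; linarith

lemma gg_le_left (x : ℝ) {t : ℝ} (ht : 0 ≤ t) : gg f t x ≤ (1 + M) * (f x - f (x - t)) := by
  rcases ht.eq_or_lt with h | h
  · subst h; simp [gg]
  · unfold gg; have := (hq x t h).1; linarith

lemma gg_double (x : ℝ) {t : ℝ} (ht : 0 ≤ t) : gg f (2 * t) x ≤ (1 + M) * gg f t x := by
  rcases ht.eq_or_lt with h | h
  · subst h; simp [gg]
  · unfold gg
    have h1 := (hq (x + t) t h).1
    have h2 := (hq (x - t) t h).2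
    have e1 : x + t + t = x + 2 * t := by ring
    have e2 : x + t - t = x := by ring
    have e3 : x - t - t = x - 2 * t := by ring
    have e4 : x - t + t = x := by ring
    rw [e1, e2] at h1
    rw [e3, e4] at h2
    linarith

lemma gg_half (x : ℝ) (hM : 0 < M) {t : ℝ} (ht : 0 ≤ t) :
    (1 + 1 / M) * gg f t x ≤ gg f (2 * t) x := by
  rcases ht.eq_or_lt with h | h
  · subst h; simp [gg]
  · unfold gg
    have h1 := (hq (x + t) t h).2
    have h2 := (hq (x - t) t h).1
    have e1 : x + t + t = x + 2 * t := by ring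
    have e2 : x + t - t = x := by ring
    have e3 : x - t - t = x - 2 * t := by ring
    have e4 : x - t + t = x := by ring
    rw [e1, e2] at h1
    rw [e3, e4] at h2
    have h3 : (1 / M) * (f (x + t) - f x) ≤ f (x + 2 * t) - f (x + t) := by
      rw [one_div, inv_mul_le_iff₀ hM]; exact h1
    have h4 : (1 / M) * (f x - f (x - t)) ≤ f (x - t) - f (x - 2 * t) := by
      rw [one_div, inv_mul_le_iff₀ hM]; exact h2
    have : (1 + 1 / M) * (f (x + t) - f (x - t)) =
      (f (x + t) - f (x - t)) + ((1 / M) * (f (x + t) - f x) + (1 / M) * (f x - f (x - t))) := by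
      ring
    rw [this]
    linarith

lemma gg_double_pow (x : ℝ) (hM : 0 < M) {t : ℝ} (ht : 0 ≤ t) (n : ℕ) :
    gg f (2 ^ n * t) x ≤ (1 + M) ^ n * gg f t x := by
  induction n with
  | zero => simp
  | succ n ih =>
    have h := gg_double hq x (t := 2 ^ n * t) (by positivity)
    calc gg f (2 ^ (n + 1) * t) x = gg f (2 * (2 ^ n * t)) x := by ring_nf
      _ ≤ (1 + M) * gg f (2 ^ n * t) x := h
      _ ≤ (1 + M) * ((1 + M) ^ n * gg f t x) := by gcongr
      _ = _ := by ring

lemma gg_half_pow (x : ℝ) (hM : 0 < M) {t : ℝ} (ht : 0 ≤ t) (n : ℕ) :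
    (1 + 1 / M) ^ n * gg f t x ≤ gg f (2 ^ n * t) x := by
  induction n with
  | zero => simp
  | succ n ih =>
    have h := gg_half hq x hM (t := 2 ^ n * t) (by positivity)
    calc (1 + 1 / M) ^ (n + 1) * gg f t x = (1 + 1 / M) * ((1 + 1 / M) ^ n * gg f t x) := by ring
      _ ≤ (1 + 1 / M) * gg f (2 ^ n * t) x := by gcongr
      _ ≤ gg f (2 * (2 ^ n * t)) x := h
      _ = _ := by ring_nf

/-- Scaling estimate with a power gauge. -/
lemma gg_scale (hf : StrictMono f) (x : ℝ) (hM : 1 ≤ M) {ρ t : ℝ} (hρ : 0 ≤ ρ) (ht : 0 < t) :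
    gg f (t * ρ) x ≤ (1 + M) * (t ^ (Real.logb 2 (1 + 1 / M)) + t ^ (Real.logb 2 (1 + M))) *
      gg f ρ x := by
  have hM0 : 0 < M := by linarith
  have hg0 := gg_nonneg hf x hρ
  have hap : (2 : ℝ) ^ (Real.logb 2 (1 + 1 / M)) = 1 + 1 / M :=
    Real.rpow_logb (by norm_num) (by norm_num) (by positivity)
  have hbp : (2 : ℝ) ^ (Real.logb 2 (1 + M)) = 1 + M :=
    Real.rpow_logb (by norm_num) (by norm_num) (by positivity)
  set a := Real.logb 2 (1 + 1 / M)
  set b := Real.logb 2 (1 + M)
  have ha0 : 0 ≤ a := Real.logb_nonneg (by norm_num) (by simp; linarith)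
  have hb0 : 0 ≤ b := Real.logb_nonneg (by norm_num) (by linarith)
  by_cases h1 : 1 ≤ t
  · obtain ⟨n, hn1, hn2⟩ := exists_nat_pow_near (x := t) (y := 2) h1 (by norm_num)
    have h2 : gg f (t * ρ) x ≤ (1 + M) ^ (n + 1) * gg f ρ x :=
      (gg_mono hf x (by gcongr)).trans (gg_double_pow hq x hM0 hρ (n + 1))
    have h3 : (1 + M) ^ n ≤ t ^ b := by
      calc (1 + M) ^ n = ((2 : ℝ) ^ b) ^ n := by rw [hbp]
        _ = ((2 : ℝ) ^ n) ^ b := by
            rw [← Real.rpow_natCast, ← Real.rpow_mul (by norm_num), mul_comm,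
              Real.rpow_mul (by norm_num), Real.rpow_natCast]
        _ ≤ t ^ b := by
            apply Real.rpow_le_rpow (by positivity) hn1 hb0
    have h4 : 0 ≤ t ^ a := by positivity
    calc gg f (t * ρ) x ≤ (1 + M) ^ (n + 1) * gg f ρ x := h2
      _ = (1 + M) * (1 + M) ^ n * gg f ρ x := by ring
      _ ≤ (1 + M) * (t ^ a + t ^ b) * gg f ρ x := by
          gcongr; linarith
  · push Not at h1
    obtain ⟨n, hn1, hn2⟩ := exists_nat_pow_near (x := 1 / t) (y := 2)
      (by rw [le_div_iff₀ ht]; linarith) (by norm_num)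
    rw [le_div_iff₀ ht] at hn1
    rw [div_lt_iff₀ ht] at hn2
    have h2 : (1 + 1 / M) ^ n * gg f (t * ρ) x ≤ gg f ρ x := by
      refine (gg_half_pow hq x hM0 (by positivity) n).trans (gg_mono hf x ?_)
      rw [← mul_assoc]
      nlinarith
    have h3 : 1 ≤ (1 + 1 / M) ^ (n + 1) * t ^ a := by
      have e1 : (1 + 1 / M) ^ (n + 1) = ((2 : ℝ) ^ (n + 1)) ^ a := by
        rw [← hap, ← Real.rpow_natCast, ← Real.rpow_mul (by norm_num), mul_comm,
              Real.rpow_mul (by norm_num), Real.rpow_natCast]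
      rw [e1, ← Real.mul_rpow (by positivity) ht.le]
      exact Real.one_le_rpow hn2.le ha0
    have h4 : 0 ≤ t ^ b := by positivity
    have h5 : 1 + 1 / M ≤ 1 + M := by
      have : 1 / M ≤ 1 := by rw [div_le_one hM0]; exact hM
      linarith
    have hgt : 0 ≤ gg f (t * ρ) x := gg_nonneg hf x (by positivity)
    calc gg f (t * ρ) x = 1 * gg f (t * ρ) x := by ring
      _ ≤ ((1 + 1 / M) ^ (n + 1) * t ^ a) * gg f (t * ρ) x := by gcongr
      _ = ((1 + 1 / M) * t ^ a) * ((1 + 1 / M) ^ n * gg f (t * ρ) x) := by ring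
      _ ≤ ((1 + 1 / M) * t ^ a) * gg f ρ x := by gcongr
      _ ≤ ((1 + M) * (t ^ a + t ^ b)) * gg f ρ x := by
          gcongr; linarith

end Line

section Metric

variable {X : Type} (f : ℝ → ℝ) (px : X → ℝ) (u : X → X → ℝ)

/-- The new distance. -/
noncomputable def nd (a b : X) : ℝ := ⨅ z : ℝ, (|f (px a) - f z| + gg f (u a b) z + |f z - f (px b)|)

variable {f px u} (hf : StrictMono f) (hu0 : ∀ a b, 0 ≤ u a b)

include hf hu0

lemma nd_bdd (a b : X) :
    BddBelow (range fun z : ℝ => |f (px a) - f z| + gg f (u a b) z + |f z - f (px b)|) := by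
  refine ⟨0, ?_⟩
  rintro _ ⟨z, rfl⟩
  have := gg_nonneg hf z (hu0 a b)
  positivity

lemma nd_nonneg (a b : X) : 0 ≤ nd f px u a b := by
  apply le_ciInf
  intro z
  have := gg_nonneg hf z (hu0 a b)
  positivity

lemma nd_le (a b : X) (z : ℝ) :
    nd f px u a b ≤ |f (px a) - f z| + gg f (u a b) z + |f z - f (px b)| :=
  ciInf_le (nd_bdd hf hu0 a b) z

lemma nd_le' (a b : X) :
    nd f px u a b ≤ gg f (u a b) (px a) + |f (px a) - f (px b)| := by
  have := nd_le (px := px) hf hu0 a b (px a)
  simpa using this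

lemma abs_le_nd (a b : X) : |f (px a) - f (px b)| ≤ nd f px u a b := by
  apply le_ciInf
  intro z
  have := gg_nonneg hf z (hu0 a b)
  have h2 := abs_sub_le (f (px a)) (f z) (f (px b))
  linarith

lemma nd_self (hu : ∀ a, u a a = 0) (a : X) : nd f px u a a = 0 := by
  apply le_antisymm _ (nd_nonneg hf hu0 a a)
  have := nd_le' (px := px) hf hu0 a a
  rw [hu, gg_zero] at this
  simpa using this

lemma nd_comm (hus : ∀ a b, u a b = u b a) (a b : X) : nd f px u a b = nd f px u b a := by
  unfold nd
  congr 1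
  ext z
  rw [hus a b, abs_sub_comm (f (px a)) (f z), abs_sub_comm (f z) (f (px b))]
  ring

lemma nd_triangle (hult : ∀ a b c, u a c ≤ max (u a b) (u b c)) (a b c : X) :
    nd f px u a c ≤ nd f px u a b + nd f px u b c := by
  have hbc := abs_le_nd (px := px) hf hu0 b c
  have hab := abs_le_nd (px := px) hf hu0 a b
  by_cases h : u a c ≤ u a b
  · have : nd f px u a c - nd f px u b c ≤ nd f px u a b := by
      apply le_ciInf
      intro z
      have h1 := nd_le (px := px) hf hu0 a c z
      have h2 := gg_mono hf z h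
      have h3 := abs_sub_le (f z) (f (px b)) (f (px c))
      linarith
    linarith
  · push Not at h
    have h' : u a c ≤ u b c := by
      have := hult a b c
      rcases le_max_iff.mp this with h1 | h1
      · linarith
      · exact h1
    have : nd f px u a c - nd f px u a b ≤ nd f px u b c := by
      apply le_ciInf
      intro z
      have h1 := nd_le (px := px) hf hu0 a c z
      have h2 := gg_mono hf z h'
      have h3 := abs_sub_le (f (px a)) (f (px b)) (f z)
      linarith
    linarith

lemma gg_u_le_nd {M : ℝ} (hM : 1 ≤ M)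
    (hq : ∀ x t : ℝ, 0 < t → f (x + t) - f x ≤ M * (f x - f (x - t)) ∧
      f x - f (x - t) ≤ M * (f (x + t) - f x)) (a b : X) :
    gg f (u a b) (px a) ≤ (1 + M) ^ 2 * nd f px u a b := by
  have hpos : 0 < (1 + M) ^ 2 := by positivity
  rw [← div_le_iff₀' hpos]
  apply le_ciInf
  intro z
  rw [div_le_iff₀' hpos]
  have hu := hu0 a b
  set r := u a b
  set x := px a
  have hd : gg f r x ≤ (1 + M) * gg f (r / 2) x := by
    have := gg_double hq x (t := r / 2) (by positivity)
    have e : 2 * (r / 2) = r := by ring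
    rwa [e] at this
  have hgz := gg_nonneg hf z hu
  have hg2 := gg_nonneg hf x (r := r / 2) (by positivity)
  have hA : 0 ≤ |f x - f z| := abs_nonneg _
  have hB : 0 ≤ |f z - f (px b)| := abs_nonneg _
  by_cases h1 : |z - x| ≤ r / 2
  · have h2 : gg f (r / 2) x ≤ gg f r z := by
      unfold gg
      rw [abs_le] at h1
      have h3 := hf.monotone (show x + r / 2 ≤ z + r by linarith)
      have h4 := hf.monotone (show z - r ≤ x - r / 2 by linarith)
      linarith
    have h5 : (1 + M) * gg f (r / 2) x ≤ (1 + M) ^ 2 * gg f (r / 2) x := by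
      apply mul_le_mul_of_nonneg_right _ hg2
      nlinarith
    calc gg f r x ≤ (1 + M) ^ 2 * gg f (r / 2) x := hd.trans h5
      _ ≤ (1 + M) ^ 2 * gg f r z := by gcongr
      _ ≤ (1 + M) ^ 2 * (|f x - f z| + gg f r z + |f z - f (px b)|) := by
          gcongr; linarith
  · push Not at h1
    have h2 : gg f (r / 2) x ≤ (1 + M) * |f x - f z| := by
      rcases le_total x z with h3 | h3
      · rw [abs_of_nonneg (by linarith)] at h1
        have h4 := gg_le_right hq x (t := r / 2) (by positivity)
        have h5 := hf.monotone (show x + r / 2 ≤ z by linarith)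
        have h6 : f x ≤ f z := hf.monotone h3
        rw [abs_of_nonpos (by linarith)]
        have : (1 + M) * (f (x + r / 2) - f x) ≤ (1 + M) * (-(f x - f z)) := by
          gcongr; linarith
        linarith
      · rw [abs_of_nonpos (by linarith)] at h1
        have h4 := gg_le_left hq x (t := r / 2) (by positivity)
        have h5 := hf.monotone (show z ≤ x - r / 2 by linarith)
        have h6 : f z ≤ f x := hf.monotone h3
        rw [abs_of_nonneg (by linarith)]
        have : (1 + M) * (f x - f (x - r / 2)) ≤ (1 + M) * (f x - f z) := by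
          gcongr
        linarith
    calc gg f r x ≤ (1 + M) * gg f (r / 2) x := hd
      _ ≤ (1 + M) * ((1 + M) * |f x - f z|) := by gcongr
      _ = (1 + M) ^ 2 * |f x - f z| := by ring
      _ ≤ (1 + M) ^ 2 * (|f x - f z| + gg f r z + |f z - f (px b)|) := by
          gcongr; linarith

lemma gg_x_le_nd {M : ℝ} (hM : 1 ≤ M)
    (hq : ∀ x t : ℝ, 0 < t → f (x + t) - f x ≤ M * (f x - f (x - t)) ∧
      f x - f (x - t) ≤ M * (f (x + t) - f x)) (a b : X) :
    gg f |px a - px b| (px a) ≤ (1 + M) ^ 2 * nd f px u a b := by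
  have h0 := abs_le_nd (px := px) hf hu0 a b
  have h1 : gg f |px a - px b| (px a) ≤ (1 + M) * |f (px a) - f (px b)| := by
    rcases le_total (px a) (px b) with h | h
    · rw [abs_of_nonpos (by linarith)]
      have h2 := gg_le_right hq (px a) (t := -(px a - px b)) (by linarith)
      have e : px a + -(px a - px b) = px b := by ring
      rw [e] at h2
      have h3 : f (px a) ≤ f (px b) := hf.monotone h
      rw [abs_of_nonpos (by linarith)]
      linarith
    · rw [abs_of_nonneg (by linarith)]
      have h2 := gg_le_left hq (px a) (t := (px a - px b)) (by linarith)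
      have e : px a - (px a - px b) = px b := by ring
      rw [e] at h2
      have h3 : f (px b) ≤ f (px a) := hf.monotone h
      rw [abs_of_nonneg (by linarith)]
      linarith
  have hn := nd_nonneg (px := px) hf hu0 a b
  have h2 : (1 + M) * |f (px a) - f (px b)| ≤ (1 + M) ^ 2 * nd f px u a b := by
    rw [pow_two, mul_assoc]
    gcongr
    nlinarith
  linarith

end Metric

/-- The abstract quasisymmetric change of metric. -/
theorem exists_metric {X : Type} [mX : MetricSpace X] {f : ℝ → ℝ} {px : X → ℝ} {u : X → X → ℝ}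
    {M L : ℝ} (hf : StrictMono f) (hM : 1 ≤ M) (hL : 1 ≤ L)
    (hq : ∀ x t : ℝ, 0 < t → f (x + t) - f x ≤ M * (f x - f (x - t)) ∧
      f x - f (x - t) ≤ M * (f (x + t) - f x))
    (hu0 : ∀ a b, 0 ≤ u a b) (hu : ∀ a, u a a = 0) (hus : ∀ a b, u a b = u b a)
    (hult : ∀ a b c, u a c ≤ max (u a b) (u b c))
    (h1 : ∀ a b : X, |px a - px b| ≤ L * dist a b) (h2 : ∀ a b : X, u a b ≤ L * dist a b)
    (h3 : ∀ a b : X, dist a b ≤ L * max |px a - px b| (u a b)) :
    ∃ mY : MetricSpace X,
      (∀ a b : X, mY.dist a b ≤ gg f (u a b) (px a) + |f (px a) - f (px b)|) ∧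
      ∃ η : ℝ → ℝ, η 0 = 0 ∧ ContinuousOn η (Set.Ici 0) ∧ StrictMonoOn η (Set.Ici 0) ∧
        ∀ x a b : X, ∀ t : ℝ, 0 ≤ t → mX.dist x a ≤ t * mX.dist x b →
          mY.dist x a ≤ η t * mY.dist x b := by
  have hM0 : 0 < M := by linarith
  have hL0 : 0 < L := by linarith
  -- upper comparison
  have hup : ∀ a b : X, nd f px u a b ≤ 2 * gg f (L * mX.dist a b) (px a) := by
    intro a b
    have e1 := nd_le' (px := px) hf hu0 a b
    have e2 := gg_mono hf (px a) (h2 a b)
    have e3 := gg_mono hf (px a) (h1 a b)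
    have e4 : |f (px a) - f (px b)| ≤ gg f |px a - px b| (px a) := by
      unfold gg
      rcases le_total (px a) (px b) with h | h
      · rw [abs_of_nonpos (a := px a - px b) (by linarith)]
        have h3 : f (px a) ≤ f (px b) := hf.monotone h
        rw [abs_of_nonpos (by linarith)]
        have e : px a + -(px a - px b) = px b := by ring
        rw [e]
        have := hf.monotone (show px a - -(px a - px b) ≤ px a by linarith)
        linarith
      · rw [abs_of_nonneg (a := px a - px b) (by linarith)]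
        have h3 : f (px b) ≤ f (px a) := hf.monotone h
        rw [abs_of_nonneg (by linarith)]
        have e : px a - (px a - px b) = px b := by ring
        rw [e]
        have := hf.monotone (show px a ≤ px a + (px a - px b) by linarith)
        linarith
    change gg f (u a b) (px a) ≤ gg f (L * mX.dist a b) (px a) at e2
    change gg f |px a - px b| (px a) ≤ gg f (L * mX.dist a b) (px a) at e3
    linarith
  -- lower comparison
  have hlow : ∀ a b : X, gg f (mX.dist a b / L) (px a) ≤ (1 + M) ^ 2 * nd f px u a b := by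
    intro a b
    have e0 : mX.dist a b / L ≤ max |px a - px b| (u a b) := by
      rw [div_le_iff₀' hL0]; exact h3 a b
    rcases le_max_iff.mp e0 with e1 | e1
    · exact (gg_mono hf (px a) e1).trans (gg_x_le_nd hf hu0 hM hq a b)
    · exact (gg_mono hf (px a) e1).trans (gg_u_le_nd hf hu0 hM hq a b)
  let mY : MetricSpace X :=
    { dist := nd f px u
      dist_self := nd_self hf hu0 hu
      dist_comm := nd_comm hf hu0 hus
      dist_triangle := nd_triangle hf hu0 hult
      eq_of_dist_eq_zero := by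
        intro a b hab
        have e := hlow a b
        have hab' : nd f px u a b = 0 := hab
        rw [hab', mul_zero] at e
        by_contra hne
        have hd : 0 < mX.dist a b := dist_pos.mpr hne
        have := gg_pos hf (px a) (r := mX.dist a b / L) (by positivity)
        linarith }
  refine ⟨mY, fun a b => nd_le' hf hu0 a b, ?_⟩
  set al := Real.logb 2 (1 + 1 / M) with hal
  set be := Real.logb 2 (1 + M) with hbe
  have hal0 : 0 < al := Real.logb_pos (by norm_num) (by simp; linarith)
  have hbe0 : 0 < be := Real.logb_pos (by norm_num) (by linarith)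
  have hC : 0 < 2 * (1 + M) ^ 3 := by positivity
  refine ⟨fun t => 2 * (1 + M) ^ 3 * ((L ^ 2 * t) ^ al + (L ^ 2 * t) ^ be), ?_, ?_, ?_, ?_⟩
  · simp [Real.zero_rpow hal0.ne', Real.zero_rpow hbe0.ne']
  · apply ContinuousOn.mul continuousOn_const
    apply ContinuousOn.add
    · apply ContinuousOn.rpow_const (by fun_prop)
      intro x _; right; exact hal0.le
    · apply ContinuousOn.rpow_const (by fun_prop)
      intro x _; right; exact hbe0.le
  · intro x hx y hy hxy
    simp only [Set.mem_Ici] at hx hy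
    have hL2 : 0 < L ^ 2 := by positivity
    have k1 : (L ^ 2 * x) ^ al < (L ^ 2 * y) ^ al :=
      Real.rpow_lt_rpow (by positivity) (by gcongr) hal0
    have k2 : (L ^ 2 * x) ^ be < (L ^ 2 * y) ^ be :=
      Real.rpow_lt_rpow (by positivity) (by gcongr) hbe0
    have k3 : (L ^ 2 * x) ^ al + (L ^ 2 * x) ^ be < (L ^ 2 * y) ^ al + (L ^ 2 * y) ^ be := by
      linarith
    exact mul_lt_mul_of_pos_left k3 hC
  · intro x a b t ht hxab
    change nd f px u x a ≤ _ * nd f px u x b
    have hnb := nd_nonneg (px := px) hf hu0 x b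
    rcases ht.eq_or_lt with h | h
    · subst h
      rw [zero_mul] at hxab
      have hxa : x = a := by
        apply mX.eq_of_dist_eq_zero
        exact le_antisymm hxab (@dist_nonneg X mX.toPseudoMetricSpace x a)
      subst hxa
      rw [nd_self hf hu0 hu]
      simp [Real.zero_rpow hal0.ne', Real.zero_rpow hbe0.ne']
    · have hdb : 0 ≤ mX.dist x b := @dist_nonneg X mX.toPseudoMetricSpace x b
      have c1 := hup x a
      have c2 := gg_mono hf (px x) (show L * mX.dist x a ≤ (L ^ 2 * t) * (mX.dist x b / L) by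
        have : (L ^ 2 * t) * (mX.dist x b / L) = L * (t * mX.dist x b) := by
          field_simp
        rw [this]; gcongr)
      have c3 := gg_scale hq hf (px x) hM (ρ := mX.dist x b / L) (t := L ^ 2 * t)
        (by positivity) (by positivity)
      have c4 := hlow x b
      rw [← hal, ← hbe] at c3
      have hE : 0 ≤ (L ^ 2 * t) ^ al + (L ^ 2 * t) ^ be := by positivity
      calc nd f px u x a ≤ 2 * gg f (L * mX.dist x a) (px x) := c1
        _ ≤ 2 * gg f ((L ^ 2 * t) * (mX.dist x b / L)) (px x) := by gcongr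
        _ ≤ 2 * ((1 + M) * ((L ^ 2 * t) ^ al + (L ^ 2 * t) ^ be) * gg f (mX.dist x b / L) (px x)) := by
            gcongr
        _ ≤ 2 * ((1 + M) * ((L ^ 2 * t) ^ al + (L ^ 2 * t) ^ be) *
            ((1 + M) ^ 2 * nd f px u x b)) := by
            gcongr
        _ = 2 * (1 + M) ^ 3 * ((L ^ 2 * t) ^ al + (L ^ 2 * t) ^ be) * nd f px u x b := by ring

end Pool.Agent.H278R3
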