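import Mathlib
import Pool.Agent.H278R3.BMFun
import Pool.Agent.H278R3.BMMetric
import Pool.Agent.H278R3.BMDigits

set_option autoImplicit false

namespace Pool.Agent.H278R3

open Set

/-- chosen rectangles: all eight columns contain row `0`; columns 1..4 contain rows 0..15. -/
@[irreducible] def DD : Finset (Fin 64 × Fin 8) :=
  Finset.univ.filter (fun d => d.1.val = 0 ∨ ((1 ≤ d.2.val ∧ d.2.val ≤ 4) ∧ d.1.val < 16))

lemma mem_DD (d : Fin 64 × Fin 8) :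
    d ∈ DD ↔ (d.1.val = 0 ∨ ((1 ≤ d.2.val ∧ d.2.val ≤ 4) ∧ d.1.val < 16)) := by
  unfold DD
  simp

lemma DD_row (d : Fin 64 × Fin 8) (hd : d ∈ DD) : d.1.val ≤ 15 := by
  rw [mem_DD] at hd
  omega

lemma DD_zero_mem (i : Fin 64) (hi : i.val = 0) (j : Fin 8) : (i, j) ∈ DD :=
  (mem_DD (i, j)).mpr (Or.inl hi)

abbrev Cod := ℕ → {d : Fin 64 × Fin 8 // d ∈ DD}

noncomputable def ycoord (δ : Cod) : ℝ := Real.ofDigits (fun i => (δ i).1.1)
noncomputable def xcoord (δ : Cod) : ℝ := Real.ofDigits (fun i => (δ i).1.2)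
noncomputable def pt (δ : Cod) : ℝ × ℝ := (ycoord δ, xcoord δ)

noncomputable def KK : Set (ℝ × ℝ) := range pt


lemma pt_continuous : Continuous pt := by
  unfold pt
  apply Continuous.prodMk
  · unfold ycoord
    apply Real.continuous_ofDigits.comp
    apply continuous_pi
    intro i
    exact (continuous_fst.comp continuous_subtype_val).comp (continuous_apply i)
  · unfold xcoord
    apply Real.continuous_ofDigits.comp
    apply continuous_pi
    intro i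
    exact (continuous_snd.comp continuous_subtype_val).comp (continuous_apply i)

lemma KK_compact : IsCompact KK := isCompact_range pt_continuous

lemma KK_nonempty : KK.Nonempty := ⟨_, mem_range_self (fun _ => ⟨(⟨0, by norm_num⟩, ⟨0, by norm_num⟩), DD_zero_mem _ rfl _⟩)⟩

lemma pt_step (δ : Cod) : pt δ =
    ((ycoord (fun i => δ (i + 1)) + (((δ 0).1.1 : ℕ) : ℝ)) / ((64 : ℕ) : ℝ),
     (xcoord (fun i => δ (i + 1)) + (((δ 0).1.2 : ℕ) : ℝ)) / ((8 : ℕ) : ℝ)) := by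
  unfold pt
  refine Prod.ext ?_ ?_
  · simp only [ycoord]
    rw [ofDigits_step]
    rw [add_comm]
  · simp only [xcoord]
    rw [ofDigits_step]
    rw [add_comm]

lemma KK_eq : KK = ⋃ d ∈ DD, (fun p : ℝ × ℝ =>
    ((p.1 + ((d.1 : ℕ) : ℝ)) / ((64 : ℕ) : ℝ), (p.2 + ((d.2 : ℕ) : ℝ)) / ((8 : ℕ) : ℝ))) '' KK := by
  ext P
  simp only [mem_iUnion, mem_image]
  constructor
  · rintro ⟨δ, rfl⟩
    refine ⟨(δ 0).1, (δ 0).2, pt (fun i => δ (i + 1)), mem_range_self _, ?_⟩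
    rw [pt_step δ]
    rfl
  · rintro ⟨d, hd, Q, ⟨δ, rfl⟩, rfl⟩
    refine ⟨fun i => Nat.casesOn i ⟨d, hd⟩ (fun n => δ n), ?_⟩
    rw [pt_step]
    rfl

lemma floor_y (δ : Cod) (k : ℕ) : ⌊(64 : ℝ) ^ k * ycoord δ⌋ = idx (fun i => (δ i).1.1) k := by
  have h1 := pow_mul_ofDigits (by norm_num : 0 < 64) (fun i => (δ i).1.1) k
  have h2 := ofDigits_bounds (by norm_num : 1 < 64) (fun i => (δ (i + k)).1.1) 0 15
    (fun i => Nat.zero_le _) (fun i => DD_row _ (δ (i + k)).2)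
  unfold ycoord
  push_cast at h1 h2
  rw [h1, Int.floor_eq_iff]
  constructor <;> norm_num at h2 ⊢ <;> linarith

lemma xcoord_mem (δ : Cod) : xcoord δ ∈ Icc (0 : ℝ) 1 :=
  ⟨Real.ofDigits_nonneg _, Real.ofDigits_le_one _⟩

lemma ycoord_mem (δ : Cod) : ycoord δ ∈ Icc (0 : ℝ) 1 :=
  ⟨Real.ofDigits_nonneg _, Real.ofDigits_le_one _⟩

lemma U_le_y (δ δ' : Cod) : U (ycoord δ) (ycoord δ') ≤ 2 * |ycoord δ - ycoord δ'| := by
  apply ciSup_le
  intro k
  split_ifs with h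
  · positivity
  · rw [floor_y, floor_y] at h
    have := ofDigits_sep (by norm_num : 1 < 64) (fun i => (δ i).1.1) (fun i => (δ' i).1.1) 0 15
      (fun i => Nat.zero_le _) (fun i => DD_row _ (δ i).2)
      (fun i => Nat.zero_le _) (fun i => DD_row _ (δ' i).2) (by norm_num) k h
    rw [inv_le_iff_one_le_mul₀ (by positivity)]
    unfold ycoord
    push_cast at this
    linarith

lemma ww_idx (a : ℕ → Fin 8) (k : ℕ) :
    ww k (idx a k) = ∏ s ∈ Finset.range k, qw (((a s : ℕ)) : ℤ) := by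
  induction k with
  | zero => simp [ww]
  | succ k ih =>
    rw [Finset.prod_range_succ, ← ih]
    simp only [ww, idx]
    have h := (a k).isLt
    have h1 : ((8 : ℕ) * idx a k + ((a k : ℕ) : ℤ)) / 8 = idx a k := by push_cast; omega
    have h2 : ((8 : ℕ) * idx a k + ((a k : ℕ) : ℤ)) % 8 = ((a k : ℕ) : ℤ) := by push_cast; omega
    rw [h1, h2]

/-- the carpet as a metric space and the new metric -/
theorem exists_new_metric :
    ∃ mY : MetricSpace KK,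
      (∀ a b : KK, mY.dist a b ≤ gg ff (U a.1.1 b.1.1) a.1.2 + |ff a.1.2 - ff b.1.2|) ∧
      ∃ η : ℝ → ℝ, η 0 = 0 ∧ ContinuousOn η (Set.Ici 0) ∧ StrictMonoOn η (Set.Ici 0) ∧
        ∀ x a b : KK, ∀ t : ℝ, 0 ≤ t → dist x a ≤ t * dist x b →
          mY.dist x a ≤ η t * mY.dist x b := by
  apply exists_metric (X := KK) (f := ff) (px := fun a => a.1.2) (u := fun a b => U a.1.1 b.1.1)
    (M := MM) (L := 64) ff_strictMono (by unfold MM; norm_num) (by norm_num) ff_qs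
  · intro a b; exact U_nonneg _ _
  · intro a; exact U_self _
  · intro a b; exact U_comm _ _
  · intro a b c; exact U_ultra _ _ _
  · intro a b
    have h1 : |a.1.2 - b.1.2| ≤ dist a b := by
      rw [Subtype.dist_eq, Prod.dist_eq, Real.dist_eq, Real.dist_eq]
      exact le_max_right _ _
    have h2 : 0 ≤ dist a b := dist_nonneg
    linarith
  · intro a b
    obtain ⟨δ, hδ⟩ := a.2
    obtain ⟨δ', hδ'⟩ := b.2
    have h1 : |a.1.1 - b.1.1| ≤ dist a b := by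
      rw [Subtype.dist_eq, Prod.dist_eq, Real.dist_eq, Real.dist_eq]
      exact le_max_left _ _
    have h2 : 0 ≤ dist a b := dist_nonneg
    have h3 := U_le_y δ δ'
    have e1 : a.1.1 = ycoord δ := by rw [← hδ]; rfl
    have e2 : b.1.1 = ycoord δ' := by rw [← hδ']; rfl
    rw [e1, e2] at h1
    rw [e1, e2]
    linarith
  · intro a b
    obtain ⟨δ, hδ⟩ := a.2
    obtain ⟨δ', hδ'⟩ := b.2
    have e1 : a.1.1 = ycoord δ := by rw [← hδ]; rfl
    have e2 : b.1.1 = ycoord δ' := by rw [← hδ']; rfl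
    rw [Subtype.dist_eq, Prod.dist_eq, Real.dist_eq, Real.dist_eq]
    have hab : |a.1.1 - b.1.1| ≤ 1 := by
      rw [e1, e2, abs_le]
      have := ycoord_mem δ
      have := ycoord_mem δ'
      simp only [mem_Icc] at *
      constructor <;> linarith
    have h1 := U_lower _ _ hab
    have h0 := abs_nonneg (a.1.2 - b.1.2)
    apply max_le
    · refine h1.trans ?_
      gcongr
      exact le_max_right _ _
    · have : |a.1.2 - b.1.2| ≤ max |a.1.2 - b.1.2| (U a.1.1 b.1.1) := le_max_left _ _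
      linarith

/-- cells of level `l` -/
def cell (l : ℕ) (p : (Fin l → {d : Fin 64 × Fin 8 // d ∈ DD}) × (Fin l → Fin 8)) : Set KK :=
  {P | ∃ δ : Cod, pt δ = P.1 ∧ (∀ s : Fin l, δ s = p.1 s) ∧ (∀ s : Fin l, (δ (l + s)).1.2 = p.2 s)}

lemma cell_cover (l : ℕ) : (univ : Set KK) ⊆ ⋃ p, cell l p := by
  rintro ⟨P, δ, hδ⟩ _
  rw [mem_iUnion]
  exact ⟨(fun s => δ s, fun s => (δ (l + s)).1.2), δ, hδ, fun s => rfl, fun s => rfl⟩

/-- weight of a cell -/
noncomputable def cwt (l : ℕ) (p : (Fin l → {d : Fin 64 × Fin 8 // d ∈ DD}) × (Fin l → Fin 8)) : ℝ :=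
  (∏ s, qw (((p.1 s).1.2 : ℕ) : ℤ)) * ∏ s, qw (((p.2 s : ℕ)) : ℤ)

lemma cwt_nonneg (l : ℕ) (p : (Fin l → {d : Fin 64 × Fin 8 // d ∈ DD}) × (Fin l → Fin 8)) :
    0 ≤ cwt l p := by
  unfold cwt
  apply mul_nonneg <;> exact Finset.prod_nonneg (fun i _ => (qw_pos _).le)

lemma ww_cell (l : ℕ) (p : (Fin l → {d : Fin 64 × Fin 8 // d ∈ DD}) × (Fin l → Fin 8)) (δ : Cod)
    (h1 : ∀ s : Fin l, δ s = p.1 s) (h2 : ∀ s : Fin l, (δ (l + s)).1.2 = p.2 s) :
    ww (l + l) (idx (fun i => (δ i).1.2) (l + l)) = cwt l p := by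
  rw [ww_idx, Finset.prod_range_add, cwt, Finset.prod_range, Finset.prod_range]
  congr 1
  · apply Finset.prod_congr rfl
    intro s _
    rw [h1 s]
  · apply Finset.prod_congr rfl
    intro s _
    rw [h2 s]

lemma cell_dist (l : ℕ) (p : (Fin l → {d : Fin 64 × Fin 8 // d ∈ DD}) × (Fin l → Fin 8))
    (P Q : KK) (hP : P ∈ cell l p) (hQ : Q ∈ cell l p) :
    gg ff (U P.1.1 Q.1.1) P.1.2 + |ff P.1.2 - ff Q.1.2| ≤ 128 * cwt l p := by
  obtain ⟨δ, hδ, h1, h2⟩ := hP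
  obtain ⟨δ', hδ', h1', h2'⟩ := hQ
  have hw := ww_cell l p δ h1 h2
  have hagree : ∀ i < l + l, (δ i).1.2 = (δ' i).1.2 := by
    intro i hi
    by_cases hil : i < l
    · have e1 := h1 ⟨i, hil⟩
      have e2 := h1' ⟨i, hil⟩
      simp only at e1 e2
      rw [e1, e2]
    · have e1 := h2 ⟨i - l, by omega⟩
      have e2 := h2' ⟨i - l, by omega⟩
      simp only at e1 e2
      have e3 : l + (i - l) = i := by omega
      rw [e3] at e1 e2
      rw [e1, e2]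
  have hidx : idx (fun i => (δ i).1.2) (l + l) = idx (fun i => (δ' i).1.2) (l + l) :=
    idx_congr _ _ _ hagree
  have hyidx : ∀ k ≤ l, ⌊(64 : ℝ) ^ k * P.1.1⌋ = ⌊(64 : ℝ) ^ k * Q.1.1⌋ := by
    intro k hk
    have e1 : P.1.1 = ycoord δ := by rw [← hδ]; rfl
    have e2 : Q.1.1 = ycoord δ' := by rw [← hδ']; rfl
    rw [e1, e2, floor_y, floor_y]
    apply idx_congr
    intro i hi
    have e3 := h1 ⟨i, by omega⟩
    have e4 := h1' ⟨i, by omega⟩
    simp only at e3 e4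
    rw [e3, e4]
  have hU := U_le_of_agree _ _ l hyidx
  have hU0 := U_nonneg P.1.1 Q.1.1
  set j := idx (fun i => (δ i).1.2) (l + l) with hj
  have hxP : (8 : ℝ) ^ (l + l) * P.1.2 = j + Real.ofDigits (fun i => (δ (i + (l + l))).1.2) := by
    have e1 : P.1.2 = xcoord δ := by rw [← hδ]; rfl
    have := pow_mul_ofDigits (by norm_num : 0 < 8) (fun i => (δ i).1.2) (l + l)
    rw [e1]
    unfold xcoord
    push_cast at this
    exact this
  have hxQ : (8 : ℝ) ^ (l + l) * Q.1.2 = j + Real.ofDigits (fun i => (δ' (i + (l + l))).1.2) := by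
    have e1 : Q.1.2 = xcoord δ' := by rw [← hδ']; rfl
    have := pow_mul_ofDigits (by norm_num : 0 < 8) (fun i => (δ' i).1.2) (l + l)
    rw [e1, hidx]
    unfold xcoord
    push_cast at this
    exact this
  have tP0 := Real.ofDigits_nonneg (fun i => (δ (i + (l + l))).1.2)
  have tP1 := Real.ofDigits_le_one (fun i => (δ (i + (l + l))).1.2)
  have tQ0 := Real.ofDigits_nonneg (fun i => (δ' (i + (l + l))).1.2)
  have tQ1 := Real.ofDigits_le_one (fun i => (δ' (i + (l + l))).1.2)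
  have hpow : (8 : ℝ) ^ (l + l) * ((64 : ℝ) ^ l)⁻¹ = 1 := by
    rw [pow_add, ← mul_pow]; norm_num
  have hpos : (0 : ℝ) ≤ 8 ^ (l + l) := by positivity
  have hUs : (8 : ℝ) ^ (l + l) * U P.1.1 Q.1.1 ≤ 1 := by
    calc (8 : ℝ) ^ (l + l) * U P.1.1 Q.1.1 ≤ (8 : ℝ) ^ (l + l) * ((64 : ℝ) ^ l)⁻¹ := by gcongr
      _ = 1 := hpow
  have A1 : ff (P.1.2 + U P.1.1 Q.1.1) ≤ FF (l + l) (j + 2) := by
    apply ff_le
    push_cast
    rw [mul_add]; linarith
  have A2 : FF (l + l) (j - 1) ≤ ff (P.1.2 - U P.1.1 Q.1.1) := by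
    apply le_ff
    push_cast
    rw [mul_sub]; linarith
  have B1 : ff P.1.2 ≤ FF (l + l) (j + 1) := by
    apply ff_le; push_cast; linarith
  have B2 : FF (l + l) j ≤ ff P.1.2 := by
    apply le_ff; linarith
  have C1 : ff Q.1.2 ≤ FF (l + l) (j + 1) := by
    apply ff_le; push_cast; linarith
  have C2 : FF (l + l) j ≤ ff Q.1.2 := by
    apply le_ff; linarith
  have E1 : FF (l + l) (j + 2) = FF (l + l) j + ww (l + l) j + ww (l + l) (j + 1) := by
    have : j + 2 = (j + 1) + 1 := by ring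
    rw [this, FF_succ, FF_succ]
  have E2 : FF (l + l) j = FF (l + l) (j - 1) + ww (l + l) (j - 1) := by
    have := FF_succ (l + l) (j - 1)
    rwa [sub_add_cancel] at this
  have E3 := FF_succ (l + l) j
  have W1 := (ww_adj (l + l) j).1
  have W2 := (ww_adj (l + l) (j - 1)).2
  rw [sub_add_cancel] at W2
  have W3 := (ww_adj (l + l) (j - 1)).2
  have hab : |ff P.1.2 - ff Q.1.2| ≤ ww (l + l) j := by
    rw [abs_le]; constructor <;> linarith
  unfold gg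
  rw [← hw]
  have W4 : ww (l + l) (j - 1) ≤ 63 * ww (l + l) j := by
    rw [sub_add_cancel] at W3
    exact W3
  linarith

lemma DD_card_in : (DD.filter (fun d => 1 ≤ d.2.val ∧ d.2.val ≤ 4)).card = 64 := by
  unfold DD; decide +kernel

lemma DD_card_out : (DD.filter (fun d => ¬ (1 ≤ d.2.val ∧ d.2.val ≤ 4))).card = 4 := by
  unfold DD; decide +kernel

lemma rp1 : ((1 : ℝ) / 256) ^ (5 / 4 : ℝ) = 1 / 1024 := by
  have : ((1 : ℝ) / 256) = (1 / 4) ^ (4 : ℕ) := by norm_num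
  rw [this, ← Real.rpow_natCast, ← Real.rpow_mul (by norm_num)]
  have : ((4 : ℕ) : ℝ) * (5 / 4 : ℝ) = ((5 : ℕ) : ℝ) := by norm_num
  rw [this, Real.rpow_natCast]
  norm_num

lemma rp2 : ((63 : ℝ) / 256) ^ (5 / 4 : ℝ) ≤ 0.177 := by
  have h3 : ((63 : ℝ) / 256) ^ (5 / 4 : ℝ) ≤ ((1 : ℝ) / 4) ^ (5 / 4 : ℝ) := by
    apply Real.rpow_le_rpow <;> norm_num
  refine h3.trans ?_
  apply le_of_pow_le_pow_left₀ (n := 4) (by norm_num) (by norm_num)
  rw [← Real.rpow_natCast, ← Real.rpow_mul (by norm_num)]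
  have : (5 / 4 : ℝ) * ((4 : ℕ) : ℝ) = ((5 : ℕ) : ℝ) := by norm_num
  rw [this, Real.rpow_natCast]
  norm_num

lemma qw_rpow_sum_D :
    ∑ d : {d : Fin 64 × Fin 8 // d ∈ DD}, (qw (((d.1.2 : ℕ)) : ℤ)) ^ (5 / 4 : ℝ) ≤ 0.78 := by
  rw [Finset.sum_coe_sort DD (fun d => (qw (((d.2 : ℕ)) : ℤ)) ^ (5 / 4 : ℝ))]
  rw [← Finset.sum_filter_add_sum_filter_not DD (fun d => 1 ≤ d.2.val ∧ d.2.val ≤ 4)]
  have e1 : ∑ d ∈ DD.filter (fun d => 1 ≤ d.2.val ∧ d.2.val ≤ 4),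
      (qw (((d.2 : ℕ)) : ℤ)) ^ (5 / 4 : ℝ) = 64 * (1 / 1024) := by
    rw [Finset.sum_congr rfl (g := fun _ => (1 / 1024 : ℝ)), Finset.sum_const, DD_card_in]
    · norm_num
    · intro d hd
      have h := (Finset.mem_filter.mp hd).2
      have : qw (((d.2 : ℕ)) : ℤ) = 1 / 256 := by
        unfold qw; rw [if_pos]; constructor <;> omega
      rw [this, rp1]
  have e2 : ∑ d ∈ DD.filter (fun d => ¬ (1 ≤ d.2.val ∧ d.2.val ≤ 4)),
      (qw (((d.2 : ℕ)) : ℤ)) ^ (5 / 4 : ℝ) ≤ 4 * 0.177 := by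
    calc _ ≤ ∑ d ∈ DD.filter (fun d => ¬ (1 ≤ d.2.val ∧ d.2.val ≤ 4)), (0.177 : ℝ) := by
          apply Finset.sum_le_sum
          intro d hd
          have h := (Finset.mem_filter.mp hd).2
          have : qw (((d.2 : ℕ)) : ℤ) = 63 / 256 := by
            unfold qw; rw [if_neg]; intro h'; apply h; constructor <;> omega
          rw [this]; exact rp2
      _ = 4 * 0.177 := by rw [Finset.sum_const, DD_card_out]; norm_num
  rw [e1]
  linarith

lemma qw_rpow_sum_C : ∑ j : Fin 8, (qw (((j : ℕ)) : ℤ)) ^ (5 / 4 : ℝ) ≤ 0.72 := by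
  have h := rp2
  rw [Fin.sum_univ_eight]
  simp only [qw]
  norm_num [rp1] at h ⊢
  linarith

open MeasureTheory Filter Topology in
/-- covering bound for the Hausdorff dimension -/
theorem dim_upper_gen {Y : Type} [MetricSpace Y] {ι : ℕ → Type} [∀ l, Fintype (ι l)]
    (T : ∀ l, ι l → Set Y) (wt : ∀ l, ι l → ℝ) (C : ℝ) (hC : 0 ≤ C) (s : NNReal) (hs : 0 < s)
    (hw0 : ∀ l p, 0 ≤ wt l p)
    (hT : ∀ l p, ∀ P ∈ T l p, ∀ Q ∈ T l p, dist P Q ≤ C * wt l p)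
    (hcov : ∀ l, (univ : Set Y) ⊆ ⋃ p, T l p)
    (θ : ℝ) (hθ0 : 0 ≤ θ) (hθ : θ < 1) (hsum : ∀ l, ∑ p, (wt l p) ^ (s : ℝ) ≤ θ ^ l)
    (τ : ℝ) (hτ0 : 0 ≤ τ) (hτ : τ < 1) (hmax : ∀ l p, wt l p ≤ τ ^ l) :
    dimH (univ : Set Y) ≤ s := by
  borelize Y
  apply dimH_le_of_hausdorffMeasure_ne_top
  have hdiam : ∀ l p, Metric.ediam (T l p) ≤ ENNReal.ofReal (C * wt l p) := by
    intro l p
    apply Metric.ediam_le
    intro P hP Q hQ
    rw [edist_dist]
    exact ENNReal.ofReal_le_ofReal (hT l p P hP Q hQ)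
  have h1 : μH[(s : ℝ)] (univ : Set Y) ≤
      liminf (fun l => ∑ p, Metric.ediam (T l p) ^ (s : ℝ)) atTop := by
    apply Measure.hausdorffMeasure_le_liminf_sum (s : ℝ) univ
      (fun l => ENNReal.ofReal (C * τ ^ l)) _ T
    · filter_upwards with l p
      exact (hdiam l p).trans (ENNReal.ofReal_le_ofReal (by have := hmax l p; gcongr))
    · filter_upwards with l
      exact hcov l
    · have : Tendsto (fun l : ℕ => C * τ ^ l) atTop (𝓝 (C * 0)) :=
        (tendsto_pow_atTop_nhds_zero_of_lt_one hτ0 hτ).const_mul C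
      rw [mul_zero] at this
      have h2 := ENNReal.tendsto_ofReal this
      rwa [ENNReal.ofReal_zero] at h2
  have h2 : ∀ l, ∑ p, Metric.ediam (T l p) ^ (s : ℝ) ≤ ENNReal.ofReal (C ^ (s : ℝ) * θ ^ l) := by
    intro l
    calc ∑ p, Metric.ediam (T l p) ^ (s : ℝ)
        ≤ ∑ p, ENNReal.ofReal (C ^ (s : ℝ) * (wt l p) ^ (s : ℝ)) := by
          apply Finset.sum_le_sum
          intro p _
          rw [← Real.mul_rpow hC (hw0 l p), ← ENNReal.ofReal_rpow_of_nonneg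
            (mul_nonneg hC (hw0 l p)) (NNReal.coe_nonneg s)]
          exact ENNReal.rpow_le_rpow (hdiam l p) (NNReal.coe_nonneg s)
      _ = ENNReal.ofReal (∑ p, C ^ (s : ℝ) * (wt l p) ^ (s : ℝ)) := by
          rw [ENNReal.ofReal_sum_of_nonneg]
          intro p _
          have := hw0 l p
          positivity
      _ ≤ ENNReal.ofReal (C ^ (s : ℝ) * θ ^ l) := by
          apply ENNReal.ofReal_le_ofReal
          rw [← Finset.mul_sum]
          have := hsum l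
          gcongr
  have h3 : Tendsto (fun l : ℕ => ENNReal.ofReal (C ^ (s : ℝ) * θ ^ l)) atTop (𝓝 0) := by
    have : Tendsto (fun l : ℕ => C ^ (s : ℝ) * θ ^ l) atTop (𝓝 (C ^ (s : ℝ) * 0)) :=
      (tendsto_pow_atTop_nhds_zero_of_lt_one hθ0 hθ).const_mul _
    rw [mul_zero] at this
    have h2 := ENNReal.tendsto_ofReal this
    rwa [ENNReal.ofReal_zero] at h2
  have h4 : liminf (fun l => ∑ p, Metric.ediam (T l p) ^ (s : ℝ)) atTop ≤ 0 := by
    calc liminf (fun l => ∑ p, Metric.ediam (T l p) ^ (s : ℝ)) atTop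
        ≤ liminf (fun l : ℕ => ENNReal.ofReal (C ^ (s : ℝ) * θ ^ l)) atTop :=
          liminf_le_liminf (Eventually.of_forall h2)
      _ = 0 := h3.liminf_eq
  have h5 := h1.trans h4
  exact ne_top_of_le_ne_top ENNReal.zero_ne_top h5

lemma cwt_sum (l : ℕ) : ∑ p, (cwt l p) ^ (5 / 4 : ℝ) ≤ (0.5616 : ℝ) ^ l := by
  have h1 : ∀ p : (Fin l → {d : Fin 64 × Fin 8 // d ∈ DD}) × (Fin l → Fin 8),
      (cwt l p) ^ (5 / 4 : ℝ) = (∏ s, (qw (((p.1 s).1.2 : ℕ) : ℤ)) ^ (5 / 4 : ℝ)) *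
        ∏ s, (qw (((p.2 s : ℕ)) : ℤ)) ^ (5 / 4 : ℝ) := by
    intro p
    unfold cwt
    rw [Real.mul_rpow (Finset.prod_nonneg (fun i _ => (qw_pos _).le))
      (Finset.prod_nonneg (fun i _ => (qw_pos _).le)),
      ← Real.finsetProd_rpow _ _ (fun i _ => (qw_pos _).le),
      ← Real.finsetProd_rpow _ _ (fun i _ => (qw_pos _).le)]
  simp_rw [h1]
  rw [Fintype.sum_prod_type]
  simp_rw [← Finset.mul_sum]
  rw [← Finset.sum_mul]
  rw [← Fintype.sum_pow (fun d : {d : Fin 64 × Fin 8 // d ∈ DD} =>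
      (qw (((d.1.2 : ℕ)) : ℤ)) ^ (5 / 4 : ℝ)),
    ← Fintype.sum_pow (fun j : Fin 8 => (qw (((j : ℕ)) : ℤ)) ^ (5 / 4 : ℝ)), ← mul_pow]
  have a1 := qw_rpow_sum_D
  have a2 := qw_rpow_sum_C
  have b1 : 0 ≤ ∑ d : {d : Fin 64 × Fin 8 // d ∈ DD}, (qw (((d.1.2 : ℕ)) : ℤ)) ^ (5 / 4 : ℝ) :=
    Finset.sum_nonneg (fun i _ => Real.rpow_nonneg (qw_pos _).le _)
  have b2 : 0 ≤ ∑ j : Fin 8, (qw (((j : ℕ)) : ℤ)) ^ (5 / 4 : ℝ) :=
    Finset.sum_nonneg (fun i _ => Real.rpow_nonneg (qw_pos _).le _)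
  apply pow_le_pow_left₀ (mul_nonneg b1 b2)
  nlinarith

lemma cwt_max (l : ℕ) (p : (Fin l → {d : Fin 64 × Fin 8 // d ∈ DD}) × (Fin l → Fin 8)) :
    cwt l p ≤ (1 / 4 : ℝ) ^ l := by
  unfold cwt
  have h1 : (∏ s, qw (((p.1 s).1.2 : ℕ) : ℤ)) ≤ (1 / 4 : ℝ) ^ l := by
    calc (∏ s, qw (((p.1 s).1.2 : ℕ) : ℤ)) ≤ ∏ _s : Fin l, (1 / 4 : ℝ) := by
          apply Finset.prod_le_prod (fun i _ => (qw_pos _).le)
          intro i _
          exact (qw_ub _).trans (by norm_num)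
      _ = _ := by simp
  have h2 : (∏ s, qw (((p.2 s : ℕ)) : ℤ)) ≤ 1 :=
    Finset.prod_le_one (fun i _ => (qw_pos _).le) (fun i _ => (qw_ub _).trans (by norm_num))
  have h3 : 0 ≤ (∏ s, qw (((p.2 s : ℕ)) : ℤ)) := Finset.prod_nonneg (fun i _ => (qw_pos _).le)
  have h4 : (0 : ℝ) ≤ (1 / 4) ^ l := by positivity
  nlinarith

/-- upper bound for the dimension in the new metric -/
theorem dim_upper (mY : MetricSpace KK)
    (hY : ∀ a b : KK, mY.dist a b ≤ gg ff (U a.1.1 b.1.1) a.1.2 + |ff a.1.2 - ff b.1.2|) :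
    @dimH KK mY.toEMetricSpace univ ≤ ((5 / 4 : NNReal) : ENNReal) := by
  apply @dim_upper_gen KK mY
    (fun l => (Fin l → {d : Fin 64 × Fin 8 // d ∈ DD}) × (Fin l → Fin 8)) _
    cell cwt 128 (by norm_num) (5 / 4) (by norm_num) cwt_nonneg
  · intro l p P hP Q hQ
    exact (hY P Q).trans (cell_dist l p P Q hP hQ)
  · exact cell_cover
  · exact (by norm_num : (0 : ℝ) ≤ 0.5616)
  · norm_num
  · intro l
    push_cast
    exact cwt_sum l
  · exact (by norm_num : (0 : ℝ) ≤ 1 / 4)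
  · norm_num
  · exact cwt_max

end Pool.Agent.H278R3
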