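import Mathlib
import Pool.Agent.H278R3.BMCarpet

set_option autoImplicit false

namespace Pool.Agent.H278R3

open Set

def e16 (i : Fin 16) : Fin 64 := ⟨i.val, by have := i.isLt; omega⟩
def e4 (i : Fin 4) : Fin 8 := ⟨i.val + 1, by have := i.isLt; omega⟩

/-- the expanding parametrisation of a subset of the carpet -/
noncomputable def HH (p : ℝ × ℝ) : ℝ × ℝ :=
  (Real.ofDigits (fun i => e16 (Real.digits p.1 16 i)),
   Real.ofDigits (fun i => e4 (Real.digits p.2 4 i)))

lemma HH_mem (p : ℝ × ℝ) : HH p ∈ KK := by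
  have hm : ∀ i : ℕ, (e16 (Real.digits p.1 16 i), e4 (Real.digits p.2 4 i)) ∈ DD := by
    intro i
    rw [mem_DD]
    right
    have h1 := (Real.digits p.1 16 i).isLt
    have h2 := (Real.digits p.2 4 i).isLt
    simp only [e16, e4]
    omega
  exact ⟨fun i => ⟨_, hm i⟩, rfl⟩

def SQ : Set (ℝ × ℝ) := Ico (0 : ℝ) 1 ×ˢ Ico (0 : ℝ) 1

lemma HH_expand (p q : ℝ × ℝ) (hp : p ∈ SQ) (hq : q ∈ SQ) :
    dist p q ≤ 32 * (dist (HH p) (HH q)) ^ (2 / 3 : ℝ) := by
  have h1 := digit_map_expand (b := 64) (β := 16) (by norm_num) (by norm_num) e16 0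
    (fun i => by simp [e16]) (by norm_num) (by norm_num) p.1 q.1 hp.1 hq.1
  have h2 := digit_map_expand (b := 8) (β := 4) (by norm_num) (by norm_num) e4 1
    (fun i => by simp [e4]) (by norm_num) (by norm_num) p.2 q.2 hp.2 hq.2
  have hD : 0 ≤ dist (HH p) (HH q) := dist_nonneg
  have k1 : |(HH p).1 - (HH q).1| ≤ dist (HH p) (HH q) := by
    rw [Prod.dist_eq, Real.dist_eq]; exact le_max_left _ _
  have k2 : |(HH p).2 - (HH q).2| ≤ dist (HH p) (HH q) := by
    rw [Prod.dist_eq, Real.dist_eq, Real.dist_eq]; exact le_max_right _ _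
  have hcube : ∀ t : ℝ, t ^ 3 ≤ 32768 * (dist (HH p) (HH q)) ^ 2 →
      t ≤ 32 * (dist (HH p) (HH q)) ^ (2 / 3 : ℝ) := by
    intro t ht
    apply le_of_pow_le_pow_left₀ (n := 3) (by norm_num) (by positivity)
    refine ht.trans (le_of_eq ?_)
    rw [mul_pow, ← Real.rpow_natCast (dist (HH p) (HH q) ^ (2 / 3 : ℝ)) 3, ← Real.rpow_mul hD]
    have : (2 / 3 : ℝ) * ((3 : ℕ) : ℝ) = ((2 : ℕ) : ℝ) := by norm_num
    rw [this, Real.rpow_natCast]
    norm_num
  rw [Prod.dist_eq, Real.dist_eq, Real.dist_eq]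
  apply max_le
  · apply hcube
    refine h1.trans ?_
    have : |Real.ofDigits (fun i => e16 (Real.digits p.1 16 i)) -
        Real.ofDigits (fun i => e16 (Real.digits q.1 16 i))| ^ 2 ≤ (dist (HH p) (HH q)) ^ 2 :=
      pow_le_pow_left₀ (abs_nonneg _) k1 2
    push_cast
    nlinarith
  · apply hcube
    refine h2.trans ?_
    have : |Real.ofDigits (fun i => e4 (Real.digits p.2 4 i)) -
        Real.ofDigits (fun i => e4 (Real.digits q.2 4 i))| ^ 2 ≤ (dist (HH p) (HH q)) ^ 2 :=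
      pow_le_pow_left₀ (abs_nonneg _) k2 2
    push_cast
    nlinarith

lemma HH_injOn : InjOn HH SQ := by
  intro p hp q hq h
  have h1 := HH_expand p q hp hq
  rw [h, dist_self, Real.zero_rpow (by norm_num), mul_zero] at h1
  exact dist_le_zero.mp h1

theorem dim_lower : ((4 / 3 : NNReal) : ENNReal) ≤ dimH KK := by
  have hsub : HH '' SQ ⊆ KK := by
    rintro _ ⟨p, _, rfl⟩; exact HH_mem p
  refine le_trans ?_ (dimH_mono hsub)
  set G := Function.invFunOn HH SQ with hG
  have hGl : ∀ p ∈ SQ, G (HH p) = p := HH_injOn.leftInvOn_invFunOn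
  have hhol : HolderOnWith 32 (2 / 3) G (HH '' SQ) := by
    rintro _ ⟨p, hp, rfl⟩ _ ⟨q, hq, rfl⟩
    rw [hGl p hp, hGl q hq, edist_dist, edist_dist]
    have h1 := HH_expand p q hp hq
    calc ENNReal.ofReal (dist p q) ≤
        ENNReal.ofReal (32 * (dist (HH p) (HH q)) ^ (2 / 3 : ℝ)) := ENNReal.ofReal_le_ofReal h1
      _ = _ := by
        rw [ENNReal.ofReal_mul (by norm_num), ENNReal.ofReal_rpow_of_nonneg dist_nonneg (by norm_num)]
        congr 1
        · norm_num
  have himg : G '' (HH '' SQ) = SQ := by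
    rw [← image_comp]
    ext p
    constructor
    · rintro ⟨q, hq, rfl⟩
      simp only [Function.comp]
      rw [hGl q hq]; exact hq
    · intro hp
      exact ⟨p, hp, hGl p hp⟩
  have h1 := hhol.dimH_image_le (by norm_num)
  rw [himg] at h1
  have h2 : dimH SQ = 2 := by
    have : (interior SQ).Nonempty := by
      refine ⟨(1 / 2, 1 / 2), ?_⟩
      rw [SQ, interior_prod_eq, interior_Ico]
      constructor <;> norm_num
    rw [Real.dimH_of_nonempty_interior this]
    simp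
  rw [h2] at h1
  have h3 : (2 : ENNReal) * ((2 / 3 : NNReal) : ENNReal) ≤ dimH (HH '' SQ) := by
    have h4 : ((2 / 3 : NNReal) : ENNReal) ≠ 0 := by
      simp
    have h5 : ((2 / 3 : NNReal) : ENNReal) ≠ ⊤ := ENNReal.coe_ne_top
    rwa [ENNReal.le_div_iff_mul_le (Or.inl h4) (Or.inl h5)] at h1
  refine le_trans (le_of_eq ?_) h3
  have : ((4 / 3 : NNReal)) = 2 * (2 / 3 : NNReal) := by
    rw [← NNReal.coe_inj]; push_cast; norm_num
  rw [this]
  push_cast
  rfl

end Pool.Agent.H278R3
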