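import Mathlib
import Pool.Agent.H278R3.Lin2

set_option autoImplicit false

namespace Pool.Agent.H278R3.Lin3
open LPoly SpecDisc Lin1 Lin2

variable {n : ℕ}

theorem q_neg_left (T S : Mat n) : q (-T) S = q T S := by
  unfold q; rw [br_neg_left, neg_sq]
theorem q_neg_right (T S : Mat n) : q T (-S) = q T S := by
  unfold q; rw [br_neg_right, neg_sq]
theorem c_neg_left (T S : Mat n) : c (-T) S = - c T S := by
  unfold c; rw [br_neg_left, Odd.neg_pow (by decide), Matrix.trace_neg]
theorem c_neg_right (T S : Mat n) : c T (-S) = - c T S := by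
  unfold c; rw [br_neg_right, Odd.neg_pow (by decide), Matrix.trace_neg]
theorem q_t0 (T S : Mat n) : q (t0 T) (t0 S) = q T S := by
  unfold q; rw [br_t0]
theorem c_t0 (T S : Mat n) : c (t0 T) (t0 S) = c T S := by
  unfold c; rw [br_t0]

/-- LP genericity for pairs -/
theorem eq_of_reg2 {f g : Mat n × Mat n → ℂ} (hf : LP f) (hg : LP g)
    (h : ∀ T S, D (br T S) ≠ 0 → f (T, S) = g (T, S)) : ∀ T S, f (T, S) = g (T, S) := by
  obtain ⟨T, S, hTS⟩ := exists_good (n := n)
  intro T' S'
  have h1 : LPM (fun p : Mat n × Mat n => p.1) := LPM.linear (LinearMap.fst ℂ (Mat n) (Mat n))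
  have h2 : LPM (fun p : Mat n × Mat n => p.2) := LPM.linear (LinearMap.snd ℂ (Mat n) (Mat n))
  have hF : LP (fun p : Mat n × Mat n => D (br p.1 p.2)) := LP_D h1 h2
  have hne : ∃ p : Mat n × Mat n, D (br p.1 p.2) ≠ 0 := ⟨(T, S), hTS⟩
  have h3 : ∀ p : Mat n × Mat n, D (br p.1 p.2) ≠ 0 → f p = g p := fun p hp => h p.1 p.2 hp
  exact LP.eq_of_generic hf hg hF hne h3 (T', S')

theorem linearize0 (hn : 2 ≤ n) (φ : Mat n → Mat n)
    (hφ : ∀ T S, spectrum ℂ (br (φ T) (φ S)) = spectrum ℂ (br T S)) :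
    ∃ L : Mat n →ₗ[ℂ] Mat n, L 1 = 0 ∧
      (∀ S, Reg S → t0 (φ S) = L S ∨ t0 (φ S) = - L S) := by
  classical
  have hn0 : n ≠ 0 := by omega
  obtain ⟨U, hU⟩ := exists_U hn0 hφ
  obtain ⟨T1, S0, hTS⟩ := exists_good (n := n)
  have hS0 : Reg S0 := ⟨T1, hTS⟩
  have hT1 : Reg T1 := Reg.left hTS
  have hbr : br (t0 (φ T1)) (t0 (φ S0)) ≠ 0 := by
    intro h0
    rw [br_t0] at h0
    apply D_phi hφ hTS
    rw [h0, D_zero hn]
  let a : I n → ℂ := fun x => t0 (φ S0) x.1 x.2
  -- a is nonzero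
  have ha : ∃ w : I n, a w ≠ 0 := by
    by_contra hcon
    push Not at hcon
    apply hbr
    have : t0 (φ S0) = 0 := by
      ext i j; exact hcon (i, j)
    rw [this]; simp [br]
  obtain ⟨w, hw⟩ := ha
  -- an independent one
  have hb : ∃ c d : I n, t0 (φ T1) c.1 c.2 * a d - t0 (φ T1) d.1 d.2 * a c ≠ 0 := by
    by_contra hcon
    push Not at hcon
    apply hbr
    have h1 : t0 (φ T1) = (t0 (φ T1) w.1 w.2 / a w) • t0 (φ S0) := by
      ext i j
      have h2 := hcon (i, j) w
      rw [Matrix.smul_apply, smul_eq_mul]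
      have h3 : t0 (φ T1) i j * a w = t0 (φ T1) w.1 w.2 * a (i, j) := by linear_combination h2
      field_simp
      exact h3
    rw [h1, br_smul_left, br_self, smul_zero]
  obtain ⟨c, d, hcd⟩ := hb
  let P : Mat n → Sy n := fun S => U (tau S)
  have hPreg : ∀ S, Reg S → P S = tau (φ S) := hU
  have hPLP : ∀ x y : I n, LP (fun S => P S x y) := by
    intro x y
    have := LP_lin_tau ((LinearMap.proj y ∘ₗ (LinearMap.proj (R := ℂ) (φ := fun _ : I n => (I n → ℂ)) x)) ∘ₗ U)
    exact this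
  have hminor : ∀ (S : Mat n) (x y u v : I n), P S x y * P S u v = P S x v * P S u y := by
    intro S x y u v
    refine eq_of_reg ((hPLP x y).mul (hPLP u v)) ((hPLP x v).mul (hPLP u y)) ?_ S
    intro R hR
    rw [hPreg R hR]
    simp only [tau_apply]
    ring
  -- symmetric mixed tensor
  let M : Mat n → Sy n := fun S => (2 : ℂ) • U (tau2 S0 S)
  have hPS0 : P S0 = tau (φ S0) := hPreg S0 hS0
  have hline : ∀ (S : Mat n) (z : ℂ) (x y : I n),
      P (S + z • S0) x y = P S x y + z * M S x y + z ^ 2 * (a x * a y) := by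
    intro S z x y
    have h1 : P (S + z • S0) = P S + (2 * z) • U (tau2 S0 S) + (z ^ 2) • P S0 := by
      show U (tau (S + z • S0)) = _
      rw [tau_line, map_add, map_add, map_smul, map_smul]
    rw [h1, hPS0]
    simp only [M, Pi.add_apply, Pi.smul_apply, smul_eq_mul, tau_apply, a]
    ring
  have hPsym : ∀ (S : Mat n) (x y : I n), P S x y = P S y x := by
    intro S x y
    refine eq_of_reg (hPLP x y) (hPLP y x) ?_ S
    intro R hR
    rw [hPreg R hR]
    simp only [tau_apply]
    ring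
  have hMsym : ∀ (S : Mat n) (x y : I n), M S x y = M S y x := by
    intro S x y
    have h1 := hline S 1 x y
    have h2 := hline S 1 y x
    have h3 := hPsym (S + (1:ℂ) • S0) x y
    have h4 := hPsym S x y
    rw [h1, h2, h4] at h3
    linear_combination h3
  let L : Mat n →ₗ[ℂ] Mat n :=
    { toFun := fun S => Matrix.of (fun i j => (M S w (i, j) - M S w w * a (i, j) / (2 * a w)) / a w)
      map_add' := by
        intro S R
        ext i j
        simp only [M, map_add, smul_add, Matrix.of_apply, Matrix.add_apply, Pi.add_apply]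
        ring
      map_smul' := by
        intro z S
        ext i j
        simp only [M, map_smul, Matrix.of_apply, Matrix.smul_apply, Pi.smul_apply, smul_eq_mul,
          RingHom.id_apply]
        ring }
  have hLapp : ∀ (S : Mat n) (x : I n),
      L S x.1 x.2 = (M S w x - M S w w * a x / (2 * a w)) / a w := fun S x => rfl
  -- generic squares
  have hsq : ∀ (S : Mat n) (x y : I n), P S x y = L S x.1 x.2 * L S y.1 y.2 := by
    intro S x y
    have hG : LP (fun S => P S c c * a d ^ 2 + P S d d * a c ^ 2 - 2 * P S c d * (a c * a d)) := by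
      exact (((hPLP c c).mul (LP.const _)).add ((hPLP d d).mul (LP.const _))).sub
        (((LP.const 2).mul (hPLP c d)).mul (LP.const _))
    have hF : LP (fun S => D (br T1 S) *
        (P S c c * a d ^ 2 + P S d d * a c ^ 2 - 2 * P S c d * (a c * a d))) :=
      (LP_D (LPM.const T1) LPM_id).mul hG
    have hne : ∃ S, D (br T1 S) *
        (P S c c * a d ^ 2 + P S d d * a c ^ 2 - 2 * P S c d * (a c * a d)) ≠ 0 := by
      refine LP.exists_ne_mul (LP_D (LPM.const T1) LPM_id) hG ⟨S0, hTS⟩ ⟨T1, ?_⟩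
      rw [hPreg T1 hT1]
      simp only [tau_apply]
      have : (t0 (φ T1) c.1 c.2 * t0 (φ T1) c.1 c.2 * a d ^ 2 +
          t0 (φ T1) d.1 d.2 * t0 (φ T1) d.1 d.2 * a c ^ 2 -
          2 * (t0 (φ T1) c.1 c.2 * t0 (φ T1) d.1 d.2) * (a c * a d)) =
          (t0 (φ T1) c.1 c.2 * a d - t0 (φ T1) d.1 d.2 * a c) ^ 2 := by ring
      rw [this]
      exact pow_ne_zero 2 hcd
    have hL1 := LPM.linear L
    refine LP.eq_of_generic (hPLP x y) ((hL1 x.1 x.2).mul (hL1 y.1 y.2)) hF hne ?_ S
    intro R hR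
    have hR1 : Reg R := ⟨T1, left_ne_zero_of_mul hR⟩
    have hR2 := right_ne_zero_of_mul hR
    have hPR := hPreg R hR1
    let b : I n → ℂ := fun x => t0 (φ R) x.1 x.2
    have hb : b c * a d - b d * a c ≠ 0 := by
      intro h0
      apply hR2
      rw [hPR]
      simp only [tau_apply]
      have : (t0 (φ R) c.1 c.2 * t0 (φ R) c.1 c.2 * a d ^ 2 +
          t0 (φ R) d.1 d.2 * t0 (φ R) d.1 d.2 * a c ^ 2 -
          2 * (t0 (φ R) c.1 c.2 * t0 (φ R) d.1 d.2) * (a c * a d)) =
          (b c * a d - b d * a c) ^ 2 := by simp only [b]; ring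
      rw [this, h0]; ring
    have hmin : ∀ (z : ℂ) (x y u v : I n),
      (b x * b y + z * M R x y + z ^ 2 * (a x * a y)) * (b u * b v + z * M R u v + z ^ 2 * (a u * a v)) =
      (b x * b v + z * M R x v + z ^ 2 * (a x * a v)) * (b u * b y + z * M R u y + z ^ 2 * (a u * a y)) := by
      intro z x y u v
      have h1 := hminor (R + z • S0) x y u v
      simp only [hline, hPR, tau_apply] at h1
      exact h1
    show P R x y = L R x.1 x.2 * L R y.1 y.2
    rw [hPR, hLapp R x, hLapp R y, tau_apply]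
    rcases rank_one a b (M R) w hw (hMsym R) hb hmin with h | h
    · rw [h x, h y]
    · rw [h x, h y]; simp only [b]; ring
  refine ⟨L, ?_, ?_⟩
  · ext i j
    have h1 : tau2 S0 (1 : Mat n) = 0 := by
      funext x y
      rw [tau2_apply, t0_one hn0]; simp
    rw [hLapp 1 (i, j)]
    simp only [M, h1, map_zero, smul_zero, Pi.zero_apply, Matrix.zero_apply]
    simp
  · intro S hS
    have h1 : ∀ x y : I n, t0 (φ S) x.1 x.2 * t0 (φ S) y.1 y.2 = L S x.1 x.2 * L S y.1 y.2 := by
      intro x y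
      rw [← hsq S x y, hPreg S hS, tau_apply]
    by_cases h0 : t0 (φ S) = 0
    · left
      rw [h0]
      ext i j
      have h2 := h1 (i, j) (i, j)
      rw [h0] at h2
      simp only [Matrix.zero_apply, mul_zero] at h2 ⊢
      exact (mul_self_eq_zero.1 h2.symm).symm
    · have h2 : ∃ x : I n, t0 (φ S) x.1 x.2 ≠ 0 := by
        by_contra hcon
        push Not at hcon
        exact h0 (by ext i j; exact hcon (i, j))
      obtain ⟨x, hx⟩ := h2
      have h3 := h1 x x
      rcases mul_self_eq_mul_self_iff.1 h3 with h | h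
      · left
        ext i j
        have h4 := h1 x (i, j)
        rw [← h] at h4
        exact mul_left_cancel₀ hx h4
      · right
        ext i j
        have h4 := h1 x (i, j)
        have h5 : L S x.1 x.2 = - t0 (φ S) x.1 x.2 := by rw [h, neg_neg]
        rw [h5] at h4
        rw [Matrix.neg_apply]
        apply mul_left_cancel₀ hx
        rw [h4]; ring

/-- the signs are consistent -/
theorem linearize (hn : 2 ≤ n) (φ : Mat n → Mat n)
    (hφ : ∀ T S, spectrum ℂ (br (φ T) (φ S)) = spectrum ℂ (br T S)) :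
    ∃ L : Mat n →ₗ[ℂ] Mat n, L 1 = 0 ∧ (∀ S, (L S).trace = 0) ∧
      (∀ T S, q (L T) (L S) = q T S) ∧ (∀ T S, c (L T) (L S) = c T S) ∧
      (∀ S, Reg S → t0 (φ S) = L S ∨ t0 (φ S) = - L S) := by
  have hn0 : n ≠ 0 := by omega
  obtain ⟨L, hL1, hL⟩ := linearize0 hn φ hφ
  have hfst : LPM (fun p : Mat n × Mat n => L p.1) :=
    LPM.linear (L ∘ₗ LinearMap.fst ℂ (Mat n) (Mat n))
  have hsnd : LPM (fun p : Mat n × Mat n => L p.2) :=
    LPM.linear (L ∘ₗ LinearMap.snd ℂ (Mat n) (Mat n))
  have hfst' : LPM (fun p : Mat n × Mat n => p.1) :=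
    LPM.linear (LinearMap.fst ℂ (Mat n) (Mat n))
  have hsnd' : LPM (fun p : Mat n × Mat n => p.2) :=
    LPM.linear (LinearMap.snd ℂ (Mat n) (Mat n))
  have hq : ∀ T S, D (br T S) ≠ 0 → q (L T) (L S) = q T S := by
    intro T S hTS
    have h1 : q (φ T) (φ S) = q T S := trace_pow_phi hφ hTS 2
    rw [← h1, ← q_t0 (φ T)]
    rcases hL T (Reg.left hTS) with h | h <;> rcases hL S (Reg.right hTS) with h' | h' <;>
      rw [h, h'] <;> simp only [q_neg_left, q_neg_right]
  have hc : ∀ T S, D (br T S) ≠ 0 → c (φ T) (φ S) = c T S := fun T S hTS =>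
    trace_pow_phi hφ hTS 3
  have hc2 : ∀ T S, D (br T S) ≠ 0 → c (L T) (L S) ^ 2 = c T S ^ 2 := by
    intro T S hTS
    rw [← hc T S hTS, ← c_t0 (φ T)]
    rcases hL T (Reg.left hTS) with h | h <;> rcases hL S (Reg.right hTS) with h' | h' <;>
      rw [h, h'] <;> simp only [c_neg_left, c_neg_right] <;> ring
  have hcall : ∀ T S, c (L T) (L S) ^ 2 = c T S ^ 2 := by
    have h1 : LP (fun p : Mat n × Mat n => c (L p.1) (L p.2) ^ 2) := by
      simpa only [pow_two] using (LP_c hfst hsnd).mul (LP_c hfst hsnd)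
    have h2 : LP (fun p : Mat n × Mat n => c p.1 p.2 ^ 2) := by
      simpa only [pow_two] using (LP_c hfst' hsnd').mul (LP_c hfst' hsnd')
    exact eq_of_reg2 h1 h2 hc2
  refine ⟨L, hL1, ?_, ?_, ?_, hL⟩
  · have h1 : LP (fun S : Mat n => (L S).trace) := (LPM.linear L).trace
    refine eq_of_reg h1 (LP.const 0) ?_
    intro S hS
    rcases hL S hS with h | h
    · rw [← h, trace_t0 hn0]
    · have : L S = - t0 (φ S) := by rw [h, neg_neg]
      rw [this, Matrix.trace_neg, trace_t0 hn0, neg_zero]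
  · exact eq_of_reg2 (LP_q hfst hsnd) (LP_q hfst' hsnd') hq
  · have h0 : ∀ p : Mat n × Mat n, (c (L p.1) (L p.2) - c p.1 p.2) *
        (c (L p.1) (L p.2) + c p.1 p.2) = 0 := by
      intro p
      have := hcall p.1 p.2
      linear_combination this
    rcases LP.zero_or_zero ((LP_c hfst hsnd).sub (LP_c hfst' hsnd'))
      ((LP_c hfst hsnd).add (LP_c hfst' hsnd')) h0 with h | h
    · intro T S
      exact sub_eq_zero.1 (h (T, S))
    · -- sign minus : contradiction unless c vanishes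
      by_cases hcne : ∃ T S : Mat n, c T S ≠ 0
      · exfalso
        obtain ⟨T', S', hTS'⟩ := hcne
        obtain ⟨T, S, hTS⟩ := exists_good (n := n)
        -- three matrices
        let V := Mat n × Mat n × Mat n
        let p1 : V →ₗ[ℂ] Mat n := LinearMap.fst ℂ (Mat n) (Mat n × Mat n)
        let p2 : V →ₗ[ℂ] Mat n := LinearMap.fst ℂ (Mat n) (Mat n) ∘ₗ LinearMap.snd ℂ (Mat n) (Mat n × Mat n)
        let p3 : V →ₗ[ℂ] Mat n := LinearMap.snd ℂ (Mat n) (Mat n) ∘ₗ LinearMap.snd ℂ (Mat n) (Mat n × Mat n)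
        have l1 := LPM.linear p1
        have l2 := LPM.linear p2
        have l3 := LPM.linear p3
        have e12 : ∃ v : V, D (br (p1 v) (p2 v)) * c (p1 v) (p2 v) ≠ 0 :=
          LP.exists_ne_mul (LP_D l1 l2) (LP_c l1 l2) ⟨(T, S, 0), hTS⟩ ⟨(T', S', 0), hTS'⟩
        have e13 : ∃ v : V, D (br (p1 v) (p3 v)) * c (p1 v) (p3 v) ≠ 0 :=
          LP.exists_ne_mul (LP_D l1 l3) (LP_c l1 l3) ⟨(T, 0, S), hTS⟩ ⟨(T', 0, S'), hTS'⟩
        have e23 : ∃ v : V, D (br (p2 v) (p3 v)) * c (p2 v) (p3 v) ≠ 0 :=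
          LP.exists_ne_mul (LP_D l2 l3) (LP_c l2 l3) ⟨(0, T, S), hTS⟩ ⟨(0, T', S'), hTS'⟩
        have L12 := (LP_D l1 l2).mul (LP_c l1 l2)
        have L13 := (LP_D l1 l3).mul (LP_c l1 l3)
        have L23 := (LP_D l2 l3).mul (LP_c l2 l3)
        obtain ⟨v, hv⟩ := LP.exists_ne_mul (L12.mul L13) L23 (LP.exists_ne_mul L12 L13 e12 e13) e23
        have hv12 := left_ne_zero_of_mul (left_ne_zero_of_mul hv)
        have hv13 := right_ne_zero_of_mul (left_ne_zero_of_mul hv)
        have hv23 := right_ne_zero_of_mul hv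
        have key : ∀ A B : Mat n, D (br A B) ≠ 0 → c A B ≠ 0 → ∀ sA sB : ℂ,
            (sA = 1 ∨ sA = -1) → (sB = 1 ∨ sB = -1) →
            t0 (φ A) = sA • L A → t0 (φ B) = sB • L B → sA * sB = -1 := by
          intro A B hD hcAB sA sB hsA hsB hA hB
          have h1 := hc A B hD
          rw [← c_t0, hA, hB] at h1
          have h2 : c (sA • L A) (sB • L B) = sA * sB * c (L A) (L B) := by
            rcases hsA with h | h <;> rcases hsB with h' | h' <;> rw [h, h'] <;>
              simp only [one_smul, neg_smul, c_neg_left, c_neg_right] <;> ring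
          rw [h2] at h1
          have h3 : c (L A) (L B) + c A B = 0 := h (A, B)
          have h4 : (sA * sB + 1) * c A B = 0 := by linear_combination sA * sB * h3 - h1
          rcases mul_eq_zero.1 h4 with h5 | h5
          · linear_combination h5
          · exact absurd h5 hcAB
        have hs : ∀ A : Mat n, Reg A → ∃ s : ℂ, (s = 1 ∨ s = -1) ∧ t0 (φ A) = s • L A := by
          intro A hA
          rcases hL A hA with h | h
          · exact ⟨1, Or.inl rfl, by rw [h, one_smul]⟩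
          · exact ⟨-1, Or.inr rfl, by rw [h, neg_smul, one_smul]⟩
        obtain ⟨s1, hs1, h1⟩ := hs (p1 v) (Reg.left (left_ne_zero_of_mul hv12))
        obtain ⟨s2, hs2, h2⟩ := hs (p2 v) (Reg.right (left_ne_zero_of_mul hv12))
        obtain ⟨s3, hs3, h3⟩ := hs (p3 v) (Reg.right (left_ne_zero_of_mul hv13))
        have k12 := key _ _ (left_ne_zero_of_mul hv12) (right_ne_zero_of_mul hv12) s1 s2 hs1 hs2 h1 h2
        have k13 := key _ _ (left_ne_zero_of_mul hv13) (right_ne_zero_of_mul hv13) s1 s3 hs1 hs3 h1 h3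
        have k23 := key _ _ (left_ne_zero_of_mul hv23) (right_ne_zero_of_mul hv23) s2 s3 hs2 hs3 h2 h3
        have e1 : s1 ^ 2 = 1 := by rcases hs1 with h | h <;> rw [h] <;> ring
        have e2 : s2 ^ 2 = 1 := by rcases hs2 with h | h <;> rw [h] <;> ring
        have e3 : s3 ^ 2 = 1 := by rcases hs3 with h | h <;> rw [h] <;> ring
        have e4 : (s1 * s2) * (s1 * s3) * (s2 * s3) = s1 ^ 2 * s2 ^ 2 * s3 ^ 2 := by ring
        rw [k12, k13, k23, e1, e2, e3] at e4
        norm_num at e4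
      · push Not at hcne
        intro T S
        rw [hcne, hcne]

end Pool.Agent.H278R3.Lin3
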