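import Mathlib
import Pool.Agent.H278R3.Lin3
import Pool.Agent.H278R3.Cls2

set_option autoImplicit false

namespace Pool.Agent.H278R3.Cls3
open LPoly SpecDisc Lin1 Lin2 Cls1 Cls2

variable {n : ℕ}

theorem exists_diag {M : Mat n} (hD : D M ≠ 0) :
    ∃ (P : (Mat n)ˣ) (d : Fin n → ℂ), M = (P : Mat n) * Matrix.diagonal d * (↑P⁻¹ : Mat n) := by
  classical
  obtain ⟨d, hinj, hd⟩ := exists_eigs hD
  have h1 : ∀ i, ∃ v : Fin n → ℂ, v ≠ 0 ∧ M.mulVec v = d i • v := by
    intro i
    have h2 := (Matrix.mem_spectrum_iff_isRoot_charpoly (A := M)).1 (hd i)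
    have h3 : (Matrix.scalar (Fin n) (d i) - M).det = 0 := by
      rw [← Matrix.eval_charpoly]; exact h2
    obtain ⟨v, hv, hv0⟩ := Matrix.exists_mulVec_eq_zero_iff.2 h3
    refine ⟨v, hv, ?_⟩
    rw [Matrix.sub_mulVec] at hv0
    have h4 : (Matrix.scalar (Fin n) (d i)).mulVec v = d i • v := by
      ext j
      simp [Matrix.scalar_apply, Matrix.mulVec_diagonal]
    rw [h4] at hv0
    exact (sub_eq_zero.1 hv0).symm
  choose v hv hMv using h1
  have hli : LinearIndependent ℂ v := by
    apply Module.End.eigenvectors_linearIndependent' (Matrix.toLin' M) d hinj v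
    intro i
    refine ⟨?_, hv i⟩
    rw [Module.End.mem_eigenspace_iff, Matrix.toLin'_apply]
    exact hMv i
  let P : Mat n := Matrix.of (fun a i => v i a)
  have hPu : IsUnit P := by
    rw [← Matrix.linearIndependent_cols_iff_isUnit]
    exact hli
  have hMP : M * P = P * Matrix.diagonal d := by
    ext a i
    rw [Matrix.mul_apply, Matrix.mul_diagonal]
    have := congrFun (hMv i) a
    simp only [Matrix.mulVec, dotProduct, Pi.smul_apply, smul_eq_mul] at this
    simp only [P, Matrix.of_apply]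
    rw [this, mul_comm]
  obtain ⟨u, hu⟩ := hPu
  refine ⟨u, d, ?_⟩
  rw [hu, ← hMP, ← hu, mul_assoc, Units.mul_inv, mul_one]

/-- matrices with nonzero D and trace zero are commutators -/
theorem is_br {M : Mat n} (hD : D M ≠ 0) (ht : M.trace = 0) : ∃ T S : Mat n, M = br T S := by
  obtain ⟨P, d, hM⟩ := exists_diag hD
  have h1 : ∑ i, d i = 0 := by
    rw [hM, Matrix.trace_mul_comm, ← mul_assoc, Units.inv_mul, one_mul, Matrix.trace_diagonal] at ht
    exact ht
  obtain ⟨T, S, hTS⟩ := exists_br_eq_diagonal d h1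
  refine ⟨P * T * (↑P⁻¹ : Mat n), P * S * (↑P⁻¹ : Mat n), ?_⟩
  rw [hM, ← hTS, br, br]
  have e1 : ∀ A B : Mat n, (P : Mat n) * A * (↑P⁻¹ : Mat n) * ((P : Mat n) * B * (↑P⁻¹ : Mat n)) =
      (P : Mat n) * (A * B) * (↑P⁻¹ : Mat n) := by
    intro A B
    calc (P : Mat n) * A * (↑P⁻¹ : Mat n) * ((P : Mat n) * B * (↑P⁻¹ : Mat n))
        = (P : Mat n) * A * ((↑P⁻¹ : Mat n) * (P : Mat n)) * B * (↑P⁻¹ : Mat n) := by noncomm_ring
      _ = _ := by rw [Units.inv_mul]; noncomm_ring
  rw [e1, e1]
  noncomm_ring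

theorem trace_cube_polar (A B C : Mat n) :
    ((A + B + C) ^ 3).trace - ((A + B) ^ 3).trace - ((A + C) ^ 3).trace - ((B + C) ^ 3).trace
      + (A ^ 3).trace + (B ^ 3).trace + (C ^ 3).trace = 3 * ((A * B + B * A) * C).trace := by
  rw [← Matrix.trace_sub, ← Matrix.trace_sub, ← Matrix.trace_sub, ← Matrix.trace_add,
    ← Matrix.trace_add, ← Matrix.trace_add]
  have h1 : (A + B + C) ^ 3 - (A + B) ^ 3 - (A + C) ^ 3 - (B + C) ^ 3 + A ^ 3 + B ^ 3 + C ^ 3 =
      A * B * C + A * C * B + B * A * C + B * C * A + C * A * B + C * B * A := by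
    noncomm_ring
  rw [h1]
  simp only [Matrix.trace_add, add_mul]
  have e1 : (A * C * B).trace = (B * A * C).trace := by
    rw [Matrix.trace_mul_comm, mul_assoc]
  have e2 : (B * C * A).trace = (A * B * C).trace := by
    rw [Matrix.trace_mul_comm, mul_assoc]
  have e3 : (C * A * B).trace = (A * B * C).trace := by
    rw [mul_assoc, Matrix.trace_mul_comm]
  have e4 : (C * B * A).trace = (B * A * C).trace := by
    rw [mul_assoc, Matrix.trace_mul_comm]
  rw [e1, e2, e3, e4]; ring

/-- Skolem Noether for the full complex matrix algebra -/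
theorem inner (F : Mat n →ₗ[ℂ] Mat n) (hbij : Function.Bijective F) (h1 : F 1 = 1)
    (hm : ∀ T S, F (T * S) = F T * F S) :
    ∃ A : (Mat n)ˣ, ∀ T, F T = (A : Mat n) * T * (↑A⁻¹ : Mat n) := by
  let G : Mat n ≃ₐ[ℂ] Mat n := AlgEquiv.ofBijective (AlgHom.ofLinearMap F h1 hm) hbij
  let E : Mat n ≃ₐ[ℂ] Module.End ℂ (Fin n → ℂ) := Matrix.toLinAlgEquiv'
  obtain ⟨T, hT⟩ := AlgEquiv.eq_linearEquivConjAlgEquiv ((E.symm.trans G).trans E)
  -- matrices of T
  let A : Mat n := E.symm T.toLinearMap
  let B : Mat n := E.symm T.symm.toLinearMap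
  have hAB : A * B = 1 := by
    apply E.injective
    rw [map_mul, map_one]
    simp only [A, B, AlgEquiv.apply_symm_apply]
    ext x
    simp
  have hBA : B * A = 1 := by
    apply E.injective
    rw [map_mul, map_one]
    simp only [A, B, AlgEquiv.apply_symm_apply]
    ext x
    simp
  refine ⟨⟨A, B, hAB, hBA⟩, fun S => ?_⟩
  show F S = A * S * B
  apply E.injective
  have h2 := congrArg (fun e => e (E S)) hT
  simp only [AlgEquiv.trans_apply, AlgEquiv.symm_apply_apply, LinearEquiv.conjAlgEquiv_apply] at h2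
  rw [map_mul, map_mul]
  simp only [A, B, AlgEquiv.apply_symm_apply]
  have h3 : G S = F S := rfl
  rw [← h3, h2]
  rfl

theorem classify (hn : 2 ≤ n) (L : Mat n →ₗ[ℂ] Mat n) (hL1 : L 1 = 0)
    (hLtr : ∀ S, (L S).trace = 0) (hq : ∀ T S, q (L T) (L S) = q T S)
    (hc : ∀ T S, c (L T) (L S) = c T S) :
    ∃ (A : (Mat n)ˣ) (s : ℂ), (s = 1 ∨ s = -1) ∧
      ((∀ S, L S = s • ((A : Mat n) * t0 S * (↑A⁻¹ : Mat n))) ∨
       (∀ S, L S = (s * Complex.I) • ((A : Mat n) * (t0 S).transpose * (↑A⁻¹ : Mat n)))) := by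
  classical
  have hn0 : n ≠ 0 := by omega
  have hnC : (n : ℂ) ≠ 0 := by exact_mod_cast hn0
  have hLt0 : ∀ T, L (t0 T) = L T := by
    intro T
    rw [t0_apply, map_sub, map_smul, hL1, smul_zero, sub_zero]
  -- Lam
  let Lam : Mat n →ₗ[ℂ] Mat n :=
    { toFun := fun T => L T + (T.trace / n) • (1 : Mat n)
      map_add' := by
        intro T S
        rw [map_add, Matrix.trace_add, add_div, add_smul]; abel
      map_smul' := by
        intro z T
        rw [map_smul, Matrix.trace_smul, RingHom.id_apply, smul_add, smul_smul, smul_eq_mul,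
          mul_div_assoc] }
  have hLam : ∀ T, Lam T = L T + (T.trace / n) • (1 : Mat n) := fun T => rfl
  have hLam0 : ∀ T : Mat n, T.trace = 0 → Lam T = L T := by
    intro T hT
    rw [hLam, hT, zero_div, zero_smul, add_zero]
  have htr : ∀ T, (Lam T).trace = T.trace := by
    intro T
    rw [hLam, Matrix.trace_add, hLtr, zero_add, Matrix.trace_smul, Matrix.trace_one,
      Fintype.card_fin, smul_eq_mul, div_mul_cancel₀ _ hnC]
  have hLamone : Lam 1 = 1 := by
    rw [hLam, hL1, zero_add, Matrix.trace_one, Fintype.card_fin, div_self hnC, one_smul]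
  have hbrL : ∀ T S, br (Lam T) (Lam S) = br (L T) (L S) := by
    intro T S
    rw [hLam, hLam, br_add_left, br_add_right, br_smul_left, br_one_left, br_smul_right,
      br_one_right]
    simp
  have hqL : ∀ T S, q (Lam T) (Lam S) = q T S := by
    intro T S
    rw [← hq T S]; unfold q; rw [hbrL]
  have hcL : ∀ T S, c (Lam T) (Lam S) = c T S := by
    intro T S
    rw [← hc T S]; unfold c; rw [hbrL]
  have hinj : Function.Injective Lam := by
    rw [injective_iff_map_eq_zero]
    intro T hT
    have h1 : T.trace = 0 := by rw [← htr T, hT, Matrix.trace_zero]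
    have h2 := nondeg (ι := Unit) Finset.univ (fun _ => 1) (fun _ => T) hn0 (by
      intro T'
      simp only [Finset.univ_unique, Finset.sum_const, Finset.card_singleton, one_smul, one_mul]
      rw [← hqL T' T, hT]
      simp [q, br])
    simp only [Finset.univ_unique, Finset.sum_const, Finset.card_singleton, one_smul] at h2
    ext i j
    have h3 := congrFun (congrFun h2 (i, j)) (i, j)
    rw [tau_apply, t0_of_trace h1] at h3
    exact mul_self_eq_zero.1 h3
  let e : Mat n ≃ₗ[ℂ] Mat n := LinearEquiv.ofInjectiveEndo Lam hinj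
  have he : ∀ T, e T = Lam T := fun T => rfl
  have hsurj : Function.Surjective Lam := by
    intro Y
    obtain ⟨T, hT⟩ := e.surjective Y
    exact ⟨T, hT⟩
  have hQ : ∀ T S R, (br (Lam T) (br (Lam T) (Lam S)) * Lam R).trace =
      (br T (br T S) * R).trace := by
    intro T S R
    have h1 := q_polar S R T
    have h2 := q_polar (Lam S) (Lam R) (Lam T)
    rw [← map_add, hqL, hqL, hqL, h1] at h2
    have h3 : ∀ A B : Mat n, br A (br B A) = - br A (br A B) := by
      intro A B; simp only [br]; noncomm_ring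
    rw [h3, h3, neg_mul, neg_mul, Matrix.trace_neg, Matrix.trace_neg] at h2
    linear_combination (1/2) * h2
  -- the sign ep
  have hcases : (∀ T : Mat n, T.trace = 0 → Lam T = (adj e.symm.toLinearMap) T) ∨
      (∀ T : Mat n, T.trace = 0 → Lam T = - (adj e.symm.toLinearMap) T) := by
    apply nil_cases
    intro x f hxf
    set N := Matrix.vecMulVec x f with hN
    have htN : N.trace = 0 := by
      rw [hN, Matrix.trace_vecMulVec, dotProduct_comm]; exact hxf
    have hXt : (Lam N).trace = 0 := by rw [htr, htN]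
    have hadj : ∀ R, (adj e.symm.toLinearMap N * Lam R).trace = (N * R).trace := by
      intro R
      rw [adj_apply]
      congr 2
      show e.symm (e R) = R
      exact e.symm_apply_apply R
    have hYt : (adj e.symm.toLinearMap N).trace = 0 := by
      have := hadj 1
      rw [hLamone, mul_one, mul_one, htN] at this
      exact this
    apply lemmaA hn0 hXt hYt
    intro R
    obtain ⟨R', rfl⟩ := hsurj R
    rw [← sub_eq_zero]
    apply eq_zero_of_trace_mul
    intro Z
    obtain ⟨Z', rfl⟩ := hsurj Z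
    rw [sub_mul, Matrix.trace_sub, hQ, smul_mul_assoc, Matrix.trace_smul, hadj, hadj, nil_br hxf,
      smul_mul_assoc, Matrix.trace_smul, sub_self]
  obtain ⟨ep, hep1, hB⟩ : ∃ ep : ℂ, (ep = 1 ∨ ep = -1) ∧
      ∀ T : Mat n, T.trace = 0 → ∀ S, (Lam T * Lam S).trace = ep * (T * S).trace := by
    have hadj : ∀ T R, (adj e.symm.toLinearMap T * Lam R).trace = (T * R).trace := by
      intro T R
      rw [adj_apply]
      congr 2
      show e.symm (e R) = R
      exact e.symm_apply_apply R
    rcases hcases with h | h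
    · refine ⟨1, Or.inl rfl, fun T hT S => ?_⟩
      rw [h T hT, hadj, one_mul]
    · refine ⟨-1, Or.inr rfl, fun T hT S => ?_⟩
      rw [h T hT, neg_mul, Matrix.trace_neg, hadj, neg_one_mul]
  have hep : ep * ep = 1 := by rcases hep1 with h | h <;> rw [h] <;> ring
  obtain ⟨mu, hmu, hmubr⟩ := exists_mu Lam hsurj htr ep hep hB hQ hn0 hep1
  have hmuL : ∀ T S, br (L T) (L S) = mu • L (br T S) := by
    intro T S
    rw [← hbrL, hmubr, hLam0 _ (trace_br T S)]
  have hBL : ∀ T S, (L T * L S).trace = ep * (t0 T * t0 S).trace := by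
    intro T S
    have h1 := hB (t0 T) (trace_t0 hn0 T) (t0 S)
    rw [hLam0 _ (trace_t0 hn0 T), hLam0 _ (trace_t0 hn0 S), hLt0, hLt0] at h1
    exact h1
  -- the cubic identity
  have hcub : ∀ M : Mat n, mu ^ 3 * ((L M) ^ 3).trace = ((t0 M) ^ 3).trace := by
    have hl1 : LP (fun M : Mat n => mu ^ 3 * ((L M) ^ 3).trace) :=
      (LP.const _).mul (((LPM.linear L).pow 3).trace)
    have hl2 : LP (fun M : Mat n => ((t0 M) ^ 3).trace) := ((LPM.linear t0).pow 3).trace
    have hl3 : LP (fun M : Mat n => D (t0 M)) := D_lp (LPM.linear t0)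
    have hne : ∃ M : Mat n, D (t0 M) ≠ 0 := by
      obtain ⟨T, S, hTS⟩ := exists_good (n := n)
      exact ⟨br T S, by rwa [t0_of_trace (trace_br T S)]⟩
    refine LP.eq_of_generic hl1 hl2 hl3 hne ?_
    intro M hM
    obtain ⟨T, S, hTS⟩ := is_br hM (trace_t0 hn0 M)
    have h1 := hc T S
    unfold c at h1
    rw [hmuL, smul_pow, Matrix.trace_smul, smul_eq_mul, ← hTS, hLt0] at h1
    exact h1
  have hmu0 : mu ≠ 0 := by
    intro h
    rw [h] at hmu
    rw [← hmu] at hep
    norm_num at hep
  -- Psi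
  let Psi : Mat n →ₗ[ℂ] Mat n :=
    { toFun := fun T => mu • L T + (T.trace / n) • (1 : Mat n)
      map_add' := by
        intro T S
        rw [map_add, Matrix.trace_add, add_div, add_smul, smul_add]; abel
      map_smul' := by
        intro z T
        rw [map_smul, Matrix.trace_smul, RingHom.id_apply, smul_eq_mul, mul_div_assoc]
        module }
  have hPsi : ∀ T, Psi T = mu • L T + (T.trace / n) • (1 : Mat n) := fun T => rfl
  have hdec : ∀ T : Mat n, T = t0 T + (T.trace / n) • (1 : Mat n) := by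
    intro T; rw [t0_apply, sub_add_cancel]
  have hsqgen : ∀ (X Y : Mat n) (x y : ℂ), X.trace = 0 → Y.trace = 0 →
      ((X + x • (1 : Mat n)) * (Y + y • (1 : Mat n))).trace = (X * Y).trace + x * y * n := by
    intro X Y x y hX hY
    have : (X + x • (1 : Mat n)) * (Y + y • (1 : Mat n)) = X * Y + y • X + x • Y + (x * y) • (1 : Mat n) := by
      rw [add_mul, mul_add, mul_add, smul_mul_smul_comm]
      simp only [mul_smul_comm, mul_one, smul_mul_assoc, one_mul]
      abel
    rw [this]
    simp only [Matrix.trace_add, Matrix.trace_smul, hX, hY, Matrix.trace_one, Fintype.card_fin,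
      smul_eq_mul, mul_zero, add_zero]
  have hcubgen : ∀ (X : Mat n) (x : ℂ), X.trace = 0 →
      ((X + x • (1 : Mat n)) ^ 3).trace = (X ^ 3).trace + 3 * x * (X * X).trace + x ^ 3 * n := by
    intro X x hX
    have : (X + x • (1 : Mat n)) ^ 3 = X ^ 3 + (3 * x) • (X * X) + (3 * x ^ 2) • X + (x ^ 3) • (1 : Mat n) := by
      have e3 : X ^ 3 = X * X * X := by rw [pow_succ, pow_two]
      have e4 : (X + x • (1 : Mat n)) ^ 3 = (X + x • (1 : Mat n)) * (X + x • (1 : Mat n)) *
          (X + x • (1 : Mat n)) := by rw [pow_succ, pow_two]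
      rw [e3, e4]
      simp only [add_mul, mul_add, smul_mul_assoc, mul_smul_comm, mul_one, one_mul, smul_add,
        smul_smul]
      module
    rw [this]
    simp only [Matrix.trace_add, Matrix.trace_smul, hX, Matrix.trace_one, Fintype.card_fin,
      smul_eq_mul, mul_zero, add_zero]
  have hLs : ∀ T, (mu • L T).trace = 0 := by
    intro T; rw [Matrix.trace_smul, hLtr, smul_zero]
  have hPsq : ∀ T S, (Psi T * Psi S).trace = (T * S).trace := by
    intro T S
    rw [hPsi, hPsi, hsqgen _ _ _ _ (hLs T) (hLs S), smul_mul_smul_comm, Matrix.trace_smul, hBL]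
    conv_rhs => rw [hdec T, hdec S]
    rw [hsqgen _ _ _ _ (trace_t0 hn0 T) (trace_t0 hn0 S), smul_eq_mul]
    congr 1
    have : mu * mu * (ep * (t0 T * t0 S).trace) = (mu ^ 2 * ep) * (t0 T * t0 S).trace := by ring
    rw [this, hmu, hep, one_mul]
  have hPcub : ∀ T, ((Psi T) ^ 3).trace = (T ^ 3).trace := by
    intro T
    rw [hPsi, hcubgen _ _ (hLs T), smul_mul_smul_comm, Matrix.trace_smul, hBL, smul_pow,
      Matrix.trace_smul]
    conv_rhs => rw [hdec T]
    rw [hcubgen _ _ (trace_t0 hn0 T), smul_eq_mul, smul_eq_mul, hcub]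
    have : mu * mu * (ep * (t0 T * t0 T).trace) = (mu ^ 2 * ep) * (t0 T * t0 T).trace := by ring
    rw [this, hmu, hep, one_mul]
  have hPinj : Function.Injective Psi := by
    rw [injective_iff_map_eq_zero]
    intro T hT
    apply eq_zero_of_trace_mul
    intro Y
    rw [← hPsq, hT, zero_mul, Matrix.trace_zero]
  have hPsurj : Function.Surjective Psi := LinearMap.surjective_of_injective hPinj
  have hPbr : ∀ T S, Psi T * Psi S - Psi S * Psi T = ep • (Psi (T * S) - Psi (S * T)) := by
    intro T S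
    have h1 : Psi T * Psi S - Psi S * Psi T = br (mu • L T) (mu • L S) := by
      rw [hPsi, hPsi]
      show br _ _ = _
      rw [br_add_left, br_add_right, br_smul_left _ (1 : Mat n), br_one_left, br_smul_right _ _ (1 : Mat n),
        br_one_right]
      simp
    have h2 : Psi (T * S) - Psi (S * T) = mu • L (br T S) := by
      rw [← map_sub]
      show Psi (br T S) = _
      rw [hPsi, trace_br, zero_div, zero_smul, add_zero]
    rw [h1, h2, br_smul_left, br_smul_right, hmuL, smul_smul, smul_smul, smul_smul]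
    congr 1
    rw [← hmu]; ring
  have hPjor : ∀ T S, Psi T * Psi S + Psi S * Psi T = Psi (T * S) + Psi (S * T) := by
    intro T S
    rw [← sub_eq_zero, ← map_add]
    apply eq_zero_of_trace_mul
    intro Z
    obtain ⟨R, rfl⟩ := hPsurj Z
    rw [sub_mul, Matrix.trace_sub, hPsq]
    have h1 := trace_cube_polar (Psi T) (Psi S) (Psi R)
    rw [← map_add, ← map_add, ← map_add, ← map_add, hPcub, hPcub, hPcub, hPcub, hPcub, hPcub,
      hPcub, trace_cube_polar T S R] at h1
    linear_combination (-1/3) * h1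
  have hPone : Psi 1 = 1 := by
    rw [hPsi, hL1, smul_zero, zero_add, Matrix.trace_one, Fintype.card_fin, div_self hnC, one_smul]
  have hLfromPsi : ∀ S, L S = mu⁻¹ • Psi (t0 S) := by
    intro S
    rw [hPsi, trace_t0 hn0, zero_div, zero_smul, add_zero, hLt0, smul_smul, inv_mul_cancel₀ hmu0,
      one_smul]
  rcases hep1 with h | h
  · -- homomorphism
    have hm : ∀ T S, Psi (T * S) = Psi T * Psi S := by
      intro T S
      have h1 := hPjor T S
      have h2 := hPbr T S
      rw [h, one_smul] at h2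
      have h3 : (2 : ℂ) • Psi (T * S) = (2 : ℂ) • (Psi T * Psi S) := by
        calc (2 : ℂ) • Psi (T * S) = (Psi (T * S) + Psi (S * T)) + (Psi (T * S) - Psi (S * T)) := by
              module
          _ = (Psi T * Psi S + Psi S * Psi T) + (Psi T * Psi S - Psi S * Psi T) := by
              rw [h1, h2]
          _ = _ := by module
      exact smul_right_injective _ (two_ne_zero) h3
    obtain ⟨A, hA⟩ := inner Psi ⟨hPinj, hPsurj⟩ hPone hm
    have hmu1 : mu = 1 ∨ mu = -1 := by
      rw [h, pow_two] at hmu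
      exact mul_self_eq_one_iff.1 hmu
    refine ⟨A, mu⁻¹, ?_, Or.inl (fun S => by rw [hLfromPsi, hA])⟩
    rcases hmu1 with h' | h'
    · left; rw [h', inv_one]
    · right; rw [h']; norm_num
  · -- antihomomorphism
    have hm : ∀ T S, Psi (S * T) = Psi T * Psi S := by
      intro T S
      have h1 := hPjor T S
      have h2 := hPbr T S
      rw [h, neg_one_smul] at h2
      have h3 : (2 : ℂ) • Psi (S * T) = (2 : ℂ) • (Psi T * Psi S) := by
        calc (2 : ℂ) • Psi (S * T) = (Psi (T * S) + Psi (S * T)) + -(Psi (T * S) - Psi (S * T)) := by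
              module
          _ = (Psi T * Psi S + Psi S * Psi T) + (Psi T * Psi S - Psi S * Psi T) := by
              rw [h1, h2]
          _ = _ := by module
      exact smul_right_injective _ (two_ne_zero) h3
    let F : Mat n →ₗ[ℂ] Mat n := Psi ∘ₗ (Matrix.transposeLinearEquiv (Fin n) (Fin n) ℂ ℂ).toLinearMap
    have hF : ∀ T, F T = Psi T.transpose := fun T => rfl
    have hFbij : Function.Bijective F := by
      constructor
      · intro T S hTS
        rw [hF, hF] at hTS
        exact Matrix.transpose_injective (hPinj hTS)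
      · intro Y
        obtain ⟨T, hT⟩ := hPsurj Y
        exact ⟨T.transpose, by rw [hF, Matrix.transpose_transpose, hT]⟩
    obtain ⟨A, hA⟩ := inner F hFbij (by rw [hF, Matrix.transpose_one, hPone]) (by
      intro T S
      rw [hF, hF, hF, Matrix.transpose_mul, hm])
    have hmu1 : mu⁻¹ = Complex.I ∨ mu⁻¹ = -Complex.I := by
      have h4 : (mu - Complex.I) * (mu + Complex.I) = 0 := by
        have : (mu - Complex.I) * (mu + Complex.I) = mu ^ 2 - Complex.I ^ 2 := by ring
        rw [this, hmu, h, Complex.I_sq]; ring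
      rcases mul_eq_zero.1 h4 with h5 | h5
      · right
        rw [sub_eq_zero.1 h5, Complex.inv_I]
      · left
        rw [eq_neg_of_add_eq_zero_left h5, inv_neg, Complex.inv_I, neg_neg]
    have hfin : ∀ S, L S = mu⁻¹ • ((A : Mat n) * (t0 S).transpose * (↑A⁻¹ : Mat n)) := by
      intro S
      rw [hLfromPsi, ← hA, hF, Matrix.transpose_transpose]
    rcases hmu1 with h' | h'
    · refine ⟨A, 1, Or.inl rfl, Or.inr (fun S => ?_)⟩
      rw [hfin, h', one_mul]
    · refine ⟨A, -1, Or.inr rfl, Or.inr (fun S => ?_)⟩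
      rw [hfin, h', neg_one_mul]

end Pool.Agent.H278R3.Cls3
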