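import Pool.Agent.H862R3.Prim.Stmts

/-! Task E of project PRIMVAR (helper278). -/

set_option autoImplicit false

namespace Pool.Agent.H278R3.PV

open Pool.Agent.H862R3.Prim
open scoped commutatorElement

/-- the derived series of `L` inside `G` -/
def DD {G : Type} [Group G] (L : Subgroup G) : ℕ → Subgroup G
  | 0 => L
  | n + 1 => ⁅DD L n, DD L n⁆

theorem DD_normal {G : Type} [Group G] (L : Subgroup G) (hL : L.Normal) : ∀ n, (DD L n).Normal
  | 0 => hL
  | n + 1 => by
    have := DD_normal L hL n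
    show (⁅DD L n, DD L n⁆ : Subgroup G).Normal
    exact Subgroup.commutator_normal _ _

theorem DD_le {G : Type} [Group G] (L : Subgroup G) (hL : L.Normal) : ∀ n, DD L n ≤ L
  | 0 => le_rfl
  | n + 1 => by
    have := DD_normal L hL n
    exact (Subgroup.commutator_le_left (DD L n) (DD L n)).trans (DD_le L hL n)

theorem DD_le_derived {G : Type} [Group G] (L : Subgroup G) : ∀ n, DD L n ≤ derivedSeries G n
  | 0 => le_top
  | n + 1 => Subgroup.commutator_mono (DD_le_derived L n) (DD_le_derived L n)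

theorem taskE : TaskE := by
  intro G _ _ L hG hL hne
  classical
  obtain ⟨d, hd⟩ := hG.solvable
  have hex : ∃ n, DD L n = ⊥ := ⟨d, by
    rw [eq_bot_iff]
    exact (DD_le_derived L d).trans hd.le⟩
  have hspec : DD L (Nat.find hex) = ⊥ := Nat.find_spec hex
  have hn0 : Nat.find hex ≠ 0 := by
    intro h0
    rw [h0] at hspec
    exact hne hspec
  obtain ⟨m, hm⟩ := Nat.exists_eq_succ_of_ne_zero hn0
  have hD : DD L m ≠ ⊥ := Nat.find_min hex (by omega)
  have hcomm : ∀ x ∈ DD L m, ∀ y ∈ DD L m, x * y = y * x := by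
    intro x hx y hy
    have h1 : ⁅x, y⁆ ∈ ⁅DD L m, DD L m⁆ := Subgroup.commutator_mem_commutator hx hy
    have h2 : (⁅DD L m, DD L m⁆ : Subgroup G) = ⊥ := by
      rw [hm] at hspec
      exact hspec
    rw [h2, Subgroup.mem_bot, commutatorElement_eq_one_iff_mul_comm] at h1
    exact h1
  have hnorm := DD_normal L hL m
  -- a prime divisor
  have hcard : Nat.card (DD L m) ≠ 1 := by
    intro h1
    exact hD (Subgroup.card_eq_one.1 h1)
  obtain ⟨q, hq, hqd⟩ := Nat.exists_prime_and_dvd hcard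
  have : Fact q.Prime := ⟨hq⟩
  obtain ⟨x, hx⟩ := exists_prime_orderOf_dvd_card' q hqd
  let N : Subgroup G :=
    { carrier := {x | x ∈ DD L m ∧ x ^ q = 1}
      mul_mem' := by
        rintro a b ⟨ha, ha'⟩ ⟨hb, hb'⟩
        refine ⟨mul_mem ha hb, ?_⟩
        have hc : Commute a b := hcomm a ha b hb
        rw [hc.mul_pow, ha', hb', one_mul]
      one_mem' := ⟨one_mem _, one_pow _⟩
      inv_mem' := by
        rintro a ⟨ha, ha'⟩
        exact ⟨inv_mem ha, by rw [inv_pow, ha', inv_one]⟩ }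
  refine ⟨N, fun y hy => DD_le L hL m hy.1, ?_, ?_, ?_, q, hq, fun y hy => hy.2⟩
  · intro h0
    have h1 : (x : G) ∈ N := by
      refine ⟨x.2, ?_⟩
      have h2 : x ^ q = 1 := by rw [← hx]; exact pow_orderOf_eq_one x
      have h3 := congrArg (fun z : DD L m => (z : G)) h2
      simpa using h3
    rw [h0, Subgroup.mem_bot] at h1
    have h2 : x = 1 := Subtype.ext h1
    rw [h2, orderOf_one] at hx
    exact hq.one_lt.ne hx
  · refine ⟨?_⟩
    rintro a ⟨ha, ha'⟩ g
    refine ⟨hnorm.conj_mem a ha g, ?_⟩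
    rw [conj_pow, ha', mul_one, mul_inv_cancel]
  · intro a ha b hb
    exact hcomm a ha.1 b hb.1

end Pool.Agent.H278R3.PV
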