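import Mathlib
import Pool.Agent.H278R3.Cls3
import Pool.Agent.H278R3.Asym

set_option autoImplicit false
open Polynomial

namespace Pool.Agent.H278R3.SpecMain
open LPoly SpecDisc Lin1 Lin2 Lin3 Cls1 Cls2 Cls3 Ext Asym

variable {n : ℕ}

/-- the normalised situation -/
theorem main_norm (hn : 2 ≤ n) (φ : Mat n → Mat n)
    (hφ : ∀ T S, spectrum ℂ (br (φ T) (φ S)) = spectrum ℂ (br T S))
    (hreg : ∀ S, Reg S → t0 (φ S) = t0 S ∨ t0 (φ S) = - t0 S) :
    ∃ (ep eta : Mat n → ℂ), (∀ T, ep T = 1 ∨ ep T = -1) ∧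
      (∀ T S, ¬ Quad T → ¬ Quad S → ep T = ep S) ∧
      (∀ T, φ T = ep T • T + eta T • (1 : Mat n)) := by
  classical
  have hn0 : n ≠ 0 := by omega
  have h1 : ∀ T, ∃ s eta : ℂ, (s = 1 ∨ s = -1) ∧ φ T = s • T + eta • (1 : Mat n) := by
    intro T
    apply ident hn0
    intro S hS
    have h2 := hφ T S
    rw [← h2, ← br_t0_right]
    rcases hreg S hS with h | h
    · left; rw [h, br_t0_right]
    · right; rw [h, br_neg_right, br_t0_right]
  choose ep eta hep heta using h1
  refine ⟨ep, eta, hep, ?_, heta⟩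
  have hbr : ∀ T S, br (φ T) (φ S) = (ep T * ep S) • br T S := by
    intro T S
    rw [heta T, heta S, br_add_left, br_add_right, br_smul_left (eta T), br_one_left,
      br_smul_right (eta S), br_one_right, smul_zero, smul_zero, add_zero, add_zero, br_smul_left,
      br_smul_right, smul_smul]
  have hsign : ∀ T S, spectrum ℂ (br T S) ≠ spectrum ℂ (- br T S) → ep T = ep S := by
    intro T S hne
    have h2 := hφ T S
    rw [hbr] at h2
    rcases hep T with h | h <;> rcases hep S with h' | h' <;> rw [h, h'] at h2 ⊢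
    · exfalso; apply hne
      rw [one_mul, neg_one_smul] at h2
      exact h2.symm
    · exfalso; apply hne
      rw [mul_one, neg_one_smul] at h2
      exact h2.symm
  intro T T' hT hT'
  obtain ⟨Sa, hSa⟩ := exists_asym T hT
  obtain ⟨Sb, hSb⟩ := exists_asym T' hT'
  have hA : {z : ℂ | spectrum ℂ (br T Sa + z • br T (Sb - Sa)) =
      spectrum ℂ (- br T Sa + z • (- br T (Sb - Sa)))}.Finite := by
    by_contra hcon
    have := ext_line_eq _ _ _ _ hcon 0
    apply hSa
    simpa using this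
  have hB : {z : ℂ | spectrum ℂ (br T' Sa + z • br T' (Sb - Sa)) =
      spectrum ℂ (- br T' Sa + z • (- br T' (Sb - Sa)))}.Finite := by
    by_contra hcon
    have h2 := ext_line_eq _ _ _ _ hcon 1
    apply hSb
    rw [one_smul, one_smul, ← neg_add, ← br_add_right, add_sub_cancel] at h2
    exact h2
  obtain ⟨z, hz⟩ := (hA.union hB).infinite_compl.nonempty
  rw [Set.mem_compl_iff, Set.mem_union, not_or] at hz
  obtain ⟨hz1, hz2⟩ := hz
  have k1 : spectrum ℂ (br T (Sa + z • (Sb - Sa))) ≠ spectrum ℂ (- br T (Sa + z • (Sb - Sa))) := by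
    intro h
    apply hz1
    show _ = _
    rw [br_line, neg_add, ← smul_neg] at h
    exact h
  have k2 : spectrum ℂ (br T' (Sa + z • (Sb - Sa))) ≠ spectrum ℂ (- br T' (Sa + z • (Sb - Sa))) := by
    intro h
    apply hz2
    show _ = _
    rw [br_line, neg_add, ← smul_neg] at h
    exact h
  rw [hsign _ _ k1, hsign _ _ k2]

theorem t0_conj (A : (Mat n)ˣ) (T : Mat n) :
    t0 ((A : Mat n) * T * (↑A⁻¹ : Mat n)) = (A : Mat n) * t0 T * (↑A⁻¹ : Mat n) := by
  have h1 : ((A : Mat n) * T * (↑A⁻¹ : Mat n)).trace = T.trace := by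
    rw [Matrix.trace_mul_comm, ← mul_assoc, Units.inv_mul, one_mul]
  rw [t0_apply, t0_apply, h1, mul_sub, sub_mul, mul_smul_comm, mul_one, smul_mul_assoc,
    Units.mul_inv]

theorem t0_transpose (T : Mat n) : t0 T.transpose = (t0 T).transpose := by
  rw [t0_apply, t0_apply, Matrix.trace_transpose, Matrix.transpose_sub, Matrix.transpose_smul,
    Matrix.transpose_one]

theorem br_conj (A : (Mat n)ˣ) (T S : Mat n) :
    br ((A : Mat n) * T * (↑A⁻¹ : Mat n)) ((A : Mat n) * S * (↑A⁻¹ : Mat n)) =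
      (A : Mat n) * br T S * (↑A⁻¹ : Mat n) := by
  have e1 : ∀ X Y : Mat n, (A : Mat n) * X * (↑A⁻¹ : Mat n) * ((A : Mat n) * Y * (↑A⁻¹ : Mat n)) =
      (A : Mat n) * (X * Y) * (↑A⁻¹ : Mat n) := by
    intro X Y
    calc (A : Mat n) * X * (↑A⁻¹ : Mat n) * ((A : Mat n) * Y * (↑A⁻¹ : Mat n))
        = (A : Mat n) * X * ((↑A⁻¹ : Mat n) * (A : Mat n)) * Y * (↑A⁻¹ : Mat n) := by noncomm_ring
      _ = _ := by rw [Units.inv_mul]; noncomm_ring
  rw [br, e1, e1, br]
  noncomm_ring

theorem br_transpose (T S : Mat n) : br T.transpose S.transpose = - (br T S).transpose := by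
  rw [br, br, Matrix.transpose_sub, Matrix.transpose_mul, Matrix.transpose_mul]; abel

theorem spec_transpose (M : Mat n) : spectrum ℂ M.transpose = spectrum ℂ M := by
  ext z
  rw [Matrix.mem_spectrum_iff_isRoot_charpoly, Matrix.mem_spectrum_iff_isRoot_charpoly,
    Matrix.charpoly_transpose]

/-- conjugation back -/
theorem conj_back (A : (Mat n)ˣ) (M : Mat n) :
    (A : Mat n) * ((↑A⁻¹ : Mat n) * M * (A : Mat n)) * (↑A⁻¹ : Mat n) = M := by
  calc (A : Mat n) * ((↑A⁻¹ : Mat n) * M * (A : Mat n)) * (↑A⁻¹ : Mat n)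
      = ((A : Mat n) * (↑A⁻¹ : Mat n)) * M * ((A : Mat n) * (↑A⁻¹ : Mat n)) := by noncomm_ring
    _ = M := by rw [Units.mul_inv]; noncomm_ring

theorem forward (hn : 2 ≤ n) (φ : Mat n → Mat n)
    (hφ : ∀ T S, spectrum ℂ (br (φ T) (φ S)) = spectrum ℂ (br T S)) :
    ∃ (A : (Mat n)ˣ) (ep eta : Mat n → ℂ), (∀ T, ep T = 1 ∨ ep T = -1) ∧
      (∀ T S, ¬ Quad T → ¬ Quad S → ep T = ep S) ∧
      ((∀ T, φ T = ep T • ((A : Mat n) * T * (↑A⁻¹ : Mat n)) + eta T • (1 : Mat n)) ∨
       (∀ T, φ T = (ep T * Complex.I) • ((A : Mat n) * T.transpose * (↑A⁻¹ : Mat n)) +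
        eta T • (1 : Mat n))) := by
  classical
  obtain ⟨L, hL1, hLtr, hLq, hLc, hLreg⟩ := linearize hn φ hφ
  obtain ⟨A, s, hs, hcases⟩ := classify hn L hL1 hLtr hLq hLc
  have hAinv : (↑(A⁻¹)⁻¹ : Mat n) = (A : Mat n) := by rw [inv_inv]
  have hconj2 : ∀ M : Mat n, (↑A⁻¹ : Mat n) * ((A : Mat n) * M * (↑A⁻¹ : Mat n)) * (A : Mat n) = M := by
    intro M
    have := conj_back A⁻¹ M
    rwa [hAinv] at this
  rcases hcases with hc | hc
  · let ψ : Mat n → Mat n := fun T => (↑A⁻¹ : Mat n) * φ T * (A : Mat n)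
    have hψ : ∀ T, ψ T = (↑A⁻¹ : Mat n) * φ T * (↑(A⁻¹)⁻¹ : Mat n) := by
      intro T; rw [hAinv]
    have h1 : ∀ T S, spectrum ℂ (br (ψ T) (ψ S)) = spectrum ℂ (br T S) := by
      intro T S
      rw [hψ, hψ, br_conj, spec_conj, hφ]
    have h2 : ∀ S, Reg S → t0 (ψ S) = t0 S ∨ t0 (ψ S) = - t0 S := by
      intro S hS
      have h3 : t0 (ψ S) = (↑A⁻¹ : Mat n) * t0 (φ S) * (A : Mat n) := by
        rw [hψ, t0_conj, hAinv]
      rw [h3]
      rcases hLreg S hS with h | h <;> rcases hs with h' | h' <;> rw [h, hc, h']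
      · left; rw [one_smul, hconj2]
      · right; rw [neg_one_smul, mul_neg, neg_mul, hconj2]
      · right; rw [one_smul, mul_neg, neg_mul, hconj2]
      · left; rw [neg_one_smul, neg_neg, hconj2]
    obtain ⟨ep, eta, hep, hquad, heq⟩ := main_norm hn ψ h1 h2
    refine ⟨A, ep, eta, hep, hquad, Or.inl (fun T => ?_)⟩
    have h4 := congrArg (fun M => (A : Mat n) * M * (↑A⁻¹ : Mat n)) (heq T)
    simp only [ψ] at h4
    rw [conj_back] at h4
    rw [h4, mul_add, add_mul, mul_smul_comm, smul_mul_assoc, mul_smul_comm, smul_mul_assoc,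
      mul_one, Units.mul_inv]
  · let ψ : Mat n → Mat n := fun T => (-Complex.I) • ((↑A⁻¹ : Mat n) * φ T * (A : Mat n)).transpose
    have hψ : ∀ T, ψ T = (-Complex.I) • ((↑A⁻¹ : Mat n) * φ T * (↑(A⁻¹)⁻¹ : Mat n)).transpose := by
      intro T; rw [hAinv]
    have hII : (-Complex.I) * (-Complex.I) = -1 := by
      have := Complex.I_mul_I
      linear_combination this
    have h1 : ∀ T S, spectrum ℂ (br (ψ T) (ψ S)) = spectrum ℂ (br T S) := by
      intro T S
      rw [hψ, hψ, br_smul_left, br_smul_right, smul_smul, hII, br_transpose, neg_one_smul, neg_neg,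
        spec_transpose, br_conj, spec_conj, hφ]
    have hI2 : (-Complex.I) * Complex.I = 1 := by
      have := Complex.I_mul_I
      linear_combination -this
    have h2 : ∀ S, Reg S → t0 (ψ S) = t0 S ∨ t0 (ψ S) = - t0 S := by
      intro S hS
      have h3 : t0 (ψ S) = (-Complex.I) • ((↑A⁻¹ : Mat n) * t0 (φ S) * (A : Mat n)).transpose := by
        rw [hψ, map_smul, t0_transpose, t0_conj, hAinv]
      have h5 : ∀ z : ℂ, (-Complex.I) • ((↑A⁻¹ : Mat n) *
          ((z * Complex.I) • ((A : Mat n) * (t0 S).transpose * (↑A⁻¹ : Mat n))) * (A : Mat n)).transpose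
          = z • t0 S := by
        intro z
        rw [mul_smul_comm, smul_mul_assoc, hconj2, Matrix.transpose_smul, Matrix.transpose_transpose,
          smul_smul]
        congr 1
        linear_combination z * hI2
      rw [h3]
      rcases hLreg S hS with h | h
      · rw [h, hc, h5]
        rcases hs with h' | h'
        · left; rw [h', one_smul]
        · right; rw [h', neg_one_smul]
      · have h6 : -((s * Complex.I) • ((A : Mat n) * (t0 S).transpose * (↑A⁻¹ : Mat n))) =
            ((-s) * Complex.I) • ((A : Mat n) * (t0 S).transpose * (↑A⁻¹ : Mat n)) := by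
          rw [neg_mul, neg_smul]
        rw [h, hc, h6, h5]
        rcases hs with h' | h'
        · right; rw [h', neg_one_smul]
        · left; rw [h', neg_neg, one_smul]
    obtain ⟨ep, eta, hep, hquad, heq⟩ := main_norm hn ψ h1 h2
    refine ⟨A, ep, fun T => Complex.I * eta T, hep, hquad, Or.inr (fun T => ?_)⟩
    have h4 := congrArg (fun M => Complex.I • M.transpose) (heq T)
    simp only [ψ] at h4
    rw [Matrix.transpose_smul, Matrix.transpose_transpose, smul_smul, mul_neg, Complex.I_mul_I,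
      neg_neg, one_smul] at h4
    have h5 := congrArg (fun M => (A : Mat n) * M * (↑A⁻¹ : Mat n)) h4
    rw [conj_back] at h5
    rw [h5, Matrix.transpose_add, Matrix.transpose_smul, Matrix.transpose_smul,
      Matrix.transpose_one, smul_add, smul_smul, smul_smul, mul_add, add_mul, mul_smul_comm,
      smul_mul_assoc, mul_smul_comm, smul_mul_assoc, mul_one, Units.mul_inv, mul_comm Complex.I (ep T)]

theorem backward (φ : Mat n → Mat n) (A : (Mat n)ˣ) (ep eta : Mat n → ℂ)
    (hep : ∀ T, ep T = 1 ∨ ep T = -1)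
    (hquad : ∀ T S, ¬ Quad T → ¬ Quad S → ep T = ep S)
    (h : (∀ T, φ T = ep T • ((A : Mat n) * T * (↑A⁻¹ : Mat n)) + eta T • (1 : Mat n)) ∨
       (∀ T, φ T = (ep T * Complex.I) • ((A : Mat n) * T.transpose * (↑A⁻¹ : Mat n)) +
        eta T • (1 : Mat n))) :
    ∀ T S, spectrum ℂ (br (φ T) (φ S)) = spectrum ℂ (br T S) := by
  have hgen : ∀ (X Y : Mat n) (a b x y : ℂ), br (a • X + x • (1 : Mat n)) (b • Y + y • (1 : Mat n)) =
      (a * b) • br X Y := by
    intro X Y a b x y
    rw [br_add_left, br_add_right, br_smul_left x, br_one_left,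
      br_smul_right y, br_one_right, smul_zero, smul_zero, add_zero, add_zero, br_smul_left,
      br_smul_right, smul_smul]
  have hneg : ∀ T S, ep T * ep S = -1 → spectrum ℂ (br T S) = spectrum ℂ (- br T S) := by
    intro T S hTS
    by_cases hT : Quad T
    · exact quad_symm hT S
    · by_cases hS : Quad S
      · have h1 := quad_symm hS T
        rw [br_swap T S, neg_neg]
        exact h1.symm
      · exfalso
        have h1 := hquad T S hT hS
        rw [h1] at hTS
        rcases hep S with h2 | h2 <;> rw [h2] at hTS <;> norm_num at hTS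
  have hsg : ∀ T S, ep T * ep S = 1 ∨ ep T * ep S = -1 := by
    intro T S
    rcases hep T with h1 | h1 <;> rcases hep S with h2 | h2 <;> rw [h1, h2] <;> norm_num
  intro T S
  rcases h with h | h
  · rw [h T, h S, hgen, br_conj]
    rcases hsg T S with h1 | h1
    · rw [h1, one_smul, spec_conj]
    · rw [h1, neg_one_smul, ← neg_mul, ← mul_neg, spec_conj]
      exact (hneg T S h1).symm
  · rw [h T, h S, hgen, br_conj, br_transpose]
    have e1 : ep T * Complex.I * (ep S * Complex.I) = -(ep T * ep S) := by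
      have := Complex.I_mul_I
      linear_combination ep T * ep S * this
    rw [e1]
    rcases hsg T S with h1 | h1
    · rw [h1, neg_one_smul, ← neg_mul, ← mul_neg, spec_conj, neg_neg, spec_transpose]
    · rw [h1, neg_neg, one_smul, spec_conj, ← Matrix.transpose_neg, spec_transpose]
      exact (hneg T S h1).symm

end Pool.Agent.H278R3.SpecMain
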